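import Pool.Agent.T6.H1.CT.Defs

/-! Module CON: the expected number of connected pairs. -/

set_option autoImplicit false

namespace Pool.Agent.T6.H1.CT

open Classical

namespace ModCON

/-- the expectation -/
noncomputable def EE (θ : ℝ) (t : ℕ) (F : Cfg t → (Fin t → Bool → Bool) → ℝ) : ℝ :=
  ∑ ω : Cfg t, ∑ b : Fin t → Bool → Bool, nu θ ω b * F ω b

theorem EE_sum (θ : ℝ) (t : ℕ) {ι : Type} (s : Finset ι)
    (F : ι → Cfg t → (Fin t → Bool → Bool) → ℝ) :
    EE θ t (fun ω b => ∑ i ∈ s, F i ω b) = ∑ i ∈ s, EE θ t (F i) := by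
  unfold EE
  simp_rw [Finset.mul_sum]
  rw [Finset.sum_comm (s := s)]
  refine Finset.sum_congr rfl fun ω _ => ?_
  rw [Finset.sum_comm]

theorem EE_mono {θ : ℝ} {t : ℕ} (hnu : ∀ (ω : Cfg t) (b : Fin t → Bool → Bool), 0 ≤ nu θ ω b)
    {F G : Cfg t → (Fin t → Bool → Bool) → ℝ} (h : ∀ ω b, F ω b ≤ G ω b) :
    EE θ t F ≤ EE θ t G := by
  unfold EE
  exact Finset.sum_le_sum fun ω _ => Finset.sum_le_sum fun b _ =>
    mul_le_mul_of_nonneg_left (h ω b) (hnu ω b)

theorem EE_mul (θ : ℝ) (t : ℕ) (c : ℝ) (F : Cfg t → (Fin t → Bool → Bool) → ℝ) :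
    EE θ t (fun ω b => c * F ω b) = c * EE θ t F := by
  unfold EE
  rw [Finset.mul_sum]
  refine Finset.sum_congr rfl fun ω _ => ?_
  rw [Finset.mul_sum]
  refine Finset.sum_congr rfl fun b _ => ?_
  ring

theorem sqrt_step (n : ℕ) :
    1 / Real.sqrt ((n : ℝ) + 1) ≤ 2 * Real.sqrt ((n : ℝ) + 1) - 2 * Real.sqrt (n : ℝ) := by
  have h1 : 0 < Real.sqrt ((n : ℝ) + 1) := Real.sqrt_pos.2 (by positivity)
  have h2 : 0 ≤ Real.sqrt (n : ℝ) := Real.sqrt_nonneg _
  have h3 : Real.sqrt ((n : ℝ) + 1) ^ 2 = (n : ℝ) + 1 := Real.sq_sqrt (by positivity)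
  have h4 : Real.sqrt (n : ℝ) ^ 2 = (n : ℝ) := Real.sq_sqrt (by positivity)
  rw [div_le_iff₀ h1]
  nlinarith [sq_nonneg (Real.sqrt ((n : ℝ) + 1) - Real.sqrt (n : ℝ))]

theorem sum_sqrt (n : ℕ) :
    ∑ i ∈ Finset.range n, 1 / Real.sqrt ((i : ℝ) + 1) ≤ 2 * Real.sqrt (n : ℝ) := by
  induction n with
  | zero => simp
  | succ n ih =>
    rw [Finset.sum_range_succ]
    have := sqrt_step n
    push_cast
    linarith

/-- the weight -/
noncomputable def wt {t : ℕ} (a : Fin (t + 1)) : ℝ := 1 / Real.sqrt ((a.val : ℝ) + 1)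

theorem wt_pos {t : ℕ} (a : Fin (t + 1)) : 0 < wt a :=
  div_pos one_pos (Real.sqrt_pos.2 (by positivity))

theorem one_le {t : ℕ} (a : Fin (t + 1)) : 1 ≤ Real.sqrt ((t : ℝ) + 1) * wt a := by
  unfold wt
  rw [mul_one_div, le_div_iff₀ (Real.sqrt_pos.2 (by positivity)), one_mul]
  apply Real.sqrt_le_sqrt
  have : a.val ≤ t := Nat.lt_succ_iff.1 a.isLt
  have : (a.val : ℝ) ≤ (t : ℝ) := by exact_mod_cast this
  linarith

/-- indicator of an open path -/
noncomputable def op {t : ℕ} (ω : Cfg t) (b : Fin t → Bool → Bool) (r : ℕ)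
    (p : Fin (r + 1) → Fin (t + 1)) : ℝ :=
  if ∀ i : Fin r, (og ω b).Adj (p i.castSucc) (p i.succ) then 1 else 0

theorem op_nonneg {t : ℕ} (ω : Cfg t) (b : Fin t → Bool → Bool) (r : ℕ)
    (p : Fin (r + 1) → Fin (t + 1)) : 0 ≤ op ω b r p := by
  unfold op
  split_ifs <;> norm_num

theorem exists_path {t : ℕ} (ω : Cfg t) (b : Fin t → Bool → Bool) (a a' : Fin (t + 1))
    (h : (og ω b).Reachable a a') : ∃ r ∈ Finset.range (t + 1),
      ∃ p : Fin (r + 1) → Fin (t + 1), Function.Injective p ∧ p 0 = a ∧ p (Fin.last r) = a' ∧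
        op ω b r p = 1 := by
  obtain ⟨w⟩ := h
  have hp := w.toPath.2
  set q : (og ω b).Walk a a' := w.toPath.1 with hq
  have hl := hp.length_lt
  rw [Fintype.card_fin] at hl
  refine ⟨q.length, Finset.mem_range.2 hl, fun i => q.getVert i.val, ?_, ?_, ?_, ?_⟩
  · intro i j hij
    have := hp.getVert_injOn (show i.val ∈ {k | k ≤ q.length} from Nat.lt_succ_iff.1 i.isLt)
      (show j.val ∈ {k | k ≤ q.length} from Nat.lt_succ_iff.1 j.isLt) hij
    exact Fin.ext this
  · simp
  · simp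
  · unfold op
    rw [if_pos]
    intro i
    exact q.adj_getVert_succ i.isLt

theorem reach_bound {t : ℕ} (ω : Cfg t) (b : Fin t → Bool → Bool) (a : Fin (t + 1)) :
    ∑ a' : Fin (t + 1), (if (og ω b).Reachable a a' then (1 : ℝ) else 0) ≤
      Real.sqrt ((t : ℝ) + 1) * ∑ r ∈ Finset.range (t + 1), ∑ p : Fin (r + 1) → Fin (t + 1),
        (if Function.Injective p ∧ p 0 = a then wt (p (Fin.last r)) else 0) * op ω b r p := by
  have h1 : ∀ a' : Fin (t + 1), (if (og ω b).Reachable a a' then (1 : ℝ) else 0) ≤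
      Real.sqrt ((t : ℝ) + 1) * ∑ r ∈ Finset.range (t + 1), ∑ p : Fin (r + 1) → Fin (t + 1),
        (if a' = p (Fin.last r) then
          (if Function.Injective p ∧ p 0 = a then wt (p (Fin.last r)) else 0) * op ω b r p
          else 0) := by
    intro a'
    have hnn : ∀ (r : ℕ) (p : Fin (r + 1) → Fin (t + 1)), 0 ≤ (if a' = p (Fin.last r) then
          (if Function.Injective p ∧ p 0 = a then wt (p (Fin.last r)) else 0) * op ω b r p
          else 0) := by
      intro r p
      split_ifs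
      · exact mul_nonneg (wt_pos _).le (op_nonneg _ _ _ _)
      · simp
      · exact le_refl _
    split_ifs with h
    · obtain ⟨r, hr, p, hp1, hp2, hp3, hp4⟩ := exists_path ω b a a' h
      have h2 : wt a' ≤ ∑ r ∈ Finset.range (t + 1), ∑ p : Fin (r + 1) → Fin (t + 1),
          (if a' = p (Fin.last r) then
            (if Function.Injective p ∧ p 0 = a then wt (p (Fin.last r)) else 0) * op ω b r p
            else 0) := by
        refine le_trans ?_ (Finset.single_le_sum (f := fun r : ℕ =>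
          ∑ p : Fin (r + 1) → Fin (t + 1), (if a' = p (Fin.last r) then
            (if Function.Injective p ∧ p 0 = a then wt (p (Fin.last r)) else 0) * op ω b r p
            else 0)) (fun r _ => Finset.sum_nonneg fun p _ => hnn r p) hr)
        refine le_trans ?_ (Finset.single_le_sum (f := fun p : Fin (r + 1) → Fin (t + 1) =>
          (if a' = p (Fin.last r) then
            (if Function.Injective p ∧ p 0 = a then wt (p (Fin.last r)) else 0) * op ω b r p
            else 0)) (fun p _ => hnn r p) (Finset.mem_univ p))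
        rw [if_pos hp3.symm, if_pos ⟨hp1, hp2⟩, hp4, mul_one, hp3]
      exact (one_le a').trans (mul_le_mul_of_nonneg_left h2 (Real.sqrt_nonneg _))
    · exact mul_nonneg (Real.sqrt_nonneg _)
        (Finset.sum_nonneg fun r _ => Finset.sum_nonneg fun p _ => hnn r p)
  refine (Finset.sum_le_sum fun a' _ => h1 a').trans (le_of_eq ?_)
  rw [← Finset.mul_sum, Finset.sum_comm]
  congr 1
  refine Finset.sum_congr rfl fun r _ => ?_
  rw [Finset.sum_comm]
  refine Finset.sum_congr rfl fun p _ => ?_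
  rw [Finset.sum_ite_eq' Finset.univ (p (Fin.last r))]
  simp

end ModCON

open ModCON

theorem tCON (hNU : StmNU) (hPTH : StmPTH) (hSCH : StmSCH) (hSEQ : StmSEQ) : StmCON := by
  intro θ h0 h1 t
  have hnu := (hNU θ h0 (by linarith) t).1
  change EE θ t (fun ω b => ∑ a : Fin (t + 1), ∑ a' : Fin (t + 1),
    (if (og ω b).Reachable a a' then (1 : ℝ) else 0)) ≤ _
  have e1 : EE θ t (fun ω b => ∑ a : Fin (t + 1), ∑ a' : Fin (t + 1),
      (if (og ω b).Reachable a a' then (1 : ℝ) else 0)) ≤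
      EE θ t (fun ω b => ∑ a : Fin (t + 1), Real.sqrt ((t : ℝ) + 1) *
        ∑ r ∈ Finset.range (t + 1), ∑ p : Fin (r + 1) → Fin (t + 1),
        (if Function.Injective p ∧ p 0 = a then wt (p (Fin.last r)) else 0) * op ω b r p) :=
    EE_mono hnu fun ω b => Finset.sum_le_sum fun a _ => reach_bound ω b a
  refine e1.trans ?_
  rw [EE_sum θ t Finset.univ (fun a ω b => Real.sqrt ((t : ℝ) + 1) *
        ∑ r ∈ Finset.range (t + 1), ∑ p : Fin (r + 1) → Fin (t + 1),
        (if Function.Injective p ∧ p 0 = a then wt (p (Fin.last r)) else 0) * op ω b r p)]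
  -- the kernel
  set K : Fin (t + 1) → Fin (t + 1) → ℝ := fun s a => if a = s then 0 else kap θ s.val a.val
    with hK
  have hkap : ∀ s a : ℕ, 0 ≤ kap θ s a := fun s a => by
    unfold kap
    positivity
  have hK0 : ∀ s a, 0 ≤ K s a := fun s a => by
    simp only [hK]
    split_ifs
    · exact le_refl _
    · exact hkap _ _
  have hSc : ∀ s, ∑ a, K s a * wt a ≤ 1 / 2 * wt s := by
    intro s
    refine le_trans (le_of_eq ?_) ((hSCH θ h0 h1 t s).trans (le_of_eq ?_))
    · refine Finset.sum_congr rfl fun a _ => ?_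
      simp only [hK, wt]
      split_ifs
      · simp
      · ring
    · unfold wt
      ring
  have hbd : ∀ a : Fin (t + 1), EE θ t (fun ω b => Real.sqrt ((t : ℝ) + 1) *
        ∑ r ∈ Finset.range (t + 1), ∑ p : Fin (r + 1) → Fin (t + 1),
        (if Function.Injective p ∧ p 0 = a then wt (p (Fin.last r)) else 0) * op ω b r p) ≤
      Real.sqrt ((t : ℝ) + 1) * (2 * wt a) := by
    intro a
    rw [EE_mul θ t (Real.sqrt ((t : ℝ) + 1)) (fun ω b =>
      ∑ r ∈ Finset.range (t + 1), ∑ p : Fin (r + 1) → Fin (t + 1),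
        (if Function.Injective p ∧ p 0 = a then wt (p (Fin.last r)) else 0) * op ω b r p)]
    refine mul_le_mul_of_nonneg_left ?_ (Real.sqrt_nonneg _)
    rw [EE_sum θ t (Finset.range (t + 1)) (fun r ω b => ∑ p : Fin (r + 1) → Fin (t + 1),
        (if Function.Injective p ∧ p 0 = a then wt (p (Fin.last r)) else 0) * op ω b r p)]
    have hr : ∀ r ∈ Finset.range (t + 1), EE θ t (fun ω b => ∑ p : Fin (r + 1) → Fin (t + 1),
        (if Function.Injective p ∧ p 0 = a then wt (p (Fin.last r)) else 0) * op ω b r p) ≤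
        (1 / 2) ^ r * wt a := by
      intro r _
      rw [EE_sum θ t Finset.univ (fun (p : Fin (r + 1) → Fin (t + 1)) ω b =>
        (if Function.Injective p ∧ p 0 = a then wt (p (Fin.last r)) else 0) * op ω b r p)]
      refine le_trans (Finset.sum_le_sum fun p _ => ?_)
        (hSEQ (Fin (t + 1)) K wt (1 / 2) hK0 (fun a => (wt_pos a).le) (by norm_num) hSc r a)
      rw [EE_mul θ t (if Function.Injective p ∧ p 0 = a then wt (p (Fin.last r)) else 0)
        (fun ω b => op ω b r p)]
      by_cases hc : Function.Injective p ∧ p 0 = a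
      · rw [if_pos hc, if_pos hc.2, mul_comm]
        refine mul_le_mul_of_nonneg_right ?_ (wt_pos _).le
        refine (hPTH θ h0 (by linarith) t r p hc.1).trans (le_of_eq ?_)
        refine Finset.prod_congr rfl fun i _ => ?_
        simp only [hK]
        rw [if_neg]
        intro h
        have := hc.1 h
        exact absurd this (Fin.castSucc_lt_succ (i := i)).ne'
      · rw [if_neg hc, zero_mul]
        split_ifs
        · exact mul_nonneg (Finset.prod_nonneg fun i _ => hK0 _ _) (wt_pos _).le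
        · exact le_refl _
    refine (Finset.sum_le_sum hr).trans ?_
    rw [← Finset.sum_mul]
    exact mul_le_mul_of_nonneg_right (sum_geometric_two_le _) (wt_pos _).le
  refine (Finset.sum_le_sum fun a _ => hbd a).trans ?_
  rw [← Finset.mul_sum, ← Finset.mul_sum]
  have hw : ∑ a : Fin (t + 1), wt a ≤ 2 * Real.sqrt ((t : ℝ) + 1) := by
    have := sum_sqrt (t + 1)
    rw [← Fin.sum_univ_eq_sum_range (fun i => 1 / Real.sqrt ((i : ℝ) + 1))] at this
    push_cast at this
    exact this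
  have hs : Real.sqrt ((t : ℝ) + 1) * Real.sqrt ((t : ℝ) + 1) = (t : ℝ) + 1 :=
    Real.mul_self_sqrt (by positivity)
  have hs0 : 0 ≤ Real.sqrt ((t : ℝ) + 1) := Real.sqrt_nonneg _
  nlinarith

end Pool.Agent.T6.H1.CT
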