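import Pool.Agent.T6.H1.CT.Defs

/-! # Module GAU: the gauge symmetry -/

set_option autoImplicit false

namespace Pool.Agent.T6.H1.CT

open Classical

namespace GAUx

variable {t : ℕ}

/-- flip of the types -/
def psi (X : Fin (t + 1) → Bool) (v : Node t) : Node t := (v.1, xor (X v.1) v.2)

/-- the flipped configuration -/
def nw (X : Fin (t + 1) → Bool) (ω : Cfg t) : Cfg t := fun k τ =>
  ((ω k (xor (X k.succ) τ)).1,
    xor (X (par ω k (xor (X k.succ) τ)).1) (ω k (xor (X k.succ) τ)).2)

/-- the flipped marks -/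
def nb (X : Fin (t + 1) → Bool) (b : Fin t → Bool → Bool) : Fin t → Bool → Bool :=
  fun k τ => b k (xor (X k.succ) τ)

lemma xx (a b : Bool) : xor a (xor a b) = b := by cases a <;> cases b <;> rfl

lemma psi_psi (X : Fin (t + 1) → Bool) (v : Node t) : psi X (psi X v) = v := by
  unfold psi
  simp only [xx]

lemma par_nw (X : Fin (t + 1) → Bool) (ω : Cfg t) (k : Fin t) (τ : Bool) :
    par (nw X ω) k τ = psi X (par ω k (xor (X k.succ) τ)) := rfl

lemma nw_nw (X : Fin (t + 1) → Bool) (ω : Cfg t) : nw X (nw X ω) = ω := by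
  funext k τ
  have h : nw X (nw X ω) k τ = ((ω k (xor (X k.succ) (xor (X k.succ) τ))).1,
      xor (X (par ω k (xor (X k.succ) (xor (X k.succ) τ))).1)
        (xor (X (par ω k (xor (X k.succ) (xor (X k.succ) τ))).1)
          (ω k (xor (X k.succ) (xor (X k.succ) τ))).2)) := rfl
  rw [h]
  simp only [xx]

lemma nb_nb (X : Fin (t + 1) → Bool) (b : Fin t → Bool → Bool) : nb X (nb X b) = b := by
  funext k τ
  unfold nb
  simp only [xx]

lemma og_nw (X : Fin (t + 1) → Bool) (ω : Cfg t) (b : Fin t → Bool → Bool) :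
    og (nw X ω) (nb X b) = og ω b := by
  unfold og
  congr 1
  funext s a
  apply propext
  constructor
  · rintro ⟨k, τ, h1, h2, h3⟩
    exact ⟨k, xor (X k.succ) τ, h1, h2, h3⟩
  · rintro ⟨k, τ, h1, h2, h3⟩
    refine ⟨k, xor (X k.succ) τ, ?_, h2, ?_⟩
    · unfold nb
      rw [xx]
      exact h1
    · unfold nw
      simp only [xx]
      exact h3

lemma nu_nw (θ : ℝ) (X : Fin (t + 1) → Bool) (ω : Cfg t) (b : Fin t → Bool → Bool)
    (hX : ∀ k τ, b k τ = true → X k.succ = X (par ω k τ).1) :
    nu θ (nw X ω) (nb X b) = nu θ ω b := by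
  unfold nu
  apply Finset.prod_congr rfl
  intro k _
  have hinv : Function.Involutive (fun τ : Bool => xor (X k.succ) τ) := fun τ => xx _ _
  rw [← Equiv.prod_comp hinv.toPerm]
  apply Finset.prod_congr rfl
  intro τ _
  rw [Function.Involutive.coe_toPerm]
  simp only [nb, nw, xx]
  by_cases hb : b k τ = true
  · rw [if_pos hb, if_pos hb]
    have h := hX k τ hb
    rw [← h]
    have : (xor (X k.succ) (ω k τ).2 = xor (X k.succ) τ) ↔ (ω k τ).2 = τ := by
      cases X k.succ <;> cases (ω k τ).2 <;> cases τ <;> simp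
    simp only [this]
  · rw [if_neg hb, if_neg hb]

/-- the symmetric relation of the tree -/
def rel (ω : Cfg t) (v w : Node t) : Prop :=
  (v = (0, false) ∧ w = (0, true)) ∨ ∃ (k : Fin t) (τ : Bool), v = (k.succ, τ) ∧ w = par ω k τ

lemma rel_nw (X : Fin (t + 1) → Bool) (ω : Cfg t) (v w : Node t) (h : rel ω v w) :
    rel (nw X ω) (psi X v) (psi X w) ∨ rel (nw X ω) (psi X w) (psi X v) := by
  rcases h with ⟨rfl, rfl⟩ | ⟨k, τ, rfl, rfl⟩
  · cases hX : X 0 with
    | false =>
      left; left
      constructor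
      · simp [psi, hX]
      · simp [psi, hX]
    | true =>
      right; left
      constructor
      · simp [psi, hX]
      · simp [psi, hX]
  · left; right
    refine ⟨k, xor (X k.succ) τ, rfl, ?_⟩
    rw [par_nw, xx]

lemma adj_nw (X : Fin (t + 1) → Bool) (ω : Cfg t) (v w : Node t) (h : (tree ω).Adj v w) :
    (tree (nw X ω)).Adj (psi X v) (psi X w) := by
  unfold tree at h ⊢
  rw [SimpleGraph.fromRel_adj] at h ⊢
  obtain ⟨h1, h2⟩ := h
  refine ⟨?_, ?_⟩
  · intro h3
    apply h1
    have := congrArg (psi X) h3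
    rwa [psi_psi, psi_psi] at this
  · rcases h2 with h2 | h2
    · exact rel_nw X ω v w h2
    · exact (rel_nw X ω w v h2).symm

/-- the isomorphism of the trees -/
def iso (X : Fin (t + 1) → Bool) (ω : Cfg t) : tree ω ≃g tree (nw X ω) where
  toEquiv := (Function.Involutive.toPerm (psi X) (psi_psi X))
  map_rel_iff' := by
    intro v w
    constructor
    · intro h
      have := adj_nw X (nw X ω) _ _ h
      rw [nw_nw] at this
      simpa [psi_psi] using this
    · intro h
      exact adj_nw X ω v w h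

lemma iso_apply (X : Fin (t + 1) → Bool) (ω : Cfg t) (v : Node t) : iso X ω v = psi X v := rfl

lemma ev2_nw (hIA : StmIA) (h : Func) (hg : Good h) (X : Fin (t + 1) → Bool) (ω : Cfg t)
    (u : Bool → Node t) : ev2 h (nw X ω) (fun τ => psi X (u τ)) = ev2 h ω u := by
  obtain ⟨φ, h1, h2⟩ := hIA (Node t) (Node t) Bool Bool (tree ω) (tree (nw X ω)) (iso X ω)
    (Equiv.refl Bool) (fun τ => Sum.inl (u τ)) (fun τ => Sum.inl (psi X (u τ))) (by
      intro i
      simp [iso_apply])
  unfold ev2
  symm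
  apply hg.2 _ _ _ _ _ _ φ
  rintro (a | i)
  · rw [h1]
    simp only [Set.mem_image, Sum.inl.injEq, exists_eq_right]
    rw [iso_apply]
    exact Iff.rfl
  · rw [h2]
    simp

/-- the flips in the component of the first time -/
noncomputable def XX (ω : Cfg t) (b : Fin t → Bool → Bool) (a : Fin (t + 1)) :
    Fin (t + 1) → Bool := fun s => decide ((og ω b).Reachable a s)

lemma XX_open (ω : Cfg t) (b : Fin t → Bool → Bool) (a : Fin (t + 1)) (k : Fin t) (τ : Bool)
    (hb : b k τ = true) : XX ω b a k.succ = XX ω b a (par ω k τ).1 := by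
  have hadj : (og ω b).Adj k.succ (par ω k τ).1 := by
    unfold og
    rw [SimpleGraph.fromRel_adj]
    refine ⟨?_, Or.inl ⟨k, τ, hb, rfl, rfl⟩⟩
    intro h
    have h1 := congrArg Fin.val h
    have h2 : ((par ω k τ).1 : Fin (t + 1)).val = (ω k τ).1.val := rfl
    rw [h2, Fin.val_succ] at h1
    have := (ω k τ).1.isLt
    omega
  unfold XX
  apply decide_eq_decide.2
  constructor
  · intro h; exact h.trans hadj.reachable
  · intro h; exact h.trans hadj.symm.reachable

/-- the involution -/
noncomputable def Phi (p : Cfg t × (Fin t → Bool → Bool) × (Bool → Node t)) :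
    Cfg t × (Fin t → Bool → Bool) × (Bool → Node t) :=
  (nw (XX p.1 p.2.1 (p.2.2 true).1) p.1, nb (XX p.1 p.2.1 (p.2.2 true).1) p.2.1,
    fun τ => psi (XX p.1 p.2.1 (p.2.2 true).1) (p.2.2 τ))

lemma Phi_Phi (p : Cfg t × (Fin t → Bool → Bool) × (Bool → Node t)) : Phi (Phi p) = p := by
  obtain ⟨ω, b, u⟩ := p
  have hX : XX (Phi (ω, b, u)).1 (Phi (ω, b, u)).2.1 ((Phi (ω, b, u)).2.2 true).1 =
      XX ω b (u true).1 := by
    show XX (nw (XX ω b (u true).1) ω) (nb (XX ω b (u true).1) b) (u true).1 = _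
    unfold XX
    rw [og_nw]
  unfold Phi at hX ⊢
  simp only at hX ⊢
  rw [hX, nw_nw, nb_nb]
  simp only [psi_psi]

lemma sg_not (r : Bool) : sg (!r) = - sg r := by cases r <;> simp [sg]

end GAUx

open GAUx in
theorem tGAU (hIA : StmIA) (hMN : StmMN) : StmGAU := by
  intro h hg θ t
  set F : Cfg t × (Fin t → Bool → Bool) × (Bool → Node t) → ℝ := fun p =>
    nu θ p.1 p.2.1 * ((sg (p.2.2 true).2 * sg (p.2.2 false).2 -
      ck p.1 p.2.1 (p.2.2 true) (p.2.2 false)) * ev2 h p.1 p.2.2) with hF
  have hneg : ∀ p, F (Phi p) = - F p := by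
    rintro ⟨ω, b, u⟩
    by_cases hr : (og ω b).Reachable (u true).1 (u false).1
    · have h1 : F (ω, b, u) = 0 := by
        simp only [hF, ck, if_pos hr, sub_self, zero_mul, mul_zero]
      have h2 : F (Phi (ω, b, u)) = 0 := by
        have hr' : (og (Phi (ω, b, u)).1 (Phi (ω, b, u)).2.1).Reachable
            ((Phi (ω, b, u)).2.2 true).1 ((Phi (ω, b, u)).2.2 false).1 := by
          show (og (nw (XX ω b (u true).1) ω) (nb (XX ω b (u true).1) b)).Reachable
            (u true).1 (u false).1
          rw [og_nw]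
          exact hr
        simp only [hF, ck, if_pos hr', sub_self, zero_mul, mul_zero]
      rw [h1, h2, neg_zero]
    · have hr' : ¬ (og (Phi (ω, b, u)).1 (Phi (ω, b, u)).2.1).Reachable
          ((Phi (ω, b, u)).2.2 true).1 ((Phi (ω, b, u)).2.2 false).1 := by
        show ¬ (og (nw (XX ω b (u true).1) ω) (nb (XX ω b (u true).1) b)).Reachable
          (u true).1 (u false).1
        rw [og_nw]
        exact hr
      have hXt : XX ω b (u true).1 (u true).1 = true := by
        unfold XX
        exact decide_eq_true (SimpleGraph.Reachable.refl _)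
      have hXf : XX ω b (u true).1 (u false).1 = false := by
        unfold XX
        exact decide_eq_false hr
      have e1 : sg ((Phi (ω, b, u)).2.2 true).2 = - sg (u true).2 := by
        show sg (xor (XX ω b (u true).1 (u true).1) (u true).2) = _
        rw [hXt, Bool.true_xor, sg_not]
      have e2 : sg ((Phi (ω, b, u)).2.2 false).2 = sg (u false).2 := by
        show sg (xor (XX ω b (u true).1 (u false).1) (u false).2) = _
        rw [hXf, Bool.false_xor]
      have e3 : nu θ (Phi (ω, b, u)).1 (Phi (ω, b, u)).2.1 = nu θ ω b :=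
        nu_nw θ _ ω b (fun k τ hb => XX_open ω b _ k τ hb)
      have e4 : ev2 h (Phi (ω, b, u)).1 (Phi (ω, b, u)).2.2 = ev2 h ω u :=
        ev2_nw hIA h hg _ ω u
      simp only [hF, ck, if_neg hr, if_neg hr', e1, e2, e3, e4]
      ring
  have hsum : ∑ p, F p = 0 := by
    have h1 : ∑ p, F (Phi p) = ∑ p, F p :=
      Equiv.sum_comp (Function.Involutive.toPerm Phi Phi_Phi) F
    simp only [hneg, Finset.sum_neg_distrib] at h1
    linarith
  have hexp : ∑ p, F p = ∑ ω : Cfg t, ∑ b : Fin t → Bool → Bool, nu θ ω b *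
      ∑ u : Bool → Node t, ((sg (u true).2 * sg (u false).2 - ck ω b (u true) (u false)) *
        ev2 h ω u) := by
    rw [Fintype.sum_prod_type]
    apply Finset.sum_congr rfl
    intro ω _
    rw [Fintype.sum_prod_type]
    apply Finset.sum_congr rfl
    intro b _
    rw [Finset.mul_sum]
  rw [hsum] at hexp
  have hL : ∑ ω : Cfg t, mu θ ω * ∑ u : Bool → Node t,
      sg (u true).2 * sg (u false).2 * ev2 h ω u =
      ∑ ω : Cfg t, ∑ b : Fin t → Bool → Bool, nu θ ω b * ∑ u : Bool → Node t,
        sg (u true).2 * sg (u false).2 * ev2 h ω u := by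
    apply Finset.sum_congr rfl
    intro ω _
    rw [hMN θ t ω, Finset.sum_mul]
  rw [hL, ← sub_eq_zero, ← Finset.sum_sub_distrib]
  rw [hexp]
  apply Finset.sum_congr rfl
  intro ω _
  rw [← Finset.sum_sub_distrib]
  apply Finset.sum_congr rfl
  intro b _
  rw [← mul_sub, ← Finset.sum_sub_distrib]
  congr 1
  apply Finset.sum_congr rfl
  intro u _
  ring

end Pool.Agent.T6.H1.CT
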