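import Pool.Agent.T6.H1.CT.Defs

set_option autoImplicit false

namespace Pool.Agent.T6.H1.CT

open Classical

theorem tIA : StmIA := by
  intro α β ι κ G H e f z z' hz
  have hadj : ∀ v w, (att H z').Adj (Sum.map e f v) (Sum.map e f w) ↔ (att G z).Adj v w := by
    have hinj : Function.Injective (Sum.map e f : α ⊕ ι → β ⊕ κ) :=
      Sum.map_injective.2 ⟨e.injective, f.injective⟩
    intro v w
    unfold att
    rw [SimpleGraph.fromRel_adj, SimpleGraph.fromRel_adj]
    have key : ∀ v w : α ⊕ ι, ((∃ a b, H.Adj a b ∧ Sum.map e f v = Sum.inl a ∧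
        Sum.map e f w = Sum.inl b) ∨ ∃ i, Sum.map e f v = Sum.inr i ∧ Sum.map e f w = z' i) ↔
        ((∃ a b, G.Adj a b ∧ v = Sum.inl a ∧ w = Sum.inl b) ∨ ∃ i, v = Sum.inr i ∧ w = z i) := by
      intro v w
      constructor
      · rintro (⟨a, b, hab, h1, h2⟩ | ⟨i, h1, h2⟩)
        · left
          rcases v with v | v
          · rcases w with w | w
            · simp only [Sum.map_inl, Sum.inl.injEq] at h1 h2
              refine ⟨v, w, ?_, rfl, rfl⟩
              rw [← h1, ← h2] at hab
              exact e.map_rel_iff.1 hab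
            · simp at h2
          · simp at h1
        · right
          rcases v with v | v
          · simp at h1
          · refine ⟨v, rfl, ?_⟩
            simp only [Sum.map_inr, Sum.inr.injEq] at h1
            apply hinj
            rw [h2, ← h1, hz]
      · rintro (⟨a, b, hab, rfl, rfl⟩ | ⟨i, rfl, rfl⟩)
        · left
          exact ⟨e a, e b, e.map_rel_iff.2 hab, rfl, rfl⟩
        · right
          exact ⟨f i, rfl, (hz i).symm⟩
    rw [key v w, key w v, hinj.ne_iff]
  refine ⟨⟨Equiv.sumCongr e.toEquiv f, ?_⟩, fun a => rfl, fun i => rfl⟩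
  intro v w
  exact hadj v w

end Pool.Agent.T6.H1.CT
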