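import Pool.Agent.T6.H1.CT.Defs

set_option autoImplicit false

namespace Pool.Agent.T6.H1.CT

open Classical

/-! ## Total variation bound -/

theorem tTV (hTEL : StmTEL) (hONE : StmONE) (hNUM : StmNUM) : StmTV := by
  obtain ⟨C, hC⟩ := hNUM
  refine ⟨C, fun θ h0 h1 m h hh => ?_⟩
  rw [hTEL h hh θ m]
  refine (Finset.abs_sum_le_sum_abs _ _).trans ?_
  calc ∑ t ∈ Finset.range m, |(- θ ^ 2) * ∑ ω : Cfg t, mu θ ω *
      ((∑ u : Bool → Node t, sg (u true).2 * sg (u false).2 * ev2 (step^[m - 1 - t] h) ω u) /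
        (2 * ((t : ℝ) + 1)) ^ 2)| ≤ ∑ t ∈ Finset.range m, θ ^ 2 * bd m t := by
        apply Finset.sum_le_sum
        intro t ht
        rw [abs_mul, abs_neg, abs_of_nonneg (sq_nonneg θ)]
        exact mul_le_mul_of_nonneg_left (hONE h hh θ h0 h1 m t (Finset.mem_range.1 ht))
          (sq_nonneg θ)
    _ = θ ^ 2 * ∑ t ∈ Finset.range m, bd m t := by rw [Finset.mul_sum]
    _ ≤ θ ^ 2 * C := mul_le_mul_of_nonneg_left (hC m) (sq_nonneg θ)
    _ = C * θ ^ 2 := mul_comm _ _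

/-! ## The law and events -/

theorem law_eq (q : ℝ) {m : ℕ} (ω : Cfg m) : law q ω = mu (1 - 2 * q) ω := by
  unfold law mu
  refine Finset.prod_congr rfl fun k _ => Finset.prod_congr rfl fun τ _ => ?_
  have hk : ((k.val : ℝ) + 1) ≠ 0 := by positivity
  by_cases h : (ω k τ).2 = τ
  · rw [if_pos h, h]
    have : sg τ * sg τ = 1 := by cases τ <;> simp [sg]
    field_simp
    linear_combination (1 - 2 * q) * (-this)
  · rw [if_neg h]
    have : sg τ * sg (ω k τ).2 = -1 := by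
      revert h
      cases τ <;> cases (ω k _).2 <;> simp [sg]
    field_simp
    linear_combination (1 - 2 * q) * (-this)

/-- the functional of an invariant event -/
noncomputable def hS {m : ℕ} (S : Set (Cfg m)) : Func := fun α G ρ =>
  if ∃ ω ∈ S, ∃ e : tree ω ≃g G, ∀ v, e v ∈ ρ ↔ v ∈ rt m then 1 else 0

theorem hS_good {m : ℕ} (S : Set (Cfg m)) : Good (hS S) := by
  refine ⟨fun _ G ρ => ?_, fun _ _ G H ρ σ e he => ?_⟩
  · unfold hS; split_ifs <;> norm_num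
  · unfold hS
    have : (∃ ω ∈ S, ∃ e : tree ω ≃g G, ∀ v, e v ∈ ρ ↔ v ∈ rt m) ↔
        (∃ ω ∈ S, ∃ e : tree ω ≃g H, ∀ v, e v ∈ σ ↔ v ∈ rt m) := by
      constructor
      · rintro ⟨ω, hω, f, hf⟩
        refine ⟨ω, hω, f.trans e, fun v => ?_⟩
        rw [RelIso.trans_apply, he, hf]
      · rintro ⟨ω, hω, f, hf⟩
        refine ⟨ω, hω, f.trans e.symm, fun v => ?_⟩
        rw [RelIso.trans_apply, ← hf, ← he]
        simp
    simp only [this]

theorem hS_ev {m : ℕ} (S : Set (Cfg m)) (hinv : ∀ ω ω', RIso ω ω' → (ω ∈ S ↔ ω' ∈ S))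
    (ω : Cfg m) : ev (hS S) ω = if ω ∈ S then 1 else 0 := by
  unfold ev hS
  have : (∃ ω' ∈ S, ∃ e : tree ω' ≃g tree ω, ∀ v, e v ∈ rt m ↔ v ∈ rt m) ↔ ω ∈ S := by
    constructor
    · rintro ⟨ω', hω', e, he⟩
      exact (hinv ω' ω ⟨e, he⟩).1 hω'
    · intro h
      exact ⟨ω, h, RelIso.refl _, fun v => Iff.rfl⟩
  simp only [this]

theorem prob_eq (q : ℝ) {m : ℕ} (S : Set (Cfg m)) (hinv : ∀ ω ω', RIso ω ω' → (ω ∈ S ↔ ω' ∈ S)) :
    prob q S = ∑ ω : Cfg m, mu (1 - 2 * q) ω * ev (hS S) ω := by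
  unfold prob
  refine Finset.sum_congr rfl fun ω _ => ?_
  rw [hS_ev S hinv, law_eq]
  split_ifs <;> simp

theorem tvb (hTV : StmTV) : ∃ C : ℝ, ∀ q ∈ Set.Icc (23 / 48 : ℝ) (1 / 2), ∀ (m : ℕ)
    (S : Set (Cfg m)), (∀ ω ω', RIso ω ω' → (ω ∈ S ↔ ω' ∈ S)) →
      |prob q S - prob (1 / 2) S| ≤ C * (1 - 2 * q) ^ 2 := by
  obtain ⟨C, hC⟩ := hTV
  refine ⟨C, fun q hq m S hS' => ?_⟩
  rw [prob_eq q S hS', prob_eq (1 / 2) S hS']
  have := hC (1 - 2 * q) (by linarith [hq.2]) (by linarith [hq.1]) m (hS S) (hS_good S)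
  norm_num at this ⊢
  exact this

/-! ## Estimators -/

theorem law_nonneg (q : ℝ) (h0 : 0 ≤ q) (h1 : q ≤ 1) {m : ℕ} (ω : Cfg m) : 0 ≤ law q ω := by
  unfold law
  refine Finset.prod_nonneg fun k _ => Finset.prod_nonneg fun τ _ => ?_
  split_ifs
  · exact div_nonneg (by linarith) (by positivity)
  · exact div_nonneg h0 (by positivity)

theorem prob_mono (q : ℝ) (h0 : 0 ≤ q) (h1 : q ≤ 1) {m : ℕ} {S S' : Set (Cfg m)} (h : S ⊆ S') :
    prob q S ≤ prob q S' := by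
  unfold prob
  refine Finset.sum_le_sum fun ω _ => ?_
  by_cases hω : ω ∈ S
  · rw [if_pos hω, if_pos (h hω)]
  · rw [if_neg hω]
    split_ifs
    · exact law_nonneg q h0 h1 ω
    · exact le_rfl

theorem law_sum (q : ℝ) (m : ℕ) : ∑ ω : Cfg m, law q ω = 1 := by
  unfold law
  have h1 : ∀ k : Fin m, ∑ x : Bool → Fin (k.val + 1) × Bool,
      ∏ τ : Bool, (if (x τ).2 = τ then 1 - q else q) / ((k.val : ℝ) + 1) = 1 := by
    intro k
    rw [← Fintype.prod_sum (fun (τ : Bool) (x : Fin (k.val + 1) × Bool) =>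
      (if x.2 = τ then 1 - q else q) / ((k.val : ℝ) + 1))]
    refine Finset.prod_eq_one fun τ _ => ?_
    rw [Fintype.sum_prod_type]
    have hk : ((k.val : ℝ) + 1) ≠ 0 := by positivity
    have h2 : ∀ a : Fin (k.val + 1), ∑ b : Bool, (if ((a, b) : Fin (k.val + 1) × Bool).2 = τ
        then 1 - q else q) / ((k.val : ℝ) + 1) = 1 / ((k.val : ℝ) + 1) := by
      intro a
      rw [Fintype.sum_bool]
      cases τ <;> simp <;> ring
    rw [Finset.sum_congr rfl fun a _ => h2 a, Finset.sum_const, Finset.card_univ,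
      Fintype.card_fin, nsmul_eq_mul]
    push_cast
    field_simp
  rw [← Fintype.prod_sum (fun (k : Fin m) (x : Bool → Fin (k.val + 1) × Bool) =>
      ∏ τ : Bool, (if (x τ).2 = τ then 1 - q else q) / ((k.val : ℝ) + 1))]
  exact Finset.prod_eq_one fun k _ => h1 k

theorem prob_compl (q : ℝ) {m : ℕ} (S : Set (Cfg m)) : prob q Sᶜ = 1 - prob q S := by
  unfold prob
  rw [eq_sub_iff_add_eq, ← Finset.sum_add_distrib, ← law_sum q m]
  refine Finset.sum_congr rfl fun ω _ => ?_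
  by_cases hω : ω ∈ S <;> simp [hω]

theorem no_est (hTV : StmTV) : ¬ ∃ f : (m : ℕ) → Cfg m → ℝ,
    (∀ (m : ℕ) (ω ω' : Cfg m), RIso ω ω' → f m ω = f m ω') ∧ Cons f := by
  rintro ⟨f, hf, hc⟩
  obtain ⟨C, hC⟩ := tvb hTV
  -- choose the second parameter
  set D : ℝ := |C| + 1 with hD
  have hDpos : 0 < D := by positivity
  have hD1 : 1 ≤ D := by rw [hD]; linarith [abs_nonneg C]
  set θ : ℝ := 1 / (24 * D) with hθ
  have hθpos : 0 < θ := by positivity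
  have hθ24 : θ ≤ 1 / 24 := by
    rw [hθ]
    apply one_div_le_one_div_of_le (by norm_num)
    nlinarith
  have hCθ : C * θ ^ 2 ≤ 1 / 4 := by
    have h1 : C ≤ D := by rw [hD]; linarith [le_abs_self C]
    have h2 : C * θ ^ 2 ≤ D * θ ^ 2 := mul_le_mul_of_nonneg_right h1 (sq_nonneg θ)
    have h3 : D * θ = 1 / 24 := by rw [hθ]; field_simp
    calc C * θ ^ 2 ≤ D * θ ^ 2 := h2
      _ = (D * θ) * θ := by ring
      _ ≤ 1 / 4 := by rw [h3]; nlinarith
  set q : ℝ := (1 - θ) / 2 with hq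
  have hq1 : q ∈ Set.Icc (23 / 48 : ℝ) (1 / 2) := ⟨by rw [hq]; linarith, by rw [hq]; linarith⟩
  have hq2 : q ∈ Set.Icc (0 : ℝ) (1 / 2) := ⟨by linarith [hq1.1], hq1.2⟩
  have hq3 : 1 - 2 * q = θ := by rw [hq]; ring
  have e1 := hc q hq2 (θ / 8) (by positivity)
  have e2 := hc (1 / 2) ⟨by norm_num, le_rfl⟩ (θ / 8) (by positivity)
  have e3 := (e1.eventually (gt_mem_nhds (show (0 : ℝ) < 1 / 4 by norm_num))).and
    (e2.eventually (gt_mem_nhds (show (0 : ℝ) < 1 / 4 by norm_num)))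
  obtain ⟨m, hm1, hm2⟩ := e3.exists
  have hb := hC q hq1 m {ω : Cfg m | θ / 8 < |f m ω - 1 / 2|} (by
    intro ω ω' h
    simp only [Set.mem_ofPred_eq, hf m ω ω' h])
  rw [hq3] at hb
  have hb' : prob q {ω : Cfg m | θ / 8 < |f m ω - 1 / 2|} ≤ 1 / 2 := by
    have := (abs_le.1 (hb.trans hCθ)).2
    linarith
  have hsub : {ω : Cfg m | θ / 8 < |f m ω - 1 / 2|}ᶜ ⊆ {ω : Cfg m | θ / 8 < |f m ω - q|} := by
    intro ω hω
    simp only [Set.mem_compl_iff, Set.mem_ofPred_eq, not_lt] at hω ⊢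
    have h1 : (1 / 2 : ℝ) - q = θ / 2 := by rw [hq]; ring
    have h2 : |(1 / 2 : ℝ) - q| ≤ |f m ω - q| + |f m ω - 1 / 2| := by
      have : (1 / 2 : ℝ) - q = (f m ω - q) - (f m ω - 1 / 2) := by ring
      rw [this]
      exact abs_sub _ _
    rw [h1, abs_of_pos (by positivity)] at h2
    linarith
  have h3 := prob_mono q (by linarith [hq1.1]) (by linarith [hq1.2]) hsub
  rw [prob_compl] at h3
  linarith

theorem tMAIN (hTV : StmTV) : StmMAIN := by
  refine ⟨tvb hTV, no_est hTV, ?_⟩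
  rintro ⟨f, hf, hc⟩
  exact no_est hTV ⟨f, fun m ω ω' h => hf m ω ω' (by obtain ⟨φ, _⟩ := h; exact ⟨φ⟩), hc⟩

end Pool.Agent.T6.H1.CT
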