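import Pool.Agent.T6.H1.CT.Defs

set_option autoImplicit false

namespace Pool.Agent.T6.H1.CT

open Classical

theorem nm_prod_sum {κ : Type} [Fintype κ] [DecidableEq κ] {δ : κ → Type} [∀ k, Fintype (δ k)]
    [∀ k, DecidableEq (δ k)]
    (f : (k : κ) → δ k → ℝ) : ∑ x : (k : κ) → δ k, ∏ k, f k (x k) = ∏ k, ∑ y, f k y := by
  rw [Finset.prod_univ_sum, Fintype.piFinset_univ]

theorem tMN : StmMN := by
  intro θ t ω
  unfold mu nu
  rw [nm_prod_sum (fun (k : Fin t) (c : Bool → Bool) => ∏ τ : Bool, (if c τ = true then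
    (if (ω k τ).2 = τ then θ / ((k.val : ℝ) + 1) else 0) else (1 - θ) / (2 * ((k.val : ℝ) + 1))))]
  refine Finset.prod_congr rfl fun k _ => ?_
  rw [nm_prod_sum (fun (τ : Bool) (β : Bool) => (if β = true then
    (if (ω k τ).2 = τ then θ / ((k.val : ℝ) + 1) else 0) else (1 - θ) / (2 * ((k.val : ℝ) + 1))))]
  refine Finset.prod_congr rfl fun τ _ => ?_
  have hk : ((k.val : ℝ) + 1) ≠ 0 := by positivity
  rw [Fintype.sum_bool]
  generalize (ω k τ).2 = ρ
  cases τ <;> cases ρ <;> simp [sg] <;> field_simp <;> ring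

theorem tNU : StmNU := by
  intro θ h0 h1 t
  constructor
  · intro ω b
    unfold nu
    refine Finset.prod_nonneg fun k _ => Finset.prod_nonneg fun τ _ => ?_
    have h2 : 0 ≤ 1 - θ := by linarith
    split_ifs <;> positivity
  · have h2 : ∑ ω : Cfg t, ∑ b : Fin t → Bool → Bool, nu θ ω b = ∑ ω : Cfg t, mu θ ω :=
      Finset.sum_congr rfl fun ω _ => (tMN θ t ω).symm
    rw [h2]
    unfold mu
    rw [nm_prod_sum (fun (k : Fin t) (c : Bool → Fin (k.val + 1) × Bool) =>
      ∏ τ : Bool, (1 + θ * sg τ * sg (c τ).2) / (2 * ((k.val : ℝ) + 1)))]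
    refine Finset.prod_eq_one fun k _ => ?_
    rw [nm_prod_sum (fun (τ : Bool) (β : Fin (k.val + 1) × Bool) =>
      (1 + θ * sg τ * sg β.2) / (2 * ((k.val : ℝ) + 1)))]
    refine Finset.prod_eq_one fun τ _ => ?_
    have hk : ((k.val : ℝ) + 1) ≠ 0 := by positivity
    rw [Fintype.sum_prod_type]
    simp only [Fintype.sum_bool]
    rw [Finset.sum_const, Finset.card_univ, Fintype.card_fin, nsmul_eq_mul]
    unfold sg
    push_cast
    simp
    field_simp
    ring

end Pool.Agent.T6.H1.CT
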