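import Pool.Agent.T6.H1.CT.Defs

/-!
# Project CT, module NUM: the sum of the bounds
-/

set_option autoImplicit false

namespace Pool.Agent.T6.H1.CT

open Classical

theorem num_sq (n : ℕ) (hn : 1 ≤ n) : 1 ≤ Nat.sqrt (Nat.sqrt n) ∧
    (Nat.sqrt (Nat.sqrt n)) ^ 4 ≤ n ∧ n < (Nat.sqrt (Nat.sqrt n) + 1) ^ 4 := by
  have h0 : 0 < Nat.sqrt (Nat.sqrt n) := Nat.sqrt_pos.2 (Nat.sqrt_pos.2 hn)
  have a1 := Nat.sqrt_le' n
  have a2 := Nat.lt_succ_sqrt' n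
  have a3 := Nat.sqrt_le' (Nat.sqrt n)
  have a4 := Nat.lt_succ_sqrt' (Nat.sqrt n)
  refine ⟨h0, ?_, ?_⟩
  · calc (Nat.sqrt (Nat.sqrt n)) ^ 4 = ((Nat.sqrt (Nat.sqrt n)) ^ 2) ^ 2 := by ring
      _ ≤ (Nat.sqrt n) ^ 2 := Nat.pow_le_pow_left a3 2
      _ ≤ n := a1
  · calc n < (Nat.sqrt n).succ ^ 2 := a2
      _ ≤ ((Nat.sqrt (Nat.sqrt n)).succ ^ 2) ^ 2 := Nat.pow_le_pow_left a4 2
      _ = (Nat.sqrt (Nat.sqrt n) + 1) ^ 4 := by rw [← pow_mul]

/-- the first branch -/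
noncomputable def nb (t : ℕ) : ℝ :=
  Real.sqrt (8 / (((t : ℝ) + 1) * ((js t : ℝ) * ((js t : ℝ) + 1)))) +
      24 * (js t : ℝ) / ((t : ℝ) + 1) ^ 2

theorem num_first (t : ℕ) : nb t ≤ 864 * (1 / ((t + 1 : ℕ) : ℝ) ^ (5 / 4 : ℝ)) := by
  obtain ⟨h1, h2, h3⟩ := num_sq (t + 1) (by omega)
  unfold nb js
  set s : ℕ := Nat.sqrt (Nat.sqrt (t + 1)) with hs
  have s1 : (1 : ℝ) ≤ (s : ℝ) := by exact_mod_cast h1
  have s0 : (0 : ℝ) < (s : ℝ) := by linarith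
  have n1 : (s : ℝ) ^ 4 ≤ (t : ℝ) + 1 := by exact_mod_cast h2
  have n2 : (t : ℝ) + 1 ≤ ((s : ℝ) + 1) ^ 4 := by exact_mod_cast h3.le
  have t0 : (0 : ℝ) < (t : ℝ) + 1 := by positivity
  push_cast
  have b1 : Real.sqrt (8 / (((t : ℝ) + 1) * ((s : ℝ) ^ 3 * ((s : ℝ) ^ 3 + 1)))) ≤
      3 / (s : ℝ) ^ 5 := by
    rw [Real.sqrt_le_iff]
    refine ⟨by positivity, ?_⟩
    have hP : (s : ℝ) ^ 10 ≤ ((t : ℝ) + 1) * ((s : ℝ) ^ 3 * ((s : ℝ) ^ 3 + 1)) := by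
      have e : (s : ℝ) ^ 10 = (s : ℝ) ^ 4 * ((s : ℝ) ^ 3 * (s : ℝ) ^ 3) := by ring
      rw [e]
      refine mul_le_mul n1 ?_ (by positivity) t0.le
      refine mul_le_mul_of_nonneg_left ?_ (by positivity)
      linarith
    have e2 : (3 / (s : ℝ) ^ 5) ^ 2 = 9 / (s : ℝ) ^ 10 := by
      rw [div_pow, ← pow_mul]
      norm_num
    rw [e2]
    have p10 : (0 : ℝ) < (s : ℝ) ^ 10 := by positivity
    exact div_le_div₀ (by norm_num) (by norm_num) p10 hP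
  have b2 : 24 * (s : ℝ) ^ 3 / ((t : ℝ) + 1) ^ 2 ≤ 24 / (s : ℝ) ^ 5 := by
    have p8 : ((s : ℝ) ^ 4) ^ 2 ≤ ((t : ℝ) + 1) ^ 2 := pow_le_pow_left₀ (by positivity) n1 2
    have e : 24 / (s : ℝ) ^ 5 = 24 * (s : ℝ) ^ 3 / ((s : ℝ) ^ 4) ^ 2 := by
      rw [← pow_mul, div_eq_div_iff (by positivity) (by positivity)]
      ring
    rw [e]
    exact div_le_div_of_nonneg_left (by positivity) (by positivity) p8
  have b3 : ((t : ℝ) + 1) ^ (5 / 4 : ℝ) ≤ 32 * (s : ℝ) ^ 5 := by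
    have c1 : (t : ℝ) + 1 ≤ (2 * (s : ℝ)) ^ 4 :=
      n2.trans (pow_le_pow_left₀ (by positivity) (by linarith) 4)
    calc ((t : ℝ) + 1) ^ (5 / 4 : ℝ) ≤ ((2 * (s : ℝ)) ^ 4) ^ (5 / 4 : ℝ) :=
          Real.rpow_le_rpow t0.le c1 (by norm_num)
      _ = (2 * (s : ℝ)) ^ 5 := by
          rw [← Real.rpow_natCast, ← Real.rpow_natCast, ← Real.rpow_mul (by positivity)]
          norm_num
      _ = 32 * (s : ℝ) ^ 5 := by ring
  have b4 : 1 / (s : ℝ) ^ 5 ≤ 32 * (1 / ((t : ℝ) + 1) ^ (5 / 4 : ℝ)) := by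
    rw [mul_one_div, div_le_div_iff₀ (by positivity) (Real.rpow_pos_of_pos t0 _)]
    linarith
  have e3 : 3 / (s : ℝ) ^ 5 = 3 * (1 / (s : ℝ) ^ 5) := by ring
  have e4 : 24 / (s : ℝ) ^ 5 = 24 * (1 / (s : ℝ) ^ 5) := by ring
  rw [e3] at b1
  rw [e4] at b2
  linarith

theorem num_nb_nonneg (t : ℕ) : 0 ≤ nb t := by
  unfold nb
  positivity

theorem num_second (m : ℕ) :
    ∑ t ∈ Finset.range m, (if js t + t + 1 ≤ m then 0 else 4 / ((t : ℝ) + 1)) ≤ 64 := by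
  rcases Nat.lt_or_ge m 16 with hm | hm
  · have h1 : ∀ t ∈ Finset.range m, (if js t + t + 1 ≤ m then 0 else 4 / ((t : ℝ) + 1)) ≤
        (4 : ℝ) := by
      intro t _
      split_ifs
      · norm_num
      · rw [div_le_iff₀ (by positivity)]
        have : (0 : ℝ) ≤ (t : ℝ) := by positivity
        linarith
    refine (Finset.sum_le_sum h1).trans ?_
    rw [Finset.sum_const, Finset.card_range, nsmul_eq_mul]
    have : (m : ℝ) ≤ 16 := by exact_mod_cast hm.le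
    linarith
  · obtain ⟨r1, r2, r3⟩ := num_sq m (by omega)
    set r : ℕ := Nat.sqrt (Nat.sqrt m) with hr
    have hr2 : 2 ≤ r := by
      by_contra hc
      have : r = 1 := by omega
      rw [this] at r3
      norm_num at r3
      omega
    have hr3 : r ^ 3 + r ^ 3 ≤ m := by
      have : r ^ 4 = r * r ^ 3 := by ring
      nlinarith [Nat.zero_le (r ^ 3)]
    rw [Finset.sum_ite, Finset.sum_const_zero, zero_add]
    have hjs : ∀ t, t < m → js t ≤ r ^ 3 := by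
      intro t ht
      unfold js
      exact Nat.pow_le_pow_left (Nat.sqrt_le_sqrt (Nat.sqrt_le_sqrt (by omega))) 3
    have p3 : (0 : ℝ) < (r : ℝ) ^ 3 := by
      have : (0 : ℝ) < (r : ℝ) := by exact_mod_cast (show 0 < r by omega)
      positivity
    have h1 : ∀ t ∈ (Finset.range m).filter (fun t => ¬ (js t + t + 1 ≤ m)),
        4 / ((t : ℝ) + 1) ≤ 4 / (r : ℝ) ^ 3 := by
      intro t ht
      rw [Finset.mem_filter, Finset.mem_range] at ht
      have h2 := hjs t ht.1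
      have h3 : r ^ 3 ≤ t + 1 := by omega
      have h4 : (r : ℝ) ^ 3 ≤ (t : ℝ) + 1 := by exact_mod_cast h3
      exact div_le_div_of_nonneg_left (by norm_num) p3 h4
    refine (Finset.sum_le_sum h1).trans ?_
    rw [Finset.sum_const, nsmul_eq_mul]
    have hcard : ((Finset.range m).filter (fun t => ¬ (js t + t + 1 ≤ m))).card ≤ r ^ 3 := by
      have hsub : (Finset.range m).filter (fun t => ¬ (js t + t + 1 ≤ m)) ⊆
          Finset.Ico (m - r ^ 3) m := by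
        intro t ht
        rw [Finset.mem_filter, Finset.mem_range] at ht
        rw [Finset.mem_Ico]
        have h2 := hjs t ht.1
        omega
      refine (Finset.card_le_card hsub).trans ?_
      rw [Nat.card_Ico]
      omega
    have hcard' : ((((Finset.range m).filter (fun t => ¬ (js t + t + 1 ≤ m))).card : ℕ) : ℝ) ≤
        (r : ℝ) ^ 3 := by exact_mod_cast hcard
    calc _ ≤ (r : ℝ) ^ 3 * (4 / (r : ℝ) ^ 3) :=
          mul_le_mul_of_nonneg_right hcard' (by positivity)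
      _ = 4 := by field_simp
      _ ≤ 64 := by norm_num

theorem tNUM : StmNUM := by
  have hsum : Summable (fun t : ℕ => 1 / ((t + 1 : ℕ) : ℝ) ^ (5 / 4 : ℝ)) :=
    (summable_nat_add_iff 1 (f := fun n : ℕ => 1 / ((n : ℕ) : ℝ) ^ (5 / 4 : ℝ))).2
      (Real.summable_one_div_nat_rpow.2 (by norm_num))
  refine ⟨864 * ∑' t : ℕ, 1 / ((t + 1 : ℕ) : ℝ) ^ (5 / 4 : ℝ) + 64, fun m => ?_⟩
  have h1 : ∀ t ∈ Finset.range m, bd m t ≤ 864 * (1 / ((t + 1 : ℕ) : ℝ) ^ (5 / 4 : ℝ)) +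
      (if js t + t + 1 ≤ m then 0 else 4 / ((t : ℝ) + 1)) := by
    intro t _
    have hb : bd m t = if js t + t + 1 ≤ m then nb t else 4 / ((t : ℝ) + 1) := rfl
    rw [hb]
    split_ifs
    · rw [add_zero]
      exact num_first t
    · have := (num_nb_nonneg t).trans (num_first t)
      linarith
  refine (Finset.sum_le_sum h1).trans ?_
  rw [Finset.sum_add_distrib, ← Finset.mul_sum]
  refine add_le_add ?_ (num_second m)
  refine mul_le_mul_of_nonneg_left ?_ (by norm_num)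
  exact hsum.sum_le_tsum _ (fun t _ => by positivity)

end Pool.Agent.T6.H1.CT
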