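import Pool.Agent.T6.H1.CT.Defs

set_option autoImplicit false

namespace Pool.Agent.T6.H1.CT

open Classical

theorem good_iter (hSTP : StmSTP) (h : Func) (hh : Good h) (n : ℕ) : Good (step^[n] h) := by
  induction n with
  | zero => exact hh
  | succ n ih => rw [Function.iterate_succ_apply']; exact hSTP _ ih

/-- sum over `Bool → α` as a double sum -/
theorem sum_bool_fun {α : Type} [Fintype α] (F : α → α → ℝ) :
    ∑ u : Bool → α, F (u true) (u false) = ∑ a, ∑ b, F a b := by
  rw [← Fintype.sum_prod_type (f := fun p : α × α => F p.1 p.2)]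
  let e : (Bool → α) ≃ α × α :=
    ⟨fun u => (u true, u false), fun p b => if b then p.1 else p.2, fun u => by
      funext b; cases b <;> simp, fun p => by simp⟩
  exact Fintype.sum_equiv e _ _ fun u => rfl

theorem sg_sq (b : Bool) : sg b ^ 2 = 1 := by cases b <;> simp [sg]

theorem abs_sg (b : Bool) : |sg b| = 1 := by cases b <;> simp [sg]

theorem ck_ker {t : ℕ} (ω : Cfg t) (b : Fin t → Bool → Bool) : Ker (ck ω b) := by
  refine ⟨fun u v => ?_, fun u => ?_, fun u v => ?_⟩
  · unfold ck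
    have : (og ω b).Reachable u.1 v.1 ↔ (og ω b).Reachable v.1 u.1 :=
      ⟨fun h => h.symm, fun h => h.symm⟩
    simp only [this, mul_comm (sg u.2)]
  · rw [Fintype.sum_prod_type]
    refine Finset.sum_eq_zero fun s _ => ?_
    rw [Fintype.sum_bool]
    unfold ck
    simp only
    split_ifs
    · simp [sg]
    · simp
  · unfold ck
    split_ifs
    · rw [abs_mul, abs_sg, abs_sg, mul_pow, sg_sq, sg_sq]; norm_num
    · simp

theorem card_node (t : ℕ) : (Fintype.card (Node t) : ℝ) = 2 * ((t : ℝ) + 1) := by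
  simp [Node]; ring

theorem msq_ck {t : ℕ} (ω : Cfg t) (b : Fin t → Bool → Bool) :
    msq (ck ω b) = (∑ a : Fin (t + 1), ∑ a' : Fin (t + 1),
      (if (og ω b).Reachable a a' then (1 : ℝ) else 0)) / ((t : ℝ) + 1) ^ 2 := by
  have h1 : ∑ u : Node t, ∑ v : Node t, ck ω b u v ^ 2 = 4 * ∑ a : Fin (t + 1),
      ∑ a' : Fin (t + 1), (if (og ω b).Reachable a a' then (1 : ℝ) else 0) := by
    rw [Fintype.sum_prod_type, Finset.mul_sum]
    refine Finset.sum_congr rfl fun a _ => ?_
    rw [Fintype.sum_bool, Fintype.sum_prod_type, Fintype.sum_prod_type, Finset.mul_sum,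
      ← Finset.sum_add_distrib]
    refine Finset.sum_congr rfl fun a' _ => ?_
    rw [Fintype.sum_bool, Fintype.sum_bool]
    unfold ck
    simp only
    split_ifs
    · simp only [mul_pow, sg_sq]; norm_num
    · norm_num
  unfold msq
  rw [h1, card_node]
  have ht : ((t : ℝ) + 1) ≠ 0 := by positivity
  field_simp
  ring

theorem msq_nonneg {α : Type} [Fintype α] (c : α → α → ℝ) : 0 ≤ msq c := by
  unfold msq
  positivity

/-- trivial bound -/
theorem triv {α : Type} [Fintype α] (c : α → α → ℝ) (hc : Ker c) (F : (Bool → α) → ℝ)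
    (hF : ∀ u, 0 ≤ F u ∧ F u ≤ 1) :
    |(∑ u : Bool → α, c (u true) (u false) * F u) / (Fintype.card α : ℝ) ^ 2| ≤ msq c := by
  rw [abs_div, abs_of_nonneg (by positivity : (0 : ℝ) ≤ (Fintype.card α : ℝ) ^ 2)]
  unfold msq
  apply div_le_div_of_nonneg_right _ (by positivity)
  refine (Finset.abs_sum_le_sum_abs _ _).trans ?_
  rw [← sum_bool_fun (fun a b => c a b ^ 2)]
  refine Finset.sum_le_sum fun u _ => ?_
  rw [abs_mul, (hc.2.2 _ _).1, abs_of_nonneg (hF u).1]
  exact mul_le_of_le_one_right (sq_nonneg _) (hF u).2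

theorem js_pos (t : ℕ) : 1 ≤ js t := by
  unfold js
  have : 1 ≤ Nat.sqrt (Nat.sqrt (t + 1)) := by
    rw [Nat.le_sqrt]
    simp
    rw [Nat.le_sqrt]
    omega
  exact Nat.one_le_pow _ _ this

theorem tONE (hSTP : StmSTP) (hNU : StmNU) (hGAU : StmGAU) (hCON : StmCON) (hHID : StmHID) :
    StmONE := by
  intro h hh θ h0 h1 m t htm
  set g : Func := step^[m - 1 - t] h with hg
  have hgood : Good g := good_iter hSTP h hh _
  obtain ⟨hnn, hsum⟩ := hNU θ h0 (by linarith) t
  -- rewriting
  have hQ : ∑ ω : Cfg t, mu θ ω *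
      ((∑ u : Bool → Node t, sg (u true).2 * sg (u false).2 * ev2 g ω u) /
        (2 * ((t : ℝ) + 1)) ^ 2) =
      ∑ ω : Cfg t, ∑ b : Fin t → Bool → Bool, nu θ ω b *
        ((∑ u : Bool → Node t, ck ω b (u true) (u false) * ev2 g ω u) /
          (Fintype.card (Node t) : ℝ) ^ 2) := by
    rw [card_node]
    have := hGAU g hgood θ t
    calc _ = (∑ ω : Cfg t, mu θ ω *
        ∑ u : Bool → Node t, sg (u true).2 * sg (u false).2 * ev2 g ω u) /
          (2 * ((t : ℝ) + 1)) ^ 2 := by
          rw [Finset.sum_div]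
          exact Finset.sum_congr rfl fun ω _ => (mul_div_assoc _ _ _).symm
      _ = _ := by
          rw [this, Finset.sum_div]
          refine Finset.sum_congr rfl fun ω _ => ?_
          rw [Finset.sum_div]
          exact Finset.sum_congr rfl fun b _ => mul_div_assoc _ _ _
  rw [hQ]
  -- mean of msq
  have hmean : ∑ ω : Cfg t, ∑ b : Fin t → Bool → Bool, nu θ ω b * msq (ck ω b) ≤
      4 / ((t : ℝ) + 1) := by
    have hc := hCON θ h0 h1 t
    have : ∑ ω : Cfg t, ∑ b : Fin t → Bool → Bool, nu θ ω b * msq (ck ω b) =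
        (∑ ω : Cfg t, ∑ b : Fin t → Bool → Bool, nu θ ω b *
          ∑ a : Fin (t + 1), ∑ a' : Fin (t + 1),
            (if (og ω b).Reachable a a' then (1 : ℝ) else 0)) / ((t : ℝ) + 1) ^ 2 := by
      rw [Finset.sum_div]
      refine Finset.sum_congr rfl fun ω _ => ?_
      rw [Finset.sum_div]
      refine Finset.sum_congr rfl fun b _ => ?_
      rw [msq_ck, mul_div_assoc]
    rw [this]
    have ht : (0 : ℝ) < (t : ℝ) + 1 := by positivity
    calc _ ≤ 4 * ((t : ℝ) + 1) / ((t : ℝ) + 1) ^ 2 :=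
          div_le_div_of_nonneg_right hc (by positivity)
      _ = 4 / ((t : ℝ) + 1) := by field_simp
  have hev : ∀ (ω : Cfg t) (u : Bool → Node t), 0 ≤ ev2 g ω u ∧ ev2 g ω u ≤ 1 :=
    fun ω u => hgood.1 _ _ _
  have habs : |∑ ω : Cfg t, ∑ b : Fin t → Bool → Bool, nu θ ω b *
        ((∑ u : Bool → Node t, ck ω b (u true) (u false) * ev2 g ω u) /
          (Fintype.card (Node t) : ℝ) ^ 2)| ≤
      ∑ ω : Cfg t, ∑ b : Fin t → Bool → Bool, nu θ ω b *
        |(∑ u : Bool → Node t, ck ω b (u true) (u false) * ev2 g ω u) /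
          (Fintype.card (Node t) : ℝ) ^ 2| := by
    refine (Finset.abs_sum_le_sum_abs _ _).trans (Finset.sum_le_sum fun ω _ => ?_)
    refine (Finset.abs_sum_le_sum_abs _ _).trans (Finset.sum_le_sum fun b _ => ?_)
    rw [abs_mul, abs_of_nonneg (hnn ω b)]
  refine habs.trans ?_
  unfold bd
  split_ifs with hj
  · -- hiding
    set j := js t with hjdef
    have hj1 : 1 ≤ j := js_pos t
    have hsplit : g = step^[j] (step^[m - 1 - t - j] h) := by
      rw [hg, ← Function.iterate_add_apply]
      congr 1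
      omega
    have hgood' : Good (step^[m - 1 - t - j] h) := good_iter hSTP h hh _
    have hN : (0 : ℝ) < (t : ℝ) + 1 := by positivity
    have hjR : (0 : ℝ) < (j : ℝ) := by exact_mod_cast hj1
    set A : ℝ := (j : ℝ) * ((j : ℝ) + 1) with hA
    have hApos : 0 < A := by positivity
    have hin : ∀ (ω : Cfg t) (b : Fin t → Bool → Bool),
        |(∑ u : Bool → Node t, ck ω b (u true) (u false) * ev2 g ω u) /
          (Fintype.card (Node t) : ℝ) ^ 2| ≤
        Real.sqrt (2 * msq (ck ω b) / A) + 12 * (j : ℝ) / (2 * ((t : ℝ) + 1)) * msq (ck ω b) := by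
      intro ω b
      have := hHID (step^[m - 1 - t - j] h) hgood' (Node t) (tree ω) (rt t) (ck ω b)
        (ck_ker ω b) j hj1
      rw [← hsplit] at this
      have h2 := this
      rw [← card_node]
      exact h2
    calc ∑ ω : Cfg t, ∑ b : Fin t → Bool → Bool, nu θ ω b *
        |(∑ u : Bool → Node t, ck ω b (u true) (u false) * ev2 g ω u) /
          (Fintype.card (Node t) : ℝ) ^ 2|
        ≤ ∑ ω : Cfg t, ∑ b : Fin t → Bool → Bool, (nu θ ω b * Real.sqrt (2 * msq (ck ω b) / A) +
          12 * (j : ℝ) / (2 * ((t : ℝ) + 1)) * (nu θ ω b * msq (ck ω b))) := by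
          refine Finset.sum_le_sum fun ω _ => Finset.sum_le_sum fun b _ => ?_
          calc _ ≤ nu θ ω b * (Real.sqrt (2 * msq (ck ω b) / A) +
              12 * (j : ℝ) / (2 * ((t : ℝ) + 1)) * msq (ck ω b)) :=
                mul_le_mul_of_nonneg_left (hin ω b) (hnn ω b)
            _ = _ := by ring
      _ = ∑ ω : Cfg t, ∑ b : Fin t → Bool → Bool, nu θ ω b * Real.sqrt (2 * msq (ck ω b) / A) +
          12 * (j : ℝ) / (2 * ((t : ℝ) + 1)) *
            ∑ ω : Cfg t, ∑ b : Fin t → Bool → Bool, nu θ ω b * msq (ck ω b) := by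
          simp only [Finset.sum_add_distrib, Finset.mul_sum]
      _ ≤ Real.sqrt (8 / (((t : ℝ) + 1) * A)) + 12 * (j : ℝ) / (2 * ((t : ℝ) + 1)) *
            (4 / ((t : ℝ) + 1)) := by
          refine add_le_add ?_ (mul_le_mul_of_nonneg_left hmean (by positivity))
          -- Cauchy-Schwarz
          have hcs : (∑ x : Cfg t × (Fin t → Bool → Bool),
              Real.sqrt (nu θ x.1 x.2) * Real.sqrt (nu θ x.1 x.2 * (2 * msq (ck x.1 x.2) / A))) ^ 2
              ≤ (∑ x : Cfg t × (Fin t → Bool → Bool), Real.sqrt (nu θ x.1 x.2) ^ 2) *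
              ∑ x : Cfg t × (Fin t → Bool → Bool),
                Real.sqrt (nu θ x.1 x.2 * (2 * msq (ck x.1 x.2) / A)) ^ 2 :=
            Finset.sum_mul_sq_le_sq_mul_sq _ _ _
          have hterm : ∀ (ω : Cfg t) (b : Fin t → Bool → Bool),
              0 ≤ nu θ ω b * (2 * msq (ck ω b) / A) := fun ω b =>
            mul_nonneg (hnn ω b) (div_nonneg (mul_nonneg (by norm_num) (msq_nonneg _)) hApos.le)
          have e1 : ∑ x : Cfg t × (Fin t → Bool → Bool), Real.sqrt (nu θ x.1 x.2) ^ 2 = 1 := by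
            rw [Fintype.sum_prod_type, ← hsum]
            exact Finset.sum_congr rfl fun ω _ => Finset.sum_congr rfl fun b _ =>
              Real.sq_sqrt (hnn ω b)
          have e2 : ∑ x : Cfg t × (Fin t → Bool → Bool),
                Real.sqrt (nu θ x.1 x.2 * (2 * msq (ck x.1 x.2) / A)) ^ 2 =
              2 / A * ∑ ω : Cfg t, ∑ b : Fin t → Bool → Bool, nu θ ω b * msq (ck ω b) := by
            rw [Fintype.sum_prod_type, Finset.mul_sum]
            refine Finset.sum_congr rfl fun ω _ => ?_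
            rw [Finset.mul_sum]
            refine Finset.sum_congr rfl fun b _ => ?_
            rw [Real.sq_sqrt (hterm ω b)]
            ring
          have e3 : ∑ x : Cfg t × (Fin t → Bool → Bool),
              Real.sqrt (nu θ x.1 x.2) * Real.sqrt (nu θ x.1 x.2 * (2 * msq (ck x.1 x.2) / A)) =
              ∑ ω : Cfg t, ∑ b : Fin t → Bool → Bool,
                nu θ ω b * Real.sqrt (2 * msq (ck ω b) / A) := by
            rw [Fintype.sum_prod_type]
            refine Finset.sum_congr rfl fun ω _ => Finset.sum_congr rfl fun b _ => ?_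
            rw [Real.sqrt_mul (hnn ω b), ← mul_assoc, Real.mul_self_sqrt (hnn ω b)]
          rw [e1, e2, e3, one_mul] at hcs
          apply Real.le_sqrt_of_sq_le
          refine hcs.trans ?_
          calc 2 / A * ∑ ω : Cfg t, ∑ b : Fin t → Bool → Bool, nu θ ω b * msq (ck ω b)
              ≤ 2 / A * (4 / ((t : ℝ) + 1)) := mul_le_mul_of_nonneg_left hmean (by positivity)
            _ = 8 / (((t : ℝ) + 1) * A) := by field_simp; ring
      _ = Real.sqrt (8 / (((t : ℝ) + 1) * ((j : ℝ) * ((j : ℝ) + 1)))) +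
          24 * (j : ℝ) / ((t : ℝ) + 1) ^ 2 := by
          rw [hA]
          congr 1
          field_simp
          ring
  · refine le_trans ?_ hmean
    refine Finset.sum_le_sum fun ω _ => Finset.sum_le_sum fun b _ => ?_
    exact mul_le_mul_of_nonneg_left (triv _ (ck_ker ω b) _ (hev ω)) (hnn ω b)

end Pool.Agent.T6.H1.CT
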