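import Pool.Agent.T6.H1.CT.Defs

/-!
# Project CT, module PAT: bad patterns are rare
-/

set_option autoImplicit false

namespace Pool.Agent.T6.H1.CT

open Classical

/-- the factor of the law of the pattern -/
noncomputable def pp (N : ℝ) {j : ℕ} (i : Lf j) (o : Option (Lf j)) : ℝ :=
  o.elim (N / (N + 2 * (i.1.val : ℝ)))
    (fun i' => if i'.1 < i.1 then 1 / (N + 2 * (i.1.val : ℝ)) else 0)

theorem pw_eq (N : ℝ) {j : ℕ} (π : Lf j → Option (Lf j)) : pw N π = ∏ i, pp N i (π i) := rfl

theorem pp_nonneg {N : ℝ} (hN : 1 ≤ N) {j : ℕ} (i : Lf j) (o : Option (Lf j)) :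
    0 ≤ pp N i o := by
  have h : (0 : ℝ) < N + 2 * (i.1.val : ℝ) := by positivity
  unfold pp
  rcases o with _ | o
  · simp only [Option.elim_none]
    positivity
  · simp only [Option.elim_some]
    split_ifs
    · positivity
    · exact le_refl 0

theorem card_lt_fst {j : ℕ} (i : Lf j) :
    ∑ i' : Lf j, (if i'.1 < i.1 then (1 : ℝ) else 0) = 2 * (i.1.val : ℝ) := by
  rw [Fintype.sum_prod_type]
  simp only [Fintype.sum_bool]
  rw [← Finset.sum_congr rfl (fun x _ => (two_mul (if x < i.1 then (1 : ℝ) else 0))),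
    ← Finset.mul_sum]
  congr 1
  rw [Finset.sum_boole]
  congr 1
  have : (Finset.univ.filter fun x : Fin (j + 1) => x < i.1) = Finset.Iio i.1 := by
    ext x
    simp
  rw [this, Fin.card_Iio]

theorem pp_sum {N : ℝ} (hN : 1 ≤ N) {j : ℕ} (i : Lf j) : ∑ o, pp N i o = 1 := by
  have h : (0 : ℝ) < N + 2 * (i.1.val : ℝ) := by positivity
  rw [Fintype.sum_option]
  unfold pp
  simp only [Option.elim_none, Option.elim_some]
  have h1 : ∑ i' : Lf j, (if i'.1 < i.1 then 1 / (N + 2 * (i.1.val : ℝ)) else 0) =
      (∑ i' : Lf j, (if i'.1 < i.1 then (1 : ℝ) else 0)) / (N + 2 * (i.1.val : ℝ)) := by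
    rw [Finset.sum_div]
    refine Finset.sum_congr rfl fun x _ => ?_
    split_ifs <;> simp
  rw [h1, card_lt_fst, ← add_div]
  exact div_self h.ne'

theorem pat_marg {N : ℝ} (hN : 1 ≤ N) {j : ℕ} (i : Lf j) (g : Option (Lf j) → ℝ) :
    ∑ π : Lf j → Option (Lf j), pw N π * g (π i) = ∑ o, pp N i o * g o := by
  have h1 : ∀ π : Lf j → Option (Lf j), pw N π * g (π i) =
      ∏ k, (pp N k (π k) * (if k = i then g (π k) else 1)) := by
    intro π
    rw [pw_eq, Finset.prod_mul_distrib, Finset.prod_ite_eq' Finset.univ i,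
      if_pos (Finset.mem_univ i)]
  rw [Finset.sum_congr rfl (fun π _ => h1 π)]
  have h2 := Finset.prod_univ_sum (fun _ : Lf j => (Finset.univ : Finset (Option (Lf j))))
    (fun k o => pp N k o * (if k = i then g o else 1))
  rw [Fintype.piFinset_univ] at h2
  rw [← h2]
  have h3 : ∀ k : Lf j, ∑ o, pp N k o * (if k = i then g o else 1) =
      if k = i then ∑ o, pp N i o * g o else 1 := by
    intro k
    by_cases hk : k = i
    · subst hk
      simp
    · simp [hk, pp_sum hN k]
  rw [Finset.prod_congr rfl (fun k _ => h3 k), Finset.prod_ite_eq' Finset.univ i,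
    if_pos (Finset.mem_univ i)]

theorem pat_bad {N : ℝ} (hN : 1 ≤ N) {j : ℕ} (i : Lf j) :
    ∑ π : Lf j → Option (Lf j), pw N π * (if i ∈ gd π then 0 else 1) ≤ 2 * (j : ℝ) / N := by
  have hpw : ∀ π : Lf j → Option (Lf j), 0 ≤ pw N π := fun π =>
    Finset.prod_nonneg fun k _ => pp_nonneg hN k _
  have hN0 : (0 : ℝ) < N := by linarith
  have h1 : ∀ π : Lf j → Option (Lf j), pw N π * (if i ∈ gd π then 0 else 1) ≤
      pw N π * (if π i = none then 0 else 1) +
        ∑ i' : Lf j, pw N π * (if π i' = some i then 1 else 0) := by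
    intro π
    rw [← Finset.mul_sum, ← mul_add]
    refine mul_le_mul_of_nonneg_left ?_ (hpw π)
    have h0 : 0 ≤ ∑ i' : Lf j, (if π i' = some i then (1 : ℝ) else 0) :=
      Finset.sum_nonneg fun i' _ => by split_ifs <;> norm_num
    by_cases hg : i ∈ gd π
    · rw [if_pos hg]
      have : (0 : ℝ) ≤ if π i = none then 0 else 1 := by split_ifs <;> norm_num
      linarith
    · rw [if_neg hg]
      by_cases hn : π i = none
      · have : ∃ i', π i' = some i := by
          by_contra hcon
          push Not at hcon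
          exact hg (by simp only [gd, Finset.mem_filter, Finset.mem_univ, true_and]
                       exact ⟨hn, hcon⟩)
        obtain ⟨i', hi'⟩ := this
        have h2 : (if π i' = some i then (1 : ℝ) else 0) ≤
            ∑ i' : Lf j, (if π i' = some i then (1 : ℝ) else 0) :=
          Finset.single_le_sum (f := fun i' => if π i' = some i then (1 : ℝ) else 0)
            (fun i' _ => by positivity) (Finset.mem_univ i')
        rw [if_pos hi'] at h2
        rw [if_pos hn]
        linarith
      · rw [if_neg hn]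
        linarith
  have h2 : ∑ π : Lf j → Option (Lf j), pw N π * (if i ∈ gd π then 0 else 1) ≤
      ∑ π : Lf j → Option (Lf j), pw N π * (if π i = none then 0 else 1) +
      ∑ i' : Lf j, ∑ π : Lf j → Option (Lf j), pw N π * (if π i' = some i then 1 else 0) := by
    calc _ ≤ ∑ π : Lf j → Option (Lf j), (pw N π * (if π i = none then 0 else 1) +
        ∑ i' : Lf j, pw N π * (if π i' = some i then 1 else 0)) :=
          Finset.sum_le_sum fun π _ => h1 π
      _ = _ := by
          rw [Finset.sum_add_distrib, Finset.sum_comm (s := Finset.univ (α := Lf j))]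
  refine h2.trans ?_
  rw [pat_marg hN i (fun o => if o = none then 0 else 1)]
  have h3 : ∑ o, pp N i o * (if o = none then 0 else 1) ≤
      ∑ i' : Lf j, (if i'.1 < i.1 then 1 / N else 0) := by
    rw [Fintype.sum_option]
    simp only [if_true, mul_zero, zero_add, reduceCtorEq, if_false, mul_one]
    refine Finset.sum_le_sum fun i' _ => ?_
    unfold pp
    simp only [Option.elim_some]
    split_ifs
    · exact one_div_le_one_div_of_le hN0 (by
        have : (0 : ℝ) ≤ (i.1.val : ℝ) := by positivity
        linarith)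
    · exact le_refl 0
  have h4 : ∀ i' : Lf j, ∑ π : Lf j → Option (Lf j), pw N π * (if π i' = some i then 1 else 0) ≤
      (if i.1 < i'.1 then 1 / N else 0) := by
    intro i'
    rw [pat_marg hN i' (fun o => if o = some i then 1 else 0)]
    simp only [mul_ite, mul_one, mul_zero]
    rw [Finset.sum_ite_eq' Finset.univ (some i), if_pos (Finset.mem_univ _)]
    unfold pp
    simp only [Option.elim_some]
    split_ifs
    · exact one_div_le_one_div_of_le hN0 (by
        have : (0 : ℝ) ≤ (i'.1.val : ℝ) := by positivity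
        linarith)
    · exact le_refl 0
  have h5 : ∑ o, pp N i o * (if o = none then 0 else 1) +
      ∑ i' : Lf j, ∑ π : Lf j → Option (Lf j), pw N π * (if π i' = some i then 1 else 0) ≤
      ∑ i' : Lf j, ((if i'.1 < i.1 then 1 / N else 0) + (if i.1 < i'.1 then 1 / N else 0)) := by
    rw [Finset.sum_add_distrib]
    exact add_le_add h3 (Finset.sum_le_sum fun i' _ => h4 i')
  refine h5.trans ?_
  have h6 : ∀ i' : Lf j, (if i'.1 < i.1 then 1 / N else 0) + (if i.1 < i'.1 then 1 / N else 0) =
      1 / N - (if i'.1 = i.1 then 1 / N else 0) := by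
    intro i'
    rcases lt_trichotomy i'.1 i.1 with h | h | h
    · rw [if_pos h, if_neg (not_lt.2 h.le), if_neg h.ne]
      ring
    · rw [if_neg (by rw [h]; exact lt_irrefl _), if_neg (by rw [h]; exact lt_irrefl _), if_pos h]
      ring
    · rw [if_neg (not_lt.2 h.le), if_pos h, if_neg h.ne']
      ring
  rw [Finset.sum_congr rfl (fun i' _ => h6 i'), Finset.sum_sub_distrib]
  have h7 : ∑ i' : Lf j, (if i'.1 = i.1 then 1 / N else 0) = 2 / N := by
    rw [Fintype.sum_prod_type]
    simp only [Fintype.sum_bool]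
    rw [Finset.sum_add_distrib, Finset.sum_ite_eq' Finset.univ i.1, if_pos (Finset.mem_univ _)]
    ring
  rw [h7]
  simp only [Finset.sum_const, Finset.card_univ, Fintype.card_prod, Fintype.card_fin,
    Fintype.card_bool, nsmul_eq_mul]
  apply le_of_eq
  push_cast
  ring

theorem tPAT : StmPAT := by
  intro N hN j hj
  have hN0 : (0 : ℝ) < N := by linarith
  have hpw : ∀ π : Lf j → Option (Lf j), 0 ≤ pw N π := fun π =>
    Finset.prod_nonneg fun k _ => pp_nonneg hN k _
  refine ⟨hpw, ?_, ?_⟩
  · have h := pat_marg hN (0, true) (j := j) (fun _ => 1)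
    simp only [mul_one] at h
    rw [h]
    exact pp_sum hN _
  · have h1 : ∀ π : Lf j → Option (Lf j),
        pw N π * (if (0, true) ∈ gd π ∧ (0, false) ∈ gd π ∧ j + 1 ≤ (gd π).card then 0 else 1) ≤
        pw N π * (if (0, true) ∈ gd π then 0 else 1) +
        pw N π * (if (0, false) ∈ gd π then 0 else 1) +
        (∑ i : Lf j, pw N π * (if i ∈ gd π then 0 else 1)) / ((j : ℝ) + 1) := by
      intro π
      have hj0 : (0 : ℝ) < (j : ℝ) + 1 := by positivity
      rw [← Finset.mul_sum, mul_div_assoc, ← mul_add, ← mul_add]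
      refine mul_le_mul_of_nonneg_left ?_ (hpw π)
      have e1 : ∑ i : Lf j, (if i ∈ gd π then (0 : ℝ) else 1) =
          2 * ((j : ℝ) + 1) - ((gd π).card : ℝ) := by
        have : ∀ i : Lf j, (if i ∈ gd π then (0 : ℝ) else 1) =
            1 - (if i ∈ gd π then (1 : ℝ) else 0) := by
          intro i
          split_ifs <;> norm_num
        rw [Finset.sum_congr rfl (fun i _ => this i), Finset.sum_sub_distrib]
        congr 1
        · simp
          ring
        · rw [Finset.sum_boole]
          congr 2
          ext i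
          simp
      have e2 : 0 ≤ ∑ i : Lf j, (if i ∈ gd π then (0 : ℝ) else 1) :=
        Finset.sum_nonneg fun i _ => by split_ifs <;> norm_num
      have e3 : 0 ≤ (∑ i : Lf j, (if i ∈ gd π then (0 : ℝ) else 1)) / ((j : ℝ) + 1) := by
        positivity
      have e4 : (0 : ℝ) ≤ if ((0, true) : Lf j) ∈ gd π then 0 else 1 := by
        split_ifs <;> norm_num
      have e5 : (0 : ℝ) ≤ if ((0, false) : Lf j) ∈ gd π then 0 else 1 := by
        split_ifs <;> norm_num
      by_cases c1 : ((0, true) : Lf j) ∈ gd π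
      · by_cases c2 : ((0, false) : Lf j) ∈ gd π
        · by_cases c3 : j + 1 ≤ (gd π).card
          · rw [if_pos ⟨c1, c2, c3⟩]
            linarith
          · rw [if_neg (fun h => c3 h.2.2)]
            have c4 : ((gd π).card : ℝ) ≤ (j : ℝ) + 1 := by
              have : (gd π).card ≤ j + 1 := by omega
              exact_mod_cast this
            have c5 : 1 ≤ (∑ i : Lf j, (if i ∈ gd π then (0 : ℝ) else 1)) / ((j : ℝ) + 1) := by
              rw [e1, le_div_iff₀ hj0]
              linarith
            linarith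
        · rw [if_neg (fun h => c2 h.2.1), if_neg c2]
          linarith
      · rw [if_neg (fun h => c1 h.1), if_neg c1]
        linarith
    have h2 := Finset.sum_le_sum (s := Finset.univ) fun π _ => h1 π
    refine h2.trans ?_
    rw [Finset.sum_add_distrib, Finset.sum_add_distrib, ← Finset.sum_div, Finset.sum_comm]
    have h3 : ∑ i : Lf j, ∑ π : Lf j → Option (Lf j), pw N π * (if i ∈ gd π then 0 else 1) ≤
        ∑ i : Lf j, 2 * (j : ℝ) / N := Finset.sum_le_sum fun i _ => pat_bad hN i
    have h4 : (∑ i : Lf j, ∑ π : Lf j → Option (Lf j), pw N π * (if i ∈ gd π then 0 else 1)) /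
        ((j : ℝ) + 1) ≤ 4 * (j : ℝ) / N := by
      rw [div_le_iff₀ (by positivity)]
      refine h3.trans (le_of_eq ?_)
      simp only [Finset.sum_const, Finset.card_univ, Fintype.card_prod, Fintype.card_fin,
        Fintype.card_bool, nsmul_eq_mul]
      push_cast
      ring
    have h5 := pat_bad hN (j := j) (0, true)
    have h6 := pat_bad hN (j := j) (0, false)
    have h7 : 12 * (j : ℝ) / N = 2 * (j : ℝ) / N + 2 * (j : ℝ) / N + 4 * (j : ℝ) / N +
      4 * (j : ℝ) / N := by ring
    have h8 : 0 ≤ 4 * (j : ℝ) / N := by positivity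
    rw [h7]
    linarith

end Pool.Agent.T6.H1.CT
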