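import Pool.Agent.T6.H1.CT.Defs

/-!
# Project CT, module PTH: probability of a given self-avoiding path
-/

set_option autoImplicit false

namespace Pool.Agent.T6.H1.CT

open Classical

theorem sum_prod_dep {ι : Type} [Fintype ι] [DecidableEq ι] {A B : ι → Type}
    [∀ k, Fintype (A k)] [∀ k, Fintype (B k)] (W : ∀ k, A k → B k → ℝ) :
    ∑ ω : (∀ k, A k), ∑ b : (∀ k, B k), ∏ k, W k (ω k) (b k) =
      ∏ k, ∑ a : A k, ∑ b : B k, W k a b := by
  have h1 : ∀ k, ∑ a : A k, ∑ b : B k, W k a b = ∑ x : A k × B k, W k x.1 x.2 := fun k =>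
    (Fintype.sum_prod_type' (f := fun a b => W k a b)).symm
  rw [Finset.prod_congr rfl (fun k _ => h1 k), Finset.prod_univ_sum, Fintype.piFinset_univ,
    ← Fintype.sum_prod_type' (f := fun (ω : ∀ k, A k) (b : ∀ k, B k) => ∏ k, W k (ω k) (b k))]
  exact (Fintype.sum_equiv (Equiv.arrowProdEquivProdArrow ι A B) _ _ fun p => rfl).symm

/-- indicator -/
noncomputable def ind (P : Prop) : ℝ := if P then 1 else 0

theorem ind_nonneg (P : Prop) : 0 ≤ ind P := by
  unfold ind
  split_ifs <;> norm_num

/-- the weight of one attachment -/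
noncomputable def vv (θ : ℝ) (k : ℕ) (τ : Bool) (a : Fin (k + 1) × Bool) (c : Bool) : ℝ :=
  if c = true then (if a.2 = τ then θ / ((k : ℝ) + 1) else 0) else (1 - θ) / (2 * ((k : ℝ) + 1))

theorem nu_eq (θ : ℝ) {t : ℕ} (ω : Cfg t) (b : Fin t → Bool → Bool) :
    nu θ ω b = ∏ k : Fin t, ∏ τ : Bool, vv θ k.val τ (ω k τ) (b k τ) := rfl

theorem vv_nonneg {θ : ℝ} (h0 : 0 ≤ θ) (h1 : θ ≤ 1) (k : ℕ) (τ : Bool) (a : Fin (k + 1) × Bool)
    (c : Bool) : 0 ≤ vv θ k τ a c := by
  unfold vv
  have h2 : (0 : ℝ) ≤ 1 - θ := by linarith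
  split_ifs <;> positivity

theorem vv_sum (θ : ℝ) (k : ℕ) (τ : Bool) : ∑ a, ∑ c, vv θ k τ a c = 1 := by
  unfold vv
  have hk : ((k : ℝ) + 1) ≠ 0 := by positivity
  simp only [Fintype.sum_bool, if_true, Bool.false_eq_true, if_false]
  rw [Fintype.sum_prod_type]
  simp only [Fintype.sum_bool]
  cases τ
  · simp only [Bool.true_eq_false, if_false, if_true, zero_add, Finset.sum_const,
      Finset.card_univ, Fintype.card_fin, nsmul_eq_mul]
    push_cast
    field_simp
    ring
  · simp only [Bool.false_eq_true, if_false, if_true, zero_add, Finset.sum_const,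
      Finset.card_univ, Fintype.card_fin, nsmul_eq_mul]
    push_cast
    field_simp
    ring

/-- the attachment is open and goes to the time `m` -/
noncomputable def sv {k : ℕ} (m : ℕ) (a : Fin (k + 1) × Bool) (c : Bool) : ℝ :=
  if c = true ∧ a.1.val = m then 1 else 0

theorem sv_nonneg {k : ℕ} (m : ℕ) (a : Fin (k + 1) × Bool) (c : Bool) : 0 ≤ sv m a c := by
  unfold sv
  split_ifs <;> norm_num

theorem vv_sv {ι : Type} {θ : ℝ} (h0 : 0 ≤ θ) (k : ℕ) (τ : Bool) (m : ι → ℕ)
    (T : Finset ι) (hT : Set.InjOn m (T : Set ι)) :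
    ∑ a : Fin (k + 1) × Bool, ∑ c : Bool, vv θ k τ a c * ∏ i ∈ T, sv (m i) a c ≤
      (θ / ((k : ℝ) + 1)) ^ T.card := by
  rcases Nat.lt_or_ge T.card 2 with hc | hc
  · interval_cases hcc : T.card
    · rw [Finset.card_eq_zero.1 hcc]
      simp only [Finset.prod_empty, mul_one, pow_zero]
      exact (vv_sum θ k τ).le
    · obtain ⟨i, rfl⟩ := Finset.card_eq_one.1 hcc
      simp only [Finset.prod_singleton, pow_one]
      have h1 : ∀ a : Fin (k + 1) × Bool, ∑ c : Bool, vv θ k τ a c * sv (m i) a c =
          (if a.1.val = m i then 1 else 0) * (if a.2 = τ then θ / ((k : ℝ) + 1) else 0) := by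
        intro a
        unfold vv sv
        by_cases c1 : a.1.val = m i <;> by_cases c2 : a.2 = τ <;> simp [c1, c2]
      rw [Finset.sum_congr rfl (fun a _ => h1 a), Fintype.sum_prod_type]
      have h2 : ∀ x : Fin (k + 1), ∑ y : Bool, (if x.val = m i then (1 : ℝ) else 0) *
          (if y = τ then θ / ((k : ℝ) + 1) else 0) =
          (if x.val = m i then θ / ((k : ℝ) + 1) else 0) := by
        intro x
        rw [← Finset.mul_sum, Finset.sum_ite_eq' Finset.univ τ, if_pos (Finset.mem_univ _),
          ite_mul, one_mul, zero_mul]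
      rw [Finset.sum_congr rfl (fun x _ => h2 x)]
      have h3 : 0 ≤ θ / ((k : ℝ) + 1) := by positivity
      by_cases hm : m i < k + 1
      · rw [Finset.sum_eq_single (⟨m i, hm⟩ : Fin (k + 1))]
        · rw [if_pos rfl]
        · intro b _ hb
          rw [if_neg (fun h => hb (Fin.ext h))]
        · intro h
          exact absurd (Finset.mem_univ _) h
      · rw [Finset.sum_eq_zero]
        · exact h3
        · intro x _
          rw [if_neg]
          have := x.isLt
          omega
  · obtain ⟨i, hi, l, hl, hil⟩ := Finset.one_lt_card.1 (by omega : 1 < T.card)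
    have hz : ∀ (a : Fin (k + 1) × Bool) (c : Bool), ∏ i ∈ T, sv (m i) a c = 0 := by
      intro a c
      by_cases h1 : a.1.val = m i
      · refine Finset.prod_eq_zero hl ?_
        unfold sv
        rw [if_neg]
        rintro ⟨_, h2⟩
        exact hil (hT hi hl (h1.symm.trans h2))
      · refine Finset.prod_eq_zero hi ?_
        unfold sv
        rw [if_neg]
        rintro ⟨_, h2⟩
        exact h1 h2
    simp only [hz, mul_zero, Finset.sum_const_zero]
    positivity

theorem pth_step {ι : Type} {θ : ℝ} (h0 : 0 ≤ θ) (h1 : θ ≤ 1) (k : ℕ) (m : ι → ℕ)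
    (I : Finset ι) (hI : Set.InjOn m (I : Set ι)) :
    ∑ f : Bool → Fin (k + 1) × Bool, ∑ c : Bool → Bool, (∏ τ, vv θ k τ (f τ) (c τ)) *
      ind (∀ i ∈ I, ∃ τ, c τ = true ∧ (f τ).1.val = m i) ≤
      (2 * θ / ((k : ℝ) + 1)) ^ I.card := by
  have e1 : ∀ (f : Bool → Fin (k + 1) × Bool) (c : Bool → Bool),
      (∏ τ, vv θ k τ (f τ) (c τ)) *
        ind (∀ i ∈ I, ∃ τ, c τ = true ∧ (f τ).1.val = m i) ≤
      ∑ T ∈ I.powerset, ∏ τ : Bool, (vv θ k τ (f τ) (c τ) *
        ∏ i ∈ (if τ = true then T else I \ T), sv (m i) (f τ) (c τ)) := by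
    intro f c
    have hv : 0 ≤ ∏ τ, vv θ k τ (f τ) (c τ) :=
      Finset.prod_nonneg fun τ _ => vv_nonneg h0 h1 k τ _ _
    have e2 : ind (∀ i ∈ I, ∃ τ, c τ = true ∧ (f τ).1.val = m i) ≤
        ∏ i ∈ I, (sv (m i) (f true) (c true) + sv (m i) (f false) (c false)) := by
      unfold ind
      split_ifs with hh
      · refine Finset.one_le_prod (fun i hi => ?_) 
        obtain ⟨τ, hτ⟩ := hh i hi
        have n1 := sv_nonneg (m i) (f true) (c true)
        have n2 := sv_nonneg (m i) (f false) (c false)
        cases τ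
        · have : sv (m i) (f false) (c false) = 1 := if_pos hτ
          linarith
        · have : sv (m i) (f true) (c true) = 1 := if_pos hτ
          linarith
      · exact Finset.prod_nonneg fun i _ => add_nonneg (sv_nonneg _ _ _) (sv_nonneg _ _ _)
    refine (mul_le_mul_of_nonneg_left e2 hv).trans (le_of_eq ?_)
    rw [Finset.prod_add, Finset.mul_sum]
    refine Finset.sum_congr rfl fun T _ => ?_
    rw [Finset.prod_mul_distrib]
    congr 1
    rw [Fintype.prod_bool]
    simp
  calc ∑ f : Bool → Fin (k + 1) × Bool, ∑ c : Bool → Bool, (∏ τ, vv θ k τ (f τ) (c τ)) *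
      ind (∀ i ∈ I, ∃ τ, c τ = true ∧ (f τ).1.val = m i)
      ≤ ∑ f : Bool → Fin (k + 1) × Bool, ∑ c : Bool → Bool, ∑ T ∈ I.powerset,
      ∏ τ : Bool, (vv θ k τ (f τ) (c τ) *
        ∏ i ∈ (if τ = true then T else I \ T), sv (m i) (f τ) (c τ)) :=
        Finset.sum_le_sum fun f _ => Finset.sum_le_sum fun c _ => e1 f c
    _ = ∑ T ∈ I.powerset, ∑ f : Bool → Fin (k + 1) × Bool, ∑ c : Bool → Bool,
      ∏ τ : Bool, (vv θ k τ (f τ) (c τ) *
        ∏ i ∈ (if τ = true then T else I \ T), sv (m i) (f τ) (c τ)) := by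
        symm
        rw [Finset.sum_comm]
        refine Finset.sum_congr rfl fun f _ => ?_
        exact Finset.sum_comm
    _ ≤ ∑ T ∈ I.powerset, (θ / ((k : ℝ) + 1)) ^ I.card := by
        refine Finset.sum_le_sum fun T hT => ?_
        have hT' : T ⊆ I := Finset.mem_powerset.1 hT
        rw [sum_prod_dep (ι := Bool) (A := fun _ => Fin (k + 1) × Bool) (B := fun _ => Bool)
          (fun τ a c => vv θ k τ a c * ∏ i ∈ (if τ = true then T else I \ T), sv (m i) a c),
          Fintype.prod_bool]
        simp only [if_true, Bool.false_eq_true, if_false]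
        have a1 := vv_sv h0 k true m T (hI.mono (by exact_mod_cast hT'))
        have a2 := vv_sv h0 k false m (I \ T)
          (hI.mono (by exact_mod_cast (Finset.sdiff_subset : I \ T ⊆ I)))
        have n2 : 0 ≤ ∑ a : Fin (k + 1) × Bool, ∑ c : Bool,
            vv θ k false a c * ∏ i ∈ I \ T, sv (m i) a c :=
          Finset.sum_nonneg fun a _ => Finset.sum_nonneg fun c _ =>
            mul_nonneg (vv_nonneg h0 h1 _ _ _ _) (Finset.prod_nonneg fun i _ => sv_nonneg _ _ _)
        refine (mul_le_mul a1 a2 n2 (by positivity)).trans (le_of_eq ?_)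
        rw [← pow_add]
        congr 1
        rw [Finset.card_sdiff_of_subset hT']
        have := Finset.card_le_card hT'
        omega
    _ = (2 * θ / ((k : ℝ) + 1)) ^ I.card := by
        rw [Finset.sum_const, Finset.card_powerset, nsmul_eq_mul]
        push_cast
        rw [← mul_pow]
        congr 1
        ring

theorem tPTH : StmPTH := by
  intro θ h0 h1 t r p hp
  -- larger and smaller ends
  have hne : ∀ i : Fin r, (p i.castSucc).val ≠ (p i.succ).val := by
    intro i h
    have := hp (Fin.ext h)
    exact absurd this (ne_of_lt (Fin.castSucc_lt_succ))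
  have hev : ∀ (ω : Cfg t) (b : Fin t → Bool → Bool),
      nu θ ω b * (if ∀ i : Fin r, (og ω b).Adj (p i.castSucc) (p i.succ) then 1 else 0) ≤
      ∏ k : Fin t, ((∏ τ, vv θ k.val τ (ω k τ) (b k τ)) *
        ind (∀ i ∈ (Finset.univ.filter fun i : Fin r =>
            max (p i.castSucc).val (p i.succ).val = k.val + 1),
          ∃ τ, b k τ = true ∧ (ω k τ).1.val = min (p i.castSucc).val (p i.succ).val)) := by
    intro ω b
    have hn : 0 ≤ ∏ k : Fin t, ((∏ τ, vv θ k.val τ (ω k τ) (b k τ)) *
        ind (∀ i ∈ (Finset.univ.filter fun i : Fin r =>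
            max (p i.castSucc).val (p i.succ).val = k.val + 1),
          ∃ τ, b k τ = true ∧ (ω k τ).1.val = min (p i.castSucc).val (p i.succ).val)) :=
      Finset.prod_nonneg fun k _ => mul_nonneg
        (Finset.prod_nonneg fun τ _ => vv_nonneg h0 h1 _ _ _ _) (ind_nonneg _)
    by_cases hA : ∀ i : Fin r, (og ω b).Adj (p i.castSucc) (p i.succ)
    · rw [if_pos hA, mul_one, nu_eq, Finset.prod_mul_distrib]
      have hE : ∀ k : Fin t, ind (∀ i ∈ (Finset.univ.filter fun i : Fin r =>
            max (p i.castSucc).val (p i.succ).val = k.val + 1),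
          ∃ τ, b k τ = true ∧ (ω k τ).1.val = min (p i.castSucc).val (p i.succ).val) = 1 := by
        intro k
        refine if_pos ?_
        intro i hi
        have hi' : max (p i.castSucc).val (p i.succ).val = k.val + 1 :=
          (Finset.mem_filter.1 hi).2
        have had := hA i
        rw [og, SimpleGraph.fromRel_adj] at had
        obtain ⟨_, had⟩ := had
        rcases had with ⟨k', τ, hb, hs, ha⟩ | ⟨k', τ, hb, hs, ha⟩
        · have e1 : (p i.castSucc).val = k'.val + 1 := by rw [hs]; rfl
          have e2 := (ω k' τ).1.isLt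
          have e3 : k' = k := by
            apply Fin.ext
            omega
          subst e3
          exact ⟨τ, hb, by omega⟩
        · have e1 : (p i.succ).val = k'.val + 1 := by rw [hs]; rfl
          have e2 := (ω k' τ).1.isLt
          have e3 : k' = k := by
            apply Fin.ext
            omega
          subst e3
          exact ⟨τ, hb, by omega⟩
      rw [Finset.prod_congr rfl (fun k _ => hE k), Finset.prod_const_one, mul_one]
    · rw [if_neg hA, mul_zero]
      exact hn
  refine (Finset.sum_le_sum fun ω _ => Finset.sum_le_sum fun b _ => hev ω b).trans ?_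
  have hsp := sum_prod_dep (ι := Fin t) (A := fun k => Bool → Fin (k.val + 1) × Bool)
    (B := fun _ => Bool → Bool)
    (fun k f c => (∏ τ, vv θ k.val τ (f τ) (c τ)) *
        ind (∀ i ∈ (Finset.univ.filter fun i : Fin r =>
            max (p i.castSucc).val (p i.succ).val = k.val + 1),
          ∃ τ, c τ = true ∧ (f τ).1.val = min (p i.castSucc).val (p i.succ).val))
  refine (le_of_eq hsp).trans ?_
  have hk : ∀ k : Fin t, ∑ f : Bool → Fin (k.val + 1) × Bool, ∑ c : Bool → Bool,
      (∏ τ, vv θ k.val τ (f τ) (c τ)) *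
        ind (∀ i ∈ (Finset.univ.filter fun i : Fin r =>
            max (p i.castSucc).val (p i.succ).val = k.val + 1),
          ∃ τ, c τ = true ∧ (f τ).1.val = min (p i.castSucc).val (p i.succ).val) ≤
      ∏ i : Fin r, (if max (p i.castSucc).val (p i.succ).val = k.val + 1 then
        kap θ (p i.castSucc).val (p i.succ).val else 1) := by
    intro k
    refine (pth_step h0 h1 k.val (fun i : Fin r => min (p i.castSucc).val (p i.succ).val)
      (Finset.univ.filter fun i : Fin r =>
        max (p i.castSucc).val (p i.succ).val = k.val + 1) ?_).trans (le_of_eq ?_)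
    · intro i hi l hl hil
      have hi' : max (p i.castSucc).val (p i.succ).val = k.val + 1 := by simpa using hi
      have hl' : max (p l.castSucc).val (p l.succ).val = k.val + 1 := by simpa using hl
      simp only at hil
      have h2 : ((p i.castSucc).val = (p l.castSucc).val ∧ (p i.succ).val = (p l.succ).val) ∨
          ((p i.castSucc).val = (p l.succ).val ∧ (p i.succ).val = (p l.castSucc).val) := by
        omega
      rcases h2 with ⟨h3, _⟩ | ⟨h3, h4⟩
      · exact Fin.castSucc_injective r (hp (Fin.ext h3))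
      · have h5 := hp (Fin.ext h3)
        have h6 := hp (Fin.ext h4)
        have h7 := congrArg Fin.val h5
        have h8 := congrArg Fin.val h6
        simp only [Fin.val_castSucc, Fin.val_succ] at h7 h8
        omega
    · rw [← Finset.prod_filter, ← Finset.prod_const]
      refine Finset.prod_congr rfl fun i hi => ?_
      have hi' : max (p i.castSucc).val (p i.succ).val = k.val + 1 :=
        (Finset.mem_filter.1 hi).2
      unfold kap
      rw [hi']
      push_cast
      rfl
  refine (Finset.prod_le_prod (fun k _ => ?_) (fun k _ => hk k)).trans (le_of_eq ?_)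
  · exact Finset.sum_nonneg fun f _ => Finset.sum_nonneg fun c _ => mul_nonneg
      (Finset.prod_nonneg fun τ _ => vv_nonneg h0 h1 _ _ _ _) (ind_nonneg _)
  · rw [Finset.prod_comm]
    refine Finset.prod_congr rfl fun i _ => ?_
    have hb1 := (p i.castSucc).isLt
    have hb2 := (p i.succ).isLt
    have hne' := hne i
    rw [Finset.prod_eq_single (⟨max (p i.castSucc).val (p i.succ).val - 1, by omega⟩ : Fin t)]
    · rw [if_pos]
      simp only
      omega
    · intro k _ hk
      rw [if_neg]
      intro h
      apply hk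
      apply Fin.ext
      simp only
      omega
    · intro h
      exact absurd (Finset.mem_univ _) h

end Pool.Agent.T6.H1.CT
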