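import Pool.Agent.T6.H1.CT.Defs

set_option autoImplicit false

namespace Pool.Agent.T6.H1.CT

theorem sch_low (n : ℕ) : ∑ a ∈ Finset.range n, 1 / Real.sqrt ((a : ℝ) + 1) ≤ 2 * Real.sqrt n := by
  induction n with
  | zero => simp
  | succ n ih =>
    rw [Finset.sum_range_succ]
    have hx : 0 ≤ Real.sqrt (n : ℝ) := Real.sqrt_nonneg _
    have hy : 0 < Real.sqrt ((n : ℝ) + 1) := Real.sqrt_pos.mpr (by positivity)
    have hx2 : Real.sqrt (n : ℝ) ^ 2 = n := Real.sq_sqrt (Nat.cast_nonneg n)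
    have hy2 : Real.sqrt ((n : ℝ) + 1) ^ 2 = n + 1 := Real.sq_sqrt (by positivity)
    push_cast
    set x := Real.sqrt (n : ℝ)
    set y := Real.sqrt ((n : ℝ) + 1)
    have h1 : 1 / y ≤ 2 * y - 2 * x := by
      rw [div_le_iff₀ hy]
      nlinarith [sq_nonneg (x - y)]
    linarith

theorem sch_high (s : ℕ) (n : ℕ) (hn : s + 1 ≤ n) :
    ∑ a ∈ Finset.Ico (s + 1) n, 1 / ((a : ℝ) * Real.sqrt ((a : ℝ) + 1)) ≤
      2 * Real.sqrt 2 * (1 / Real.sqrt ((s : ℝ) + 1) - 1 / Real.sqrt (n : ℝ)) := by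
  induction n, hn using Nat.le_induction with
  | base => simp
  | succ n hn ih =>
    rw [Finset.sum_Ico_succ_top hn]
    have hn1 : (1 : ℝ) ≤ n := by
      have : 1 ≤ n := by omega
      exact_mod_cast this
    have hx : 0 < Real.sqrt (n : ℝ) := Real.sqrt_pos.mpr (by linarith)
    have hy : 0 < Real.sqrt ((n : ℝ) + 1) := Real.sqrt_pos.mpr (by positivity)
    have hx2 : Real.sqrt (n : ℝ) ^ 2 = n := Real.sq_sqrt (Nat.cast_nonneg n)
    have hy2 : Real.sqrt ((n : ℝ) + 1) ^ 2 = n + 1 := Real.sq_sqrt (by positivity)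
    have hxy : Real.sqrt ((n : ℝ) + 1) ≤ Real.sqrt 2 * Real.sqrt (n : ℝ) := by
      rw [← Real.sqrt_mul (by norm_num)]
      exact Real.sqrt_le_sqrt (by linarith)
    have h2 : 1 ≤ Real.sqrt 2 := by
      rw [show (1 : ℝ) = Real.sqrt 1 by simp]
      exact Real.sqrt_le_sqrt (by norm_num)
    push_cast
    rw [← hx2] at hy2
    have hnx : (n : ℝ) * Real.sqrt ((n : ℝ) + 1) = Real.sqrt (n : ℝ) ^ 2 * Real.sqrt ((n : ℝ) + 1) := by
      rw [hx2]
    rw [hnx]
    have hstep : 1 / (Real.sqrt (n : ℝ) ^ 2 * Real.sqrt ((n : ℝ) + 1)) ≤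
        2 * Real.sqrt 2 * (1 / Real.sqrt (n : ℝ) - 1 / Real.sqrt ((n : ℝ) + 1)) := by
      have hy2' : Real.sqrt ((n : ℝ) + 1) ^ 2 = Real.sqrt (n : ℝ) ^ 2 + 1 := by
        rw [hx2]; exact Real.sq_sqrt (by positivity)
      generalize Real.sqrt (n : ℝ) = x at *
      generalize Real.sqrt ((n : ℝ) + 1) = y at *
      generalize Real.sqrt 2 = c at *
      have h3 : 2 * c * (1 / x - 1 / y) - 1 / (x ^ 2 * y) =
          (y - x) * (2 * c * x - (x + y)) / (x ^ 2 * y) := by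
        have h4 : (1 : ℝ) = (y - x) * (x + y) := by linarith
        field_simp
        linear_combination -h4
      have hyx : 0 ≤ y - x := by nlinarith
      have h5 : 0 ≤ 2 * c * x - (x + y) := by nlinarith
      have h6 : 0 ≤ (y - x) * (2 * c * x - (x + y)) / (x ^ 2 * y) := by positivity
      linarith
    have : 2 * Real.sqrt 2 * (1 / Real.sqrt ((s : ℝ) + 1) - 1 / Real.sqrt ((n : ℝ) + 1)) =
        2 * Real.sqrt 2 * (1 / Real.sqrt ((s : ℝ) + 1) - 1 / Real.sqrt (n : ℝ)) +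
        2 * Real.sqrt 2 * (1 / Real.sqrt (n : ℝ) - 1 / Real.sqrt ((n : ℝ) + 1)) := by ring
    linarith

theorem tSCH : StmSCH := by
  intro θ h0 h1 t s
  obtain ⟨s, hs⟩ := s
  have hconv : ∑ a : Fin (t + 1), (if a = (⟨s, hs⟩ : Fin (t + 1)) then (0 : ℝ) else
      kap θ s a.val / Real.sqrt ((a.val : ℝ) + 1)) =
      ∑ a ∈ Finset.range (t + 1), (if a = s then (0 : ℝ) else kap θ s a / Real.sqrt ((a : ℝ) + 1)) := by
    rw [← Fin.sum_univ_eq_sum_range (fun a => if a = s then (0 : ℝ) else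
      kap θ s a / Real.sqrt ((a : ℝ) + 1))]
    refine Finset.sum_congr rfl fun a _ => ?_
    by_cases ha : a.val = s
    · have : a = (⟨s, hs⟩ : Fin (t + 1)) := Fin.ext ha
      rw [if_pos this, if_pos ha]
    · have : a ≠ (⟨s, hs⟩ : Fin (t + 1)) := fun h => ha (congrArg Fin.val h)
      rw [if_neg this, if_neg ha]
  show ∑ a : Fin (t + 1), (if a = (⟨s, hs⟩ : Fin (t + 1)) then (0 : ℝ) else
      kap θ s a.val / Real.sqrt ((a.val : ℝ) + 1)) ≤ (1 / 2) / Real.sqrt ((s : ℝ) + 1)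
  rw [hconv, Finset.range_eq_Ico, ← Finset.sum_Ico_consecutive _ (Nat.zero_le (s + 1)) (by omega : s + 1 ≤ t + 1),
    Finset.sum_Ico_succ_top (Nat.zero_le s), if_pos rfl, add_zero]
  have hs1 : 0 < Real.sqrt ((s : ℝ) + 1) := Real.sqrt_pos.mpr (by positivity)
  have h22 : Real.sqrt 2 ≤ 1.4143 := by
    rw [show (1.4143 : ℝ) = Real.sqrt (1.4143 ^ 2) by rw [Real.sqrt_sq (by norm_num)]]
    exact Real.sqrt_le_sqrt (by norm_num)
  have h20 : 0 < Real.sqrt 2 := by positivity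
  have hfirst : ∑ a ∈ Finset.Ico 0 s, (if a = s then (0 : ℝ) else kap θ s a / Real.sqrt ((a : ℝ) + 1)) ≤
      4 * Real.sqrt 2 * θ / Real.sqrt ((s : ℝ) + 1) := by
    rcases Nat.eq_zero_or_pos s with hz | hz
    · subst hz
      simp
      positivity
    · have hsr : (1 : ℝ) ≤ s := by exact_mod_cast hz
      have hss : 0 < Real.sqrt (s : ℝ) := Real.sqrt_pos.mpr (by linarith)
      have e1 : ∑ a ∈ Finset.Ico 0 s, (if a = s then (0 : ℝ) else kap θ s a / Real.sqrt ((a : ℝ) + 1)) =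
          (2 * θ / s) * ∑ a ∈ Finset.range s, 1 / Real.sqrt ((a : ℝ) + 1) := by
        rw [Finset.mul_sum, ← Finset.range_eq_Ico]
        refine Finset.sum_congr rfl fun a ha => ?_
        have hlt := Finset.mem_range.mp ha
        rw [if_neg (by omega)]
        unfold kap
        rw [max_eq_left hlt.le]
        ring
      rw [e1]
      have e2 := sch_low s
      have e3 : (2 * θ / s) * ∑ a ∈ Finset.range s, 1 / Real.sqrt ((a : ℝ) + 1) ≤
          (2 * θ / s) * (2 * Real.sqrt s) := mul_le_mul_of_nonneg_left e2 (by positivity)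
      refine le_trans e3 ?_
      have e4 : (2 * θ / s) * (2 * Real.sqrt s) = 4 * θ / Real.sqrt s := by
        have : (s : ℝ) = Real.sqrt s * Real.sqrt s := (Real.mul_self_sqrt (by linarith)).symm
        field_simp
        nlinarith [this]
      rw [e4, div_le_div_iff₀ hss hs1]
      have e5 : Real.sqrt ((s : ℝ) + 1) ≤ Real.sqrt 2 * Real.sqrt (s : ℝ) := by
        rw [← Real.sqrt_mul (by norm_num)]
        exact Real.sqrt_le_sqrt (by linarith)
      have e6 := mul_le_mul_of_nonneg_left e5 (show 0 ≤ 4 * θ by linarith)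
      linarith
  have hsecond : ∑ a ∈ Finset.Ico (s + 1) (t + 1), (if a = s then (0 : ℝ) else
      kap θ s a / Real.sqrt ((a : ℝ) + 1)) ≤ 4 * Real.sqrt 2 * θ / Real.sqrt ((s : ℝ) + 1) := by
    have e1 : ∑ a ∈ Finset.Ico (s + 1) (t + 1), (if a = s then (0 : ℝ) else
        kap θ s a / Real.sqrt ((a : ℝ) + 1)) =
        (2 * θ) * ∑ a ∈ Finset.Ico (s + 1) (t + 1), 1 / ((a : ℝ) * Real.sqrt ((a : ℝ) + 1)) := by
      rw [Finset.mul_sum]
      refine Finset.sum_congr rfl fun a ha => ?_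
      have hlt := Finset.mem_Ico.mp ha
      rw [if_neg (by omega)]
      unfold kap
      rw [max_eq_right (by omega)]
      rw [div_div, mul_one_div]
    rw [e1]
    have e2 := sch_high s (t + 1) (by omega)
    have e3 : 0 ≤ 1 / Real.sqrt (((t + 1 : ℕ)) : ℝ) := by positivity
    have e4 : 2 * Real.sqrt 2 * (1 / Real.sqrt ((s : ℝ) + 1) - 1 / Real.sqrt (((t + 1 : ℕ)) : ℝ)) ≤
        2 * Real.sqrt 2 * (1 / Real.sqrt ((s : ℝ) + 1)) :=
      mul_le_mul_of_nonneg_left (by linarith) (by positivity)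
    have e5 := mul_le_mul_of_nonneg_left (le_trans e2 e4) (show 0 ≤ 2 * θ by linarith)
    refine le_trans e5 (le_of_eq ?_)
    ring
  have hfin : 4 * Real.sqrt 2 * θ / Real.sqrt ((s : ℝ) + 1) + 4 * Real.sqrt 2 * θ / Real.sqrt ((s : ℝ) + 1) ≤
      (1 / 2) / Real.sqrt ((s : ℝ) + 1) := by
    rw [← add_div]
    apply div_le_div_of_nonneg_right _ hs1.le
    nlinarith
  linarith

end Pool.Agent.T6.H1.CT
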