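import Pool.Agent.T6.H1.CT.Defs

/-! # Project CT, module SEQ (helper82) -/

set_option autoImplicit false

namespace Pool.Agent.T6.H1.CT

open Classical

namespace SEQx

/-- the sum over the sequences which start at `a` -/
noncomputable def SS {V : Type} [Fintype V] (K : V → V → ℝ) (w : V → ℝ) (r : ℕ) (a : V) : ℝ :=
  ∑ p : Fin (r + 1) → V, (if p 0 = a then
    (∏ i : Fin r, K (p i.castSucc) (p i.succ)) * w (p (Fin.last r)) else 0)

lemma SS_zero {V : Type} [Fintype V] (K : V → V → ℝ) (w : V → ℝ) (a : V) : SS K w 0 a = w a := by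
  unfold SS
  rw [Fintype.sum_equiv (Equiv.funUnique (Fin 1) V) _ (fun x => if x = a then w x else 0)]
  · simp
  · intro p
    have : (Equiv.funUnique (Fin 1) V) p = p 0 := rfl
    rw [this]
    simp

lemma SS_succ {V : Type} [Fintype V] (K : V → V → ℝ) (w : V → ℝ) (r : ℕ) (a : V) :
    SS K w (r + 1) a = ∑ b, K a b * SS K w r b := by
  have h1 : SS K w (r + 1) a = ∑ q : Fin (r + 1) → V,
      K a (q 0) * ((∏ i : Fin r, K (q i.castSucc) (q i.succ)) * w (q (Fin.last r))) := by
    unfold SS
    rw [← Fintype.sum_equiv (Fin.consEquiv (fun _ : Fin (r + 2) => V))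
      (fun x : V × (Fin (r + 1) → V) => if x.1 = a then
        K x.1 (x.2 0) * ((∏ i : Fin r, K (x.2 i.castSucc) (x.2 i.succ)) * w (x.2 (Fin.last r)))
        else 0)]
    · rw [Fintype.sum_prod_type, Finset.sum_eq_single_of_mem a (Finset.mem_univ a)]
      · simp
      · intro b _ hb
        simp [hb]
    · rintro ⟨x, q⟩
      have e : (Fin.consEquiv (fun _ : Fin (r + 2) => V)) (x, q) = Fin.cons x q := rfl
      rw [e]
      simp only [Fin.cons_zero]
      by_cases hx : x = a
      · rw [if_pos hx, if_pos hx, Fin.prod_univ_succ]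
        have e2 : (Fin.last (r + 1) : Fin (r + 2)) = (Fin.last r).succ := (Fin.succ_last r).symm
        rw [e2]
        simp only [Fin.castSucc_zero, Fin.cons_zero, Fin.cons_succ, ← Fin.succ_castSucc]
        rw [mul_assoc]
      · rw [if_neg hx, if_neg hx]
  rw [h1]
  unfold SS
  simp only [Finset.mul_sum]
  rw [Finset.sum_comm]
  refine Finset.sum_congr rfl fun q _ => ?_
  rw [Finset.sum_eq_single_of_mem (q 0) (Finset.mem_univ _)]
  · rw [if_pos rfl]
  · intro b _ hb
    rw [if_neg (Ne.symm hb), mul_zero]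

end SEQx

open SEQx in
theorem tSEQ : StmSEQ := by
  intro V _ K w l hK hw hl h r
  have key : ∀ a, SS K w r a ≤ l ^ r * w a := by
    induction r with
    | zero => intro a; rw [SS_zero, pow_zero, one_mul]
    | succ r ih =>
      intro a
      rw [SS_succ]
      calc ∑ b, K a b * SS K w r b ≤ ∑ b, K a b * (l ^ r * w b) :=
            Finset.sum_le_sum fun b _ => mul_le_mul_of_nonneg_left (ih b) (hK a b)
        _ = l ^ r * ∑ b, K a b * w b := by
            rw [Finset.mul_sum]
            exact Finset.sum_congr rfl fun b _ => by ring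
        _ ≤ l ^ r * (l * w a) := mul_le_mul_of_nonneg_left (h a) (pow_nonneg hl r)
        _ = l ^ (r + 1) * w a := by ring
  exact key

end Pool.Agent.T6.H1.CT
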