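import Pool.Agent.T6.H1.CT.Defs

/-! # Project CT, module SNO (helper82) -/

set_option autoImplicit false

namespace Pool.Agent.T6.H1.CT

open Classical

namespace SNOx

/-- the relation of the edges of the tree -/
def TT {m : ℕ} (ω : Cfg m) (v w : Node m) : Prop :=
  (v = (0, false) ∧ w = (0, true)) ∨ ∃ (k : Fin m) (τ : Bool), v = (k.succ, τ) ∧ w = par ω k τ

lemma tree_adj {m : ℕ} (ω : Cfg m) (v w : Node m) :
    (tree ω).Adj v w ↔ v ≠ w ∧ (TT ω v w ∨ TT ω w v) := SimpleGraph.fromRel_adj _ _ _

/-- the map of the nodes -/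
def FF (t : ℕ) : Node t ⊕ Bool → Node (t + 1) :=
  Sum.elim (fun p => (p.1.castSucc, p.2)) (fun τ => (Fin.last (t + 1), τ))

lemma FF_inl {t : ℕ} (a : Node t) : FF t (Sum.inl a) = (a.1.castSucc, a.2) := rfl

lemma FF_inr {t : ℕ} (τ : Bool) : FF t (Sum.inr τ) = (Fin.last (t + 1), τ) := rfl

lemma FF_inj (t : ℕ) : Function.Injective (FF t) := by
  intro x y h
  rcases x with a | i <;> rcases y with b | j
  · rw [FF_inl, FF_inl, Prod.mk.injEq] at h
    rw [Sum.inl.injEq]
    exact Prod.ext (Fin.castSucc_injective _ h.1) h.2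
  · rw [FF_inl, FF_inr, Prod.mk.injEq] at h
    exact absurd h.1 (Fin.castSucc_lt_last _).ne
  · rw [FF_inl, FF_inr, Prod.mk.injEq] at h
    exact absurd h.1.symm (Fin.castSucc_lt_last _).ne
  · rw [FF_inr, FF_inr, Prod.mk.injEq] at h
    rw [h.2]

lemma FF_surj (t : ℕ) : Function.Surjective (FF t) := by
  rintro ⟨s, τ⟩
  induction s using Fin.lastCases with
  | last => exact ⟨Sum.inr τ, rfl⟩
  | cast i => exact ⟨Sum.inl (i, τ), rfl⟩

variable {t : ℕ} (ω : Cfg t) (z : Bool → Node t) (S : Cfg (t + 1))

lemma relA (h1 : ∀ k : Fin t, S k.castSucc = ω k) (a b : Node t) :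
    TT S (FF t (Sum.inl a)) (FF t (Sum.inl b)) ↔ TT ω a b := by
  rw [FF_inl, FF_inl]
  unfold TT
  refine or_congr ?_ ?_
  · constructor
    · rintro ⟨h, h'⟩
      rw [Prod.mk.injEq] at h h'
      refine ⟨Prod.ext (Fin.ext ?_) h.2, Prod.ext (Fin.ext ?_) h'.2⟩
      · have := congrArg Fin.val h.1; simpa using this
      · have := congrArg Fin.val h'.1; simpa using this
    · rintro ⟨rfl, rfl⟩
      exact ⟨rfl, rfl⟩
  · constructor
    · rintro ⟨k, τ, h, h'⟩
      rw [Prod.mk.injEq] at h
      have hk : k.val + 1 = a.1.val := by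
        have := congrArg Fin.val h.1
        simp at this
        omega
      have hkt : k.val < t := by have := a.1.isLt; omega
      have ek : k = Fin.castSucc ⟨k.val, hkt⟩ := Fin.ext rfl
      refine ⟨⟨k.val, hkt⟩, τ, Prod.ext (Fin.ext ?_) h.2, ?_⟩
      · simpa using hk.symm
      · rw [ek] at h'
        have e := h1 ⟨k.val, hkt⟩
        unfold par at h' ⊢
        rw [Prod.mk.injEq, Fin.ext_iff] at h'
        refine Prod.ext (Fin.ext ?_) ?_
        · have h'' := h'.1
          simp only [Fin.val_castSucc] at h''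
          rw [h'']
          have := congrArg (fun g : Bool → Fin (k.val + 1) × Bool => (g τ).1.val) e
          exact this
        · rw [h'.2]
          have := congrArg (fun g : Bool → Fin (k.val + 1) × Bool => (g τ).2) e
          exact this
    · rintro ⟨k, τ, rfl, rfl⟩
      refine ⟨k.castSucc, τ, rfl, ?_⟩
      have e := h1 k
      unfold par
      refine Prod.ext (Fin.ext ?_) ?_
      · have := congrArg (fun g : Bool → Fin (k.val + 1) × Bool => (g τ).1.val) e
        exact this.symm
      · have := congrArg (fun g : Bool → Fin (k.val + 1) × Bool => (g τ).2) e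
        exact this.symm

lemma par_last (h2 : S (Fin.last t) = z) (τ : Bool) :
    par S (Fin.last t) τ = FF t (Sum.inl (z τ)) := by
  rw [FF_inl]
  unfold par
  refine Prod.ext (Fin.ext ?_) ?_
  · have := congrArg (fun g : Bool → Fin (t + 1) × Bool => (g τ).1.val) h2
    exact this
  · have := congrArg (fun g : Bool → Fin (t + 1) × Bool => (g τ).2) h2
    exact this

lemma relB (h2 : S (Fin.last t) = z) (τ : Bool) (x : Node t ⊕ Bool) :
    TT S (FF t (Sum.inr τ)) (FF t x) ↔ x = Sum.inl (z τ) := by
  rw [FF_inr]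
  unfold TT
  constructor
  · rintro (⟨h, _⟩ | ⟨k, τ', h, h'⟩)
    · rw [Prod.mk.injEq] at h
      have := congrArg Fin.val h.1
      simp at this
    · rw [Prod.mk.injEq] at h
      obtain ⟨h3, rfl⟩ := h
      have hk : k = Fin.last t := by
        apply Fin.ext
        have := congrArg Fin.val h3
        simp at this
        simp
        omega
      subst hk
      rw [par_last z S h2] at h'
      exact FF_inj t h'
  · rintro rfl
    right
    exact ⟨Fin.last t, τ, rfl, (par_last z S h2 τ).symm⟩

lemma relC (a : Node t) (τ : Bool) : ¬ TT S (FF t (Sum.inl a)) (FF t (Sum.inr τ)) := by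
  rw [FF_inr]
  unfold TT
  rintro (⟨_, h⟩ | ⟨k, τ', _, h⟩)
  · rw [Prod.mk.injEq] at h
    have := congrArg Fin.val h.1
    simp at this
  · unfold par at h
    rw [Prod.mk.injEq, Fin.ext_iff] at h
    have h1 := h.1
    simp only [Fin.val_last] at h1
    have h2 := (S k τ').1.isLt
    have h3 := k.isLt
    omega

lemma adj_iff (h1 : ∀ k : Fin t, S k.castSucc = ω k) (h2 : S (Fin.last t) = z)
    (v w : Node t ⊕ Bool) :
    (tree S).Adj (FF t v) (FF t w) ↔ (att (tree ω) fun τ => Sum.inl (z τ)).Adj v w := by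
  rw [tree_adj]
  unfold att
  rw [SimpleGraph.fromRel_adj]
  refine and_congr (FF_inj t).ne_iff ?_
  have key : ∀ v w : Node t ⊕ Bool, TT S (FF t v) (FF t w) →
      ((∃ a b, (tree ω).Adj a b ∧ v = Sum.inl a ∧ w = Sum.inl b) ∨
        ∃ i, v = Sum.inr i ∧ w = Sum.inl (z i)) ∨ v = w := by
    intro v w h
    rcases v with a | i
    · rcases w with b | j
      · rw [relA ω S h1] at h
        by_cases hab : a = b
        · right; rw [hab]
        · left; left
          exact ⟨a, b, (tree_adj ω a b).2 ⟨hab, Or.inl h⟩, rfl, rfl⟩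
      · exact absurd h (relC S a j)
    · rw [relB z S h2] at h
      left; right
      exact ⟨i, rfl, h⟩
  have key2 : ∀ v w : Node t ⊕ Bool, ((∃ a b, (tree ω).Adj a b ∧ v = Sum.inl a ∧ w = Sum.inl b) ∨
        ∃ i, v = Sum.inr i ∧ w = Sum.inl (z i)) → TT S (FF t v) (FF t w) ∨ TT S (FF t w) (FF t v) := by
    rintro v w (⟨a, b, h, rfl, rfl⟩ | ⟨i, rfl, h⟩)
    · rw [relA ω S h1, relA ω S h1]
      exact ((tree_adj ω a b).1 h).2
    · left
      rw [relB z S h2]
      exact h
  by_cases hvw : v = w
  · subst hvw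
    constructor
    · rintro (h | h) <;>
      · rcases v with a | i
        · rw [relA ω S h1] at h
          exfalso
          rcases h with ⟨h, h'⟩ | ⟨k, τ, h, h'⟩
          · rw [h] at h'
            simp at h'
          · rw [h] at h'
            unfold par at h'
            rw [Prod.mk.injEq, Fin.ext_iff] at h'
            have h3 := h'.1
            simp only [Fin.val_succ] at h3
            have h4 := (ω k τ).1.isLt
            omega
        · rw [relB z S h2] at h
          simp at h
    · rintro (h | h)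
      · exact key2 v v h
      · exact key2 v v h
  · constructor
    · rintro (h | h)
      · exact Or.inl ((key v w h).resolve_right hvw)
      · exact Or.inr ((key w v h).resolve_right (Ne.symm hvw))
    · rintro (h | h)
      · exact key2 v w h
      · exact (key2 w v h).symm

end SNOx

open SNOx in
theorem tSNO : StmSNO := by
  intro h hh t ω z
  unfold ev ev2
  set S : Cfg (t + 1) :=
    Fin.snoc (α := fun k : Fin (t + 1) => Bool → Fin (k.val + 1) × Bool) ω z with hS
  have h1 : ∀ k : Fin t, S k.castSucc = ω k := fun k =>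
    Fin.snoc_castSucc (α := fun k : Fin (t + 1) => Bool → Fin (k.val + 1) × Bool) z ω k
  have h2 : S (Fin.last t) = z :=
    Fin.snoc_last (α := fun k : Fin (t + 1) => Bool → Fin (k.val + 1) × Bool) z ω
  let ψ : (att (tree ω) fun τ => Sum.inl (z τ)) ≃g tree S :=
    ⟨Equiv.ofBijective (FF t) ⟨FF_inj t, FF_surj t⟩, fun {v w} => adj_iff ω z S h1 h2 v w⟩
  refine (hh.2 _ _ _ _ _ _ ψ ?_).symm
  intro x
  have e : ψ x = FF t x := rfl
  rw [e]
  unfold rt
  rcases x with a | i
  · rw [FF_inl]
    constructor
    · intro h3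
      refine ⟨a, ?_, rfl⟩
      have h4 : a.1.castSucc = 0 := h3
      have := congrArg Fin.val h4
      exact Fin.ext (by simpa using this)
    · rintro ⟨b, hb, hb'⟩
      rw [Sum.inl.injEq] at hb'
      subst hb'
      have h4 : b.1 = 0 := hb
      show b.1.castSucc = 0
      rw [h4]
      rfl
  · rw [FF_inr]
    constructor
    · intro h3
      have h4 : Fin.last (t + 1) = 0 := h3
      have := congrArg Fin.val h4
      simp at this
    · rintro ⟨b, _, hb'⟩
      simp at hb'

end Pool.Agent.T6.H1.CT
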