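import Pool.Agent.T6.H1.CT.Defs

/-!
# Project CT, module SPL: splitting into pattern and positions
-/

set_option autoImplicit false

namespace Pool.Agent.T6.H1.CT

open Classical

theorem spl_sum {α : Type} [Fintype α] [Nonempty α] {j : ℕ} (i : Lf j) (z : α ⊕ Lf j) :
    ∑ x : Option (Lf j) × α,
      (if x.1.elim (Sum.inl x.2) Sum.inr = z then
        (x.1.elim ((Fintype.card α : ℝ) / ((Fintype.card α : ℝ) + 2 * (i.1.val : ℝ)))
          (fun i' => if i'.1 < i.1 then 1 / ((Fintype.card α : ℝ) + 2 * (i.1.val : ℝ)) else 0)) /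
          (Fintype.card α : ℝ) else 0) =
    Sum.elim (fun _ : α => 1 / ((Fintype.card α : ℝ) + 2 * (i.1.val : ℝ)))
      (fun i' : Lf j => if i'.1 < i.1 then 1 / ((Fintype.card α : ℝ) + 2 * (i.1.val : ℝ)) else 0)
      z := by
  have hN : (0 : ℝ) < (Fintype.card α : ℝ) := by exact_mod_cast Fintype.card_pos
  rw [Fintype.sum_prod_type, Fintype.sum_option]
  rcases z with a | l
  · simp only [Option.elim_none, Option.elim_some, Sum.inl.injEq, reduceCtorEq, if_false,
      Finset.sum_const_zero, add_zero, Sum.elim_inl]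
    rw [Finset.sum_ite_eq' Finset.univ a]
    rw [if_pos (Finset.mem_univ a)]
    have h2 : (0 : ℝ) < (Fintype.card α : ℝ) + 2 * (i.1.val : ℝ) := by positivity
    field_simp
  · simp only [Option.elim_none, Option.elim_some, Sum.inr.injEq, reduceCtorEq, if_false,
      Finset.sum_const_zero, zero_add, Sum.elim_inr]
    rw [Finset.sum_eq_single l]
    · simp only [if_true, Finset.sum_const, Finset.card_univ, nsmul_eq_mul]
      field_simp
    · intro b _ hb
      simp [hb]
    · intro h
      exact absurd (Finset.mem_univ l) h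

theorem spl_key {α : Type} [Fintype α] [Nonempty α] {j : ℕ} (z : Lf j → α ⊕ Lf j) :
    wz (Fintype.card α : ℝ) j z = ∑ π : Lf j → Option (Lf j), ∑ y : Lf j → α,
      if zof π y = z then pw (Fintype.card α : ℝ) π / (Fintype.card α : ℝ) ^ (2 * (j + 1))
        else 0 := by
  unfold wz
  rw [← Finset.prod_congr rfl (fun i _ => spl_sum i (z i)), Finset.prod_univ_sum,
    Fintype.piFinset_univ,
    ← Fintype.sum_prod_type' (f := fun (π : Lf j → Option (Lf j)) (y : Lf j → α) =>
      if zof π y = z then pw (Fintype.card α : ℝ) π / (Fintype.card α : ℝ) ^ (2 * (j + 1))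
        else 0)]
  refine Fintype.sum_equiv (Equiv.arrowProdEquivProdArrow (Lf j) (fun _ => Option (Lf j))
    (fun _ => α)) _ _ fun p => ?_
  simp only [Equiv.arrowProdEquivProdArrow_apply]
  rw [Finset.prod_ite_zero]
  have hiff : (∀ i ∈ (Finset.univ : Finset (Lf j)),
      (p i).1.elim (Sum.inl (p i).2) Sum.inr = z i) ↔
      zof (fun i => (p i).1) (fun i => (p i).2) = z := by
    rw [funext_iff]
    simp [zof]
  by_cases hz : zof (fun i => (p i).1) (fun i => (p i).2) = z
  · rw [if_pos hz, if_pos (hiff.2 hz), Finset.prod_div_distrib]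
    congr 1
    rw [Finset.prod_const, Finset.card_univ]
    congr 1
    simp [Lf]
    ring
  · rw [if_neg hz, if_neg (fun h => hz (hiff.1 h))]

theorem tSPL : StmSPL := by
  intro α _ _ j F
  calc ∑ z : Lf j → α ⊕ Lf j, wz (Fintype.card α : ℝ) j z * F z
      = ∑ z : Lf j → α ⊕ Lf j, ∑ π : Lf j → Option (Lf j), ∑ y : Lf j → α,
        (if zof π y = z then pw (Fintype.card α : ℝ) π / (Fintype.card α : ℝ) ^ (2 * (j + 1)) *
          F z else 0) := by
        refine Finset.sum_congr rfl fun z _ => ?_
        rw [spl_key z, Finset.sum_mul]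
        refine Finset.sum_congr rfl fun π _ => ?_
        rw [Finset.sum_mul]
        refine Finset.sum_congr rfl fun y _ => ?_
        rw [ite_mul, zero_mul]
    _ = ∑ π : Lf j → Option (Lf j), ∑ y : Lf j → α, ∑ z : Lf j → α ⊕ Lf j,
        (if zof π y = z then pw (Fintype.card α : ℝ) π / (Fintype.card α : ℝ) ^ (2 * (j + 1)) *
          F z else 0) := by
        rw [Finset.sum_comm]
        refine Finset.sum_congr rfl fun π _ => ?_
        rw [Finset.sum_comm]
    _ = _ := by
        refine Finset.sum_congr rfl fun π _ => ?_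
        rw [Finset.sum_div, Finset.mul_sum]
        refine Finset.sum_congr rfl fun y _ => ?_
        rw [Finset.sum_ite_eq Finset.univ (zof π y), if_pos (Finset.mem_univ _)]
        ring

end Pool.Agent.T6.H1.CT
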