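import Pool.Agent.T6.H1.CT.Defs

/-! # Project CT, module STP (helper82) -/

set_option autoImplicit false

namespace Pool.Agent.T6.H1.CT

open Classical

theorem tSTP (hIA : StmIA) : StmSTP := by
  intro h hh
  refine ⟨fun α G ρ => ⟨?_, ?_⟩, ?_⟩
  · unfold step
    exact div_nonneg (finsum_nonneg fun z => (hh.1 _ _ _).1) (sq_nonneg _)
  · rcases finite_or_infinite α with hf | hf
    · haveI := Fintype.ofFinite α
      rw [step_apply]
      refine div_le_one_of_le₀ ?_ (sq_nonneg _)
      calc ∑ z : Bool → α, h (α ⊕ Bool) (att G fun τ => Sum.inl (z τ)) (Sum.inl '' ρ)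
          ≤ ∑ _z : Bool → α, (1 : ℝ) := Finset.sum_le_sum fun z _ => (hh.1 _ _ _).2
        _ = (Fintype.card α : ℝ) ^ 2 := by
            rw [Finset.sum_const, Finset.card_univ, Fintype.card_fun, Fintype.card_bool]
            simp
    · unfold step
      rw [Nat.card_eq_zero_of_infinite]
      simp
  · intro α β G H ρ σ e he
    unfold step
    rw [Nat.card_congr e.toEquiv]
    congr 1
    rw [← finsum_comp_equiv (Equiv.arrowCongr (Equiv.refl Bool) e.toEquiv)]
    refine finsum_congr fun z => ?_
    obtain ⟨φ, h1, h2⟩ := hIA α β Bool Bool G H e (Equiv.refl Bool) (fun τ => Sum.inl (z τ))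
      (fun τ => Sum.inl ((Equiv.arrowCongr (Equiv.refl Bool) e.toEquiv) z τ)) (fun i => rfl)
    refine hh.2 _ _ _ _ _ _ φ ?_
    intro x
    rcases x with a | i
    · rw [h1]
      constructor
      · rintro ⟨b, hb, hb'⟩
        rw [Sum.inl.injEq] at hb'
        subst hb'
        exact ⟨a, (he a).1 hb, rfl⟩
      · rintro ⟨b, hb, hb'⟩
        rw [Sum.inl.injEq] at hb'
        subst hb'
        exact ⟨e b, (he b).2 hb, rfl⟩
    · rw [h2]
      simp

end Pool.Agent.T6.H1.CT
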