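import Pool.Agent.T6.H1.CT.Defs

/-!
# Project CT, module SYM: symmetry in the good leaves
-/

set_option autoImplicit false

namespace Pool.Agent.T6.H1.CT

open Classical

theorem sym_mem_gd {j : ℕ} (π : Lf j → Option (Lf j)) (i : Lf j) :
    i ∈ gd π ↔ π i = none ∧ ∀ i', π i' ≠ some i := by
  unfold gd
  simp

theorem sym_swap_mem {j : ℕ} (π : Lf j → Option (Lf j)) {a b : Lf j} (ha : a ∈ gd π)
    (hb : b ∈ gd π) (i : Lf j) : Equiv.swap a b i ∈ gd π ↔ i ∈ gd π := by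
  by_cases h1 : i = a
  · subst h1
    rw [Equiv.swap_apply_left]
    exact ⟨fun _ => ha, fun _ => hb⟩
  · by_cases h2 : i = b
    · subst h2
      rw [Equiv.swap_apply_right]
      exact ⟨fun _ => hb, fun _ => ha⟩
    · rw [Equiv.swap_apply_of_ne_of_ne h1 h2]

theorem sym_swap_fix {j : ℕ} (π : Lf j → Option (Lf j)) {a b : Lf j} (ha : a ∈ gd π)
    (hb : b ∈ gd π) (i : Lf j) (hi : i ∉ gd π) : Equiv.swap a b i = i := by
  refine Equiv.swap_apply_of_ne_of_ne ?_ ?_
  · rintro rfl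
    exact hi ha
  · rintro rfl
    exact hi hb

theorem sym_inv (hIA : StmIA) (h : Func) (hh : Good h) {α : Type} (G : SimpleGraph α)
    (ρ : Set α) {j : ℕ} (π : Lf j → Option (Lf j)) {a b : Lf j} (ha : a ∈ gd π)
    (hb : b ∈ gd π) (y : Lf j → α) :
    h (α ⊕ Lf j) (att G (zof π (fun i => y (Equiv.swap a b i)))) (Sum.inl '' ρ) =
      h (α ⊕ Lf j) (att G (zof π y)) (Sum.inl '' ρ) := by
  obtain ⟨φ, h1, h2⟩ := hIA α α (Lf j) (Lf j) G G SimpleGraph.Iso.refl (Equiv.swap a b)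
    (zof π (fun i => y (Equiv.swap a b i))) (zof π y) (fun i => by
      by_cases hi : i ∈ gd π
      · have hs : Equiv.swap a b i ∈ gd π := (sym_swap_mem π ha hb i).2 hi
        have e1 : π i = none := ((sym_mem_gd π i).1 hi).1
        have e2 : π (Equiv.swap a b i) = none := ((sym_mem_gd π _).1 hs).1
        simp only [zof, e1, e2, Option.elim_none, Sum.map_inl]
        rfl
      · have hs := sym_swap_fix π ha hb i hi
        simp only [zof, hs]
        rcases hπ : π i with _ | i'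
        · simp only [Option.elim_none, Sum.map_inl]
          rfl
        · have hi' : i' ∉ gd π := fun h' => ((sym_mem_gd π i').1 h').2 i hπ
          simp only [Option.elim_some, Sum.map_inr, sym_swap_fix π ha hb i' hi'])
  refine hh.2 _ _ _ _ _ _ φ fun x => ?_
  rcases x with x | x
  · rw [h1]
    simp
  · rw [h2]
    simp

theorem sym_step (hIA : StmIA) (h : Func) (hh : Good h) {α : Type} [Fintype α]
    (G : SimpleGraph α) (ρ : Set α) (c : α → α → ℝ) {j : ℕ} (π : Lf j → Option (Lf j))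
    {a b : Lf j} (ha : a ∈ gd π) (hb : b ∈ gd π) (i₁ i₂ : Lf j) :
    ∑ y : Lf j → α, c (y i₁) (y i₂) * h (α ⊕ Lf j) (att G (zof π y)) (Sum.inl '' ρ) =
    ∑ y : Lf j → α, c (y (Equiv.swap a b i₁)) (y (Equiv.swap a b i₂)) *
      h (α ⊕ Lf j) (att G (zof π y)) (Sum.inl '' ρ) := by
  rw [← (Equiv.arrowCongr (Equiv.swap a b) (Equiv.refl α)).sum_comp
    (fun y : Lf j → α => c (y i₁) (y i₂) * h (α ⊕ Lf j) (att G (zof π y)) (Sum.inl '' ρ))]
  refine Finset.sum_congr rfl fun y _ => ?_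
  have e : (Equiv.arrowCongr (Equiv.swap a b) (Equiv.refl α)) y =
      fun i => y (Equiv.swap a b i) := by
    funext i
    simp [Equiv.arrowCongr]
  rw [e, sym_inv hIA h hh G ρ π ha hb y]

theorem tSYM (hIA : StmIA) : StmSYM := by
  intro h hh α _ G ρ c j π i₁ i₂ l₁ l₂ hi₁ hi₂ hl₁ hl₂ hi hl
  rw [sym_step hIA h hh G ρ c π hi₁ hl₁ i₁ i₂, Equiv.swap_apply_left]
  have h2 : Equiv.swap i₁ l₁ i₂ ∈ gd π := (sym_swap_mem π hi₁ hl₁ i₂).2 hi₂
  have h3 : Equiv.swap i₁ l₁ i₂ ≠ l₁ := by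
    intro e
    have := (Equiv.swap i₁ l₁).injective (e.trans (Equiv.swap_apply_left i₁ l₁).symm)
    exact hi this.symm
  rw [sym_step hIA h hh G ρ c π h2 hl₂ l₁ (Equiv.swap i₁ l₁ i₂), Equiv.swap_apply_left,
    Equiv.swap_apply_of_ne_of_ne (Ne.symm h3) hl]

end Pool.Agent.T6.H1.CT
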