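import Pool.Agent.T6.H1.CT.Defs

/-!
# Project CT, module TEL: telescoping
-/

set_option autoImplicit false

namespace Pool.Agent.T6.H1.CT

open Classical

theorem tel_good_iter (hSTP : StmSTP) (h : Func) (hh : Good h) (n : ℕ) : Good (step^[n] h) := by
  induction n with
  | zero => exact hh
  | succ n ih => rw [Function.iterate_succ_apply']; exact hSTP _ ih

/-- one more step of a configuration -/
def tsn {t : ℕ} (ω : Cfg t) (z : Bool → Node t) : Cfg (t + 1) :=
  Fin.snoc (α := fun k : Fin (t + 1) => Bool → Fin (k.val + 1) × Bool) ω z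

theorem tel_sum_snoc {t : ℕ} (F : Cfg (t + 1) → ℝ) :
    ∑ ω : Cfg (t + 1), F ω = ∑ ω : Cfg t, ∑ z : Bool → Node t, F (tsn ω z) := by
  rw [← (Fin.snocEquiv (fun k : Fin (t + 1) => Bool → Fin (k.val + 1) × Bool)).sum_comp F,
    Fintype.sum_prod_type_right]
  rfl

theorem tel_mu_snoc {t : ℕ} (θ : ℝ) (ω : Cfg t) (z : Bool → Node t) :
    mu θ (tsn ω z) = mu θ ω * ((1 + θ * sg (z true).2) * (1 - θ * sg (z false).2) /
      (2 * ((t : ℝ) + 1)) ^ 2) := by
  unfold mu
  rw [Fin.prod_univ_castSucc]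
  have h1 : ∀ k : Fin t, tsn ω z k.castSucc = ω k := fun k => by
    unfold tsn
    exact Fin.snoc_castSucc (α := fun k : Fin (t + 1) => Bool → Fin (k.val + 1) × Bool) z ω k
  have h2 : tsn ω z (Fin.last t) = z := by
    unfold tsn
    exact Fin.snoc_last (α := fun k : Fin (t + 1) => Bool → Fin (k.val + 1) × Bool) z ω
  congr 1
  · refine Finset.prod_congr rfl fun k _ => ?_
    refine Finset.prod_congr rfl fun τ _ => ?_
    rw [h1]
    rfl
  · rw [Fintype.prod_bool, h2]
    have e1 : sg true = 1 := rfl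
    have e2 : sg false = -1 := rfl
    rw [e1, e2, div_mul_div_comm]
    congr 1
    · ring
    · simp only [Fin.val_last]
      ring

theorem tel_ev_step {t : ℕ} (g : Func) (ω : Cfg t) :
    ev (step g) ω = (∑ z : Bool → Node t, ev2 g ω z) / (2 * ((t : ℝ) + 1)) ^ 2 := by
  unfold ev ev2
  rw [step_apply]
  congr 1
  simp [Node, Fintype.card_prod]
  ring

theorem tel_swap (hIA : StmIA) {t : ℕ} (g : Func) (hg : Good g) (ω : Cfg t) (z : Bool → Node t) :
    ev2 g ω (fun b => z (!b)) = ev2 g ω z := by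
  obtain ⟨φ, h1, h2⟩ := hIA (Node t) (Node t) Bool Bool (tree ω) (tree ω) (SimpleGraph.Iso.refl)
    Equiv.boolNot (fun τ => Sum.inl (z (!τ))) (fun τ => Sum.inl (z τ)) (fun i => by
      simp [Equiv.boolNot])
  unfold ev2
  refine hg.2 _ _ _ _ _ _ φ fun a => ?_
  rcases a with a | a
  · rw [h1]
    simp
  · rw [h2]
    simp

theorem tel_lin (hIA : StmIA) {t : ℕ} (g : Func) (hg : Good g) (ω : Cfg t) :
    ∑ z : Bool → Node t, (sg (z true).2 - sg (z false).2) * ev2 g ω z = 0 := by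
  have h := (Equiv.arrowCongr Equiv.boolNot (Equiv.refl (Node t))).sum_comp
    (fun z : Bool → Node t => (sg (z true).2 - sg (z false).2) * ev2 g ω z)
  have h2 : ∀ z : Bool → Node t,
      (Equiv.arrowCongr Equiv.boolNot (Equiv.refl (Node t))) z = fun b => z (!b) := by
    intro z
    funext b
    cases b <;> rfl
  simp only [h2, tel_swap hIA g hg ω] at h
  simp only [Bool.not_true, Bool.not_false] at h
  have h3 : ∑ z : Bool → Node t, (sg (z false).2 - sg (z true).2) * ev2 g ω z =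
      - ∑ z : Bool → Node t, (sg (z true).2 - sg (z false).2) * ev2 g ω z := by
    rw [← Finset.sum_neg_distrib]
    exact Finset.sum_congr rfl fun z _ => by ring
  linarith

theorem tel_diff (hIA : StmIA) (hSNO : StmSNO) {t : ℕ} (g : Func) (hg : Good g)
    (θ : ℝ) :
    ∑ ω : Cfg (t + 1), mu θ ω * ev g ω - ∑ ω : Cfg t, mu θ ω * ev (step g) ω =
      (- θ ^ 2) * ∑ ω : Cfg t, mu θ ω *
      ((∑ u : Bool → Node t, sg (u true).2 * sg (u false).2 * ev2 g ω u) /
        (2 * ((t : ℝ) + 1)) ^ 2) := by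
  rw [tel_sum_snoc, ← Finset.sum_sub_distrib, Finset.mul_sum]
  refine Finset.sum_congr rfl fun ω _ => ?_
  have h1 : ∀ z : Bool → Node t, mu θ (tsn ω z) * ev g (tsn ω z) =
      mu θ ω * (((1 + θ * sg (z true).2) * (1 - θ * sg (z false).2) /
      (2 * ((t : ℝ) + 1)) ^ 2) * ev2 g ω z) := by
    intro z
    rw [tel_mu_snoc, mul_assoc]
    congr 2
    exact hSNO g hg t ω z
  simp only [h1]
  rw [← Finset.mul_sum, tel_ev_step, ← mul_sub]
  have h2 : ∑ z : Bool → Node t, ((1 + θ * sg (z true).2) * (1 - θ * sg (z false).2) /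
      (2 * ((t : ℝ) + 1)) ^ 2) * ev2 g ω z =
      (∑ z : Bool → Node t, ev2 g ω z +
        θ * ∑ z : Bool → Node t, (sg (z true).2 - sg (z false).2) * ev2 g ω z +
        (- θ ^ 2) * ∑ u : Bool → Node t, sg (u true).2 * sg (u false).2 * ev2 g ω u) /
        (2 * ((t : ℝ) + 1)) ^ 2 := by
    rw [Finset.mul_sum, Finset.mul_sum, ← Finset.sum_add_distrib, ← Finset.sum_add_distrib,
      Finset.sum_div]
    exact Finset.sum_congr rfl fun z _ => by ring
  rw [h2, tel_lin hIA g hg]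
  ring

theorem tTEL (hIA : StmIA) (hSTP : StmSTP) (hSNO : StmSNO) : StmTEL := by
  intro h hh θ m
  have key : ∀ θ : ℝ, ∑ ω : Cfg m, mu θ ω * ev h ω - ∑ ω : Cfg 0, mu θ ω * ev (step^[m] h) ω =
    ∑ t ∈ Finset.range m, (- θ ^ 2) * ∑ ω : Cfg t, mu θ ω *
      ((∑ u : Bool → Node t, sg (u true).2 * sg (u false).2 * ev2 (step^[m - 1 - t] h) ω u) /
        (2 * ((t : ℝ) + 1)) ^ 2) := by
    intro θ
    have h1 := Finset.sum_range_sub (fun t => ∑ ω : Cfg t, mu θ ω * ev (step^[m - t] h) ω) m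
    simp only [Nat.sub_self, Nat.sub_zero, Function.iterate_zero, id_eq] at h1
    rw [← h1]
    refine Finset.sum_congr rfl fun t ht => ?_
    have ht' : t < m := Finset.mem_range.1 ht
    have e1 : m - (t + 1) = m - 1 - t := by omega
    have e2 : m - t = (m - 1 - t) + 1 := by omega
    rw [e1, e2, Function.iterate_succ_apply']
    exact tel_diff hIA hSNO _ (tel_good_iter hSTP h hh _) θ
  have k1 := key θ
  have k0 := key 0
  have e0 : ∑ t ∈ Finset.range m, (- (0 : ℝ) ^ 2) * ∑ ω : Cfg t, mu 0 ω *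
      ((∑ u : Bool → Node t, sg (u true).2 * sg (u false).2 * ev2 (step^[m - 1 - t] h) ω u) /
        (2 * ((t : ℝ) + 1)) ^ 2) = 0 := by
    refine Finset.sum_eq_zero fun t _ => ?_
    simp
  have e1 : ∑ ω : Cfg 0, mu θ ω * ev (step^[m] h) ω = ∑ ω : Cfg 0, mu 0 ω * ev (step^[m] h) ω := by
    refine Finset.sum_congr rfl fun ω _ => ?_
    simp [mu]
  rw [e0] at k0
  rw [← k1, e1]
  linarith

end Pool.Agent.T6.H1.CT
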