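import Pool.Agent.T6.H1.CT.Defs

/-! # Module UNR: all later steps together -/

set_option autoImplicit false

namespace Pool.Agent.T6.H1.CT

open Classical

namespace UNRx

variable {α : Type} {j : ℕ}

/-- old leaves as leaves of one more step -/
def emb (x : α ⊕ Lf j) : α ⊕ Lf (j + 1) := Sum.map id (fun i : Lf j => (i.1.castSucc, i.2)) x

lemma emb_inj : Function.Injective (emb (α := α) (j := j)) := by
  apply Function.Injective.sumMap Function.injective_id
  intro a b hab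
  simp only [Prod.mk.injEq] at hab
  exact Prod.ext (Fin.castSucc_injective _ hab.1) hab.2

/-- all attachments from the old ones and the last ones -/
def Psi (p : (Lf j → α ⊕ Lf j) × (Bool → α ⊕ Lf j)) (i : Lf (j + 1)) : α ⊕ Lf (j + 1) :=
  Fin.lastCases (motive := fun _ => Bool → α ⊕ Lf (j + 1)) (fun τ => emb (p.2 τ))
    (fun r τ => emb (p.1 (r, τ))) i.1 i.2

lemma Psi_last (p : (Lf j → α ⊕ Lf j) × (Bool → α ⊕ Lf j)) (τ : Bool) :
    Psi p (Fin.last (j + 1), τ) = emb (p.2 τ) := by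
  simp [Psi]

lemma Psi_cs (p : (Lf j → α ⊕ Lf j) × (Bool → α ⊕ Lf j)) (i : Lf j) :
    Psi p (i.1.castSucc, i.2) = emb (p.1 i) := by
  simp [Psi]

lemma Psi_inj : Function.Injective (Psi (α := α) (j := j)) := by
  intro p q h
  have h1 : p.1 = q.1 := by
    funext i
    apply emb_inj
    rw [← Psi_cs, ← Psi_cs, h]
  have h2 : p.2 = q.2 := by
    funext τ
    apply emb_inj
    rw [← Psi_last, ← Psi_last, h]
  exact Prod.ext h1 h2

/-- the vertices of the two steps -/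
def EE (x : (α ⊕ Lf j) ⊕ Bool) : α ⊕ Lf (j + 1) :=
  Sum.elim emb (fun τ => Sum.inr (Fin.last (j + 1), τ)) x

lemma emb_ne (x : α ⊕ Lf j) (τ : Bool) : emb x ≠ Sum.inr (Fin.last (j + 1), τ) := by
  rcases x with a | i
  · simp [emb]
  · intro h
    simp only [emb, Sum.map_inr, Sum.inr.injEq, Prod.mk.injEq] at h
    exact (Fin.castSucc_lt_last i.1).ne h.1

lemma EE_bij : Function.Bijective (EE (α := α) (j := j)) := by
  constructor
  · rintro (x | τ) (y | τ') h
    · exact congrArg Sum.inl (emb_inj h)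
    · exact absurd h (emb_ne x τ')
    · exact absurd h.symm (emb_ne y τ)
    · simp only [EE, Sum.elim_inr, Sum.inr.injEq, Prod.mk.injEq, true_and] at h
      rw [h]
  · rintro (a | ⟨r, τ⟩)
    · exact ⟨Sum.inl (Sum.inl a), rfl⟩
    · induction r using Fin.lastCases with
      | last => exact ⟨Sum.inr τ, rfl⟩
      | cast r => exact ⟨Sum.inl (Sum.inr (r, τ)), rfl⟩

lemma fwd (G : SimpleGraph α) (z : Lf j → α ⊕ Lf j) (v : Bool → α ⊕ Lf j)
    (x y : (α ⊕ Lf j) ⊕ Bool) (h : (att (att G z) fun τ => Sum.inl (v τ)).Adj x y) :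
    (att G (Psi (z, v))).Adj (EE x) (EE y) := by
  unfold att at h ⊢
  rw [SimpleGraph.fromRel_adj] at h ⊢
  obtain ⟨hne, h⟩ := h
  refine ⟨fun h' => hne (EE_bij.1 h'), ?_⟩
  have key : ∀ x y : (α ⊕ Lf j) ⊕ Bool,
      ((∃ a b, (SimpleGraph.fromRel fun v w =>
        (∃ a b, G.Adj a b ∧ v = Sum.inl a ∧ w = Sum.inl b) ∨ ∃ i, v = Sum.inr i ∧ w = z i).Adj a b ∧
        x = Sum.inl a ∧ y = Sum.inl b) ∨ ∃ i, x = Sum.inr i ∧ y = Sum.inl (v i)) →
      ((∃ a b, G.Adj a b ∧ EE x = Sum.inl a ∧ EE y = Sum.inl b) ∨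
        ∃ i, EE x = Sum.inr i ∧ EE y = Psi (z, v) i) ∨
      ((∃ a b, G.Adj a b ∧ EE y = Sum.inl a ∧ EE x = Sum.inl b) ∨
        ∃ i, EE y = Sum.inr i ∧ EE x = Psi (z, v) i) := by
    rintro x y (⟨p, q, hpq, rfl, rfl⟩ | ⟨τ, rfl, rfl⟩)
    · rw [SimpleGraph.fromRel_adj] at hpq
      obtain ⟨_, (⟨a, b, hab, rfl, rfl⟩ | ⟨i, rfl, rfl⟩) | (⟨a, b, hab, rfl, rfl⟩ | ⟨i, rfl, rfl⟩)⟩ :=
        hpq
      · exact Or.inl (Or.inl ⟨a, b, hab, rfl, rfl⟩)
      · exact Or.inl (Or.inr ⟨(i.1.castSucc, i.2), rfl, (Psi_cs (z, v) i).symm⟩)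
      · exact Or.inr (Or.inl ⟨a, b, hab, rfl, rfl⟩)
      · exact Or.inr (Or.inr ⟨(i.1.castSucc, i.2), rfl, (Psi_cs (z, v) i).symm⟩)
    · exact Or.inl (Or.inr ⟨(Fin.last (j + 1), τ), rfl, (Psi_last (z, v) τ).symm⟩)
  rcases h with h | h
  · exact key x y h
  · exact (key y x h).symm

lemma bwd (G : SimpleGraph α) (z : Lf j → α ⊕ Lf j) (v : Bool → α ⊕ Lf j)
    (x y : (α ⊕ Lf j) ⊕ Bool) (h : (att G (Psi (z, v))).Adj (EE x) (EE y)) :
    (att (att G z) fun τ => Sum.inl (v τ)).Adj x y := by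
  unfold att at h
  rw [SimpleGraph.fromRel_adj] at h
  obtain ⟨hne, h⟩ := h
  have key : ∀ x y : (α ⊕ Lf j) ⊕ Bool, x ≠ y →
      ((∃ a b, G.Adj a b ∧ EE x = Sum.inl a ∧ EE y = Sum.inl b) ∨
        ∃ i, EE x = Sum.inr i ∧ EE y = Psi (z, v) i) →
      (att (att G z) fun τ => Sum.inl (v τ)).Adj x y := by
    rintro x y hxy (⟨a, b, hab, hx, hy⟩ | ⟨⟨r, τ⟩, hx, hy⟩)
    · have hx' : x = Sum.inl (Sum.inl a) := EE_bij.1 hx
      have hy' : y = Sum.inl (Sum.inl b) := EE_bij.1 hy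
      subst hx' hy'
      unfold att
      rw [SimpleGraph.fromRel_adj]
      refine ⟨hxy, Or.inl (Or.inl ⟨Sum.inl a, Sum.inl b, ?_, rfl, rfl⟩)⟩
      rw [SimpleGraph.fromRel_adj]
      exact ⟨fun h => hxy (congrArg Sum.inl h), Or.inl (Or.inl ⟨a, b, hab, rfl, rfl⟩)⟩
    · induction r using Fin.lastCases with
      | last =>
        have hx' : x = Sum.inr τ := EE_bij.1 hx
        have hy' : y = Sum.inl (v τ) := EE_bij.1 (hy.trans (Psi_last (z, v) τ))
        subst hx' hy'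
        unfold att
        rw [SimpleGraph.fromRel_adj]
        exact ⟨hxy, Or.inl (Or.inr ⟨τ, rfl, rfl⟩)⟩
      | cast r =>
        have hx' : x = Sum.inl (Sum.inr (r, τ)) := EE_bij.1 hx
        have hy' : y = Sum.inl (z (r, τ)) := EE_bij.1 (hy.trans (Psi_cs (z, v) (r, τ)))
        subst hx' hy'
        unfold att
        rw [SimpleGraph.fromRel_adj]
        refine ⟨hxy, Or.inl (Or.inl ⟨Sum.inr (r, τ), z (r, τ), ?_, rfl, rfl⟩)⟩
        rw [SimpleGraph.fromRel_adj]
        exact ⟨fun h => hxy (congrArg Sum.inl h), Or.inl (Or.inr ⟨(r, τ), rfl, rfl⟩)⟩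
  have hxy : x ≠ y := fun h' => hne (congrArg EE h')
  rcases h with h | h
  · exact key x y hxy h
  · exact (key y x hxy.symm h).symm

/-- the isomorphism -/
noncomputable def iso (G : SimpleGraph α) (z : Lf j → α ⊕ Lf j) (v : Bool → α ⊕ Lf j) :
    (att (att G z) fun τ => Sum.inl (v τ)) ≃g att G (Psi (z, v)) where
  toEquiv := Equiv.ofBijective EE EE_bij
  map_rel_iff' := by
    intro x y
    exact ⟨bwd G z v x y, fwd G z v x y⟩

lemma iso_apply (G : SimpleGraph α) (z : Lf j → α ⊕ Lf j) (v : Bool → α ⊕ Lf j)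
    (x : (α ⊕ Lf j) ⊕ Bool) : iso G z v x = EE x := rfl

lemma h_iso (h : Func) (hg : Good h) (G : SimpleGraph α) (ρ : Set α) (z : Lf j → α ⊕ Lf j)
    (v : Bool → α ⊕ Lf j) :
    h ((α ⊕ Lf j) ⊕ Bool) (att (att G z) fun τ => Sum.inl (v τ)) (Sum.inl '' (Sum.inl '' ρ)) =
      h (α ⊕ Lf (j + 1)) (att G (Psi (z, v))) (Sum.inl '' ρ) := by
  apply hg.2 _ _ _ _ _ _ (iso G z v)
  rintro ((a | i) | τ)
  · rw [iso_apply]
    constructor
    · rintro ⟨b, hb, h1⟩
      have : b = a := Sum.inl_injective h1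
      subst this
      exact ⟨Sum.inl b, ⟨b, hb, rfl⟩, rfl⟩
    · rintro ⟨_, ⟨b, hb, rfl⟩, h1⟩
      have : b = a := Sum.inl_injective (Sum.inl_injective h1)
      subst this
      exact ⟨b, hb, rfl⟩
  · rw [iso_apply]
    constructor
    · rintro ⟨b, hb, h1⟩
      exact absurd h1 (by simp [EE, emb])
    · rintro ⟨_, ⟨b, hb, rfl⟩, h1⟩
      exact absurd (Sum.inl_injective h1) (by simp)
  · rw [iso_apply]
    constructor
    · rintro ⟨b, hb, h1⟩
      exact absurd h1 (by simp [EE])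
    · rintro ⟨_, _, h1⟩
      exact absurd h1 (by simp)

lemma wz_Psi (N : ℝ) (z : Lf j → α ⊕ Lf j) (v : Bool → α ⊕ Lf j) :
    wz N (j + 1) (Psi (z, v)) = wz N j z * (1 / (N + 2 * ((j : ℝ) + 1))) ^ 2 := by
  unfold wz
  rw [Fintype.prod_prod_type, Fin.prod_univ_castSucc, Fintype.prod_prod_type]
  congr 1
  · apply Finset.prod_congr rfl
    intro r _
    apply Finset.prod_congr rfl
    intro τ _
    have h1 : Psi (z, v) (r.castSucc, τ) = emb (z (r, τ)) := Psi_cs (z, v) (r, τ)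
    rw [h1]
    rcases z (r, τ) with a | i'
    · simp [emb]
    · simp [emb]
  · have h1 : ∀ τ : Bool, Sum.elim (fun _ : α => 1 / (N + 2 * ((Fin.last (j + 1)).val : ℝ)))
        (fun i' : Lf (j + 1) => if i'.1 < Fin.last (j + 1) then
          1 / (N + 2 * ((Fin.last (j + 1)).val : ℝ)) else 0) (Psi (z, v) (Fin.last (j + 1), τ)) =
        1 / (N + 2 * ((j : ℝ) + 1)) := by
      intro τ
      rw [Psi_last]
      show Sum.elim _ _ (emb (v τ)) = _
      generalize v τ = x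
      rcases x with a | i'
      · simp [emb]
      · simp [emb, Fin.castSucc_lt_last]
    rw [Fintype.prod_bool]
    rw [h1, h1, sq]

lemma wz_zero (N : ℝ) (z' : Lf (j + 1) → α ⊕ Lf (j + 1))
    (hz : z' ∉ Set.range (Psi (α := α) (j := j))) : wz N (j + 1) z' = 0 := by
  have hex : ∃ i, z' i ∉ Set.range (emb (α := α) (j := j)) := by
    by_contra hcon
    push Not at hcon
    choose g hg using hcon
    apply hz
    refine ⟨(fun i => g (i.1.castSucc, i.2), fun τ => g (Fin.last (j + 1), τ)), ?_⟩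
    funext i
    obtain ⟨r, τ⟩ := i
    induction r using Fin.lastCases with
    | last => rw [Psi_last]; exact hg _
    | cast r =>
      have := Psi_cs (α := α) (fun i => g (i.1.castSucc, i.2), fun τ => g (Fin.last (j + 1), τ))
        (r, τ)
      rw [this]
      exact hg _
  obtain ⟨i, hi⟩ := hex
  unfold wz
  apply Finset.prod_eq_zero (Finset.mem_univ i)
  rcases hzi : z' i with a | ⟨r, τ⟩
  · exact absurd ⟨Sum.inl a, by rw [hzi]; rfl⟩ hi
  · induction r using Fin.lastCases with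
    | last =>
      simp only [Sum.elim_inr]
      rw [if_neg]
      exact not_lt.2 (Fin.le_last _)
    | cast r => exact absurd ⟨Sum.inr (r, τ), by rw [hzi]; rfl⟩ hi

lemma cx_Psi [Fintype α] (C : (Bool → α) → ℝ) (z : Lf j → α ⊕ Lf j) (v : Bool → α ⊕ Lf j) :
    cx C (Psi (z, v)) = cx C z := by
  unfold cx
  apply Finset.sum_congr rfl
  intro u _
  have : (∀ τ, Psi (z, v) (0, τ) = Sum.inl (u τ)) ↔ ∀ τ, z (0, τ) = Sum.inl (u τ) := by
    apply forall_congr'
    intro τ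
    have h1 : Psi (z, v) (0, τ) = emb (z (0, τ)) := Psi_cs (z, v) (0, τ)
    rw [h1]
    have h2 : (Sum.inl (u τ) : α ⊕ Lf (j + 1)) = emb (Sum.inl (u τ) : α ⊕ Lf j) := rfl
    rw [h2]
    exact emb_inj.eq_iff
  by_cases hc : ∀ τ, z (0, τ) = Sum.inl (u τ)
  · rw [if_pos hc, if_pos (this.2 hc)]
  · rw [if_neg hc, if_neg (fun h => hc (this.1 h))]

/-- attachments of the first two leaves -/
def B0 (u : Bool → α) (i : Lf 0) : α ⊕ Lf 0 := Sum.inl (u i.2)

lemma B0_inj : Function.Injective (B0 (α := α)) := by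
  intro u v h
  funext τ
  exact Sum.inl_injective (congrFun h ((0 : Fin 1), τ))

lemma wz_B0 (N : ℝ) (u : Bool → α) : wz N 0 (B0 u) = (1 / N) ^ 2 := by
  unfold wz B0
  rw [Fintype.prod_prod_type]
  simp [sq]

lemma wz_B0_zero (N : ℝ) (z : Lf 0 → α ⊕ Lf 0) (hz : z ∉ Set.range (B0 (α := α))) :
    wz N 0 z = 0 := by
  have hex : ∃ i, z i ∉ Set.range (Sum.inl : α → α ⊕ Lf 0) := by
    by_contra hcon
    push Not at hcon
    choose g hg using hcon
    apply hz
    refine ⟨fun τ => g ((0 : Fin 1), τ), ?_⟩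
    funext i
    obtain ⟨r, τ⟩ := i
    have hr : r = 0 := Fin.ext (by omega)
    subst hr
    exact hg _
  obtain ⟨i, hi⟩ := hex
  unfold wz
  apply Finset.prod_eq_zero (Finset.mem_univ i)
  rcases hzi : z i with a | i'
  · exact absurd ⟨a, hzi.symm⟩ hi
  · simp only [Sum.elim_inr]
    rw [if_neg]
    have : i'.1 = i.1 := Subsingleton.elim (α := Fin 1) _ _
    rw [this]
    exact lt_irrefl _

lemma cx_B0 [Fintype α] (C : (Bool → α) → ℝ) (u : Bool → α) : cx C (B0 u) = C u := by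
  unfold cx
  rw [Finset.sum_eq_single u]
  · rw [if_pos]
    intro τ
    rfl
  · intro v _ hv
    rw [if_neg]
    intro h
    apply hv
    funext τ
    exact (Sum.inl_injective (h τ)).symm
  · intro h
    exact absurd (Finset.mem_univ u) h

lemma h_B0 (hIA : StmIA) (h : Func) (hg : Good h) (G : SimpleGraph α) (ρ : Set α)
    (u : Bool → α) :
    h (α ⊕ Bool) (att G fun τ => Sum.inl (u τ)) (Sum.inl '' ρ) =
      h (α ⊕ Lf 0) (att G (B0 u)) (Sum.inl '' ρ) := by
  obtain ⟨φ, h1, h2⟩ := hIA α α Bool (Lf 0) G G (SimpleGraph.Iso.refl)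
    (Equiv.uniqueProd Bool (Fin 1)).symm (fun τ => Sum.inl (u τ)) (B0 u) (by
      intro i
      simp [B0])
  apply hg.2 _ _ _ _ _ _ φ
  rintro (a | i)
  · rw [h1]
    simp
  · rw [h2]
    simp

end UNRx

open UNRx in
theorem tUNR (hIA : StmIA) (hSTP : StmSTP) : StmUNR := by
  intro h hg α _ G ρ C j
  induction j generalizing h with
  | zero =>
    rw [← Fintype.sum_of_injective (B0 (α := α)) B0_inj
      (fun u => wz (Fintype.card α : ℝ) 0 (B0 u) * (cx C (B0 u) *
        h (α ⊕ Lf 0) (att G (B0 u)) (Sum.inl '' ρ))) _ (by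
        intro z hz
        rw [wz_B0_zero _ z hz, zero_mul]) (fun u => rfl)]
    rw [Finset.sum_div]
    apply Finset.sum_congr rfl
    intro u _
    rw [wz_B0, cx_B0, Function.iterate_zero, id_eq, h_B0 hIA h hg G ρ u]
    ring
  | succ j ih =>
    have h1 := ih (step h) (hSTP h hg)
    rw [← Function.iterate_succ_apply] at h1
    rw [h1]
    rw [← Fintype.sum_of_injective (Psi (α := α) (j := j)) Psi_inj
      (fun p => wz (Fintype.card α : ℝ) (j + 1) (Psi p) * (cx C (Psi p) *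
        h (α ⊕ Lf (j + 1)) (att G (Psi p)) (Sum.inl '' ρ))) _ (by
        intro z hz
        rw [wz_zero _ z hz, zero_mul]) (fun u => rfl)]
    rw [Fintype.sum_prod_type]
    apply Finset.sum_congr rfl
    intro z _
    rw [step_apply]
    have hcard : (Fintype.card (α ⊕ Lf j) : ℝ) = Fintype.card α + 2 * ((j : ℝ) + 1) := by
      rw [Fintype.card_sum, Fintype.card_prod, Fintype.card_fin, Fintype.card_bool]
      push_cast
      ring
    rw [hcard, Finset.sum_div, Finset.mul_sum, Finset.mul_sum]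
    apply Finset.sum_congr rfl
    intro v _
    rw [wz_Psi, cx_Psi, h_iso h hg G ρ z v]
    generalize (Fintype.card α : ℝ) + 2 * ((j : ℝ) + 1) = M
    ring

end Pool.Agent.T6.H1.CT
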