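import Pool.Agent.T6.H1.CT.Defs

/-! Module VAR: the variance of the degenerate U-statistic. -/

set_option autoImplicit false

namespace Pool.Agent.T6.H1.CT

open Classical

namespace ModVAR

/-- resampling one coordinate -/
theorem resample {α ι : Type} [Fintype α] [Fintype ι] (i : ι) (F : (ι → α) → ℝ) :
    ∑ y : ι → α, ∑ a : α, F (Function.update y i a) = (Fintype.card α : ℝ) * ∑ y : ι → α, F y := by
  have hinv : Function.Involutive
      (fun p : (ι → α) × α => ((Function.update p.1 i p.2, p.1 i) : (ι → α) × α)) := by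
    rintro ⟨y, a⟩
    simp
  have h1 : ∑ p : (ι → α) × α, F (Function.update p.1 i p.2) = ∑ p : (ι → α) × α, F p.1 :=
    Fintype.sum_equiv hinv.toPerm _ _ fun p => rfl
  rw [Fintype.sum_prod_type, Fintype.sum_prod_type] at h1
  rw [h1]
  simp only [Finset.sum_const, Finset.card_univ, nsmul_eq_mul]
  rw [Finset.mul_sum]

theorem zero_of {α ι : Type} [Fintype α] [Nonempty α] [Fintype ι] (i : ι) (F : (ι → α) → ℝ)
    (h : ∀ y, ∑ a : α, F (Function.update y i a) = 0) : ∑ y : ι → α, F y = 0 := by
  have h1 := resample i F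
  rw [Finset.sum_eq_zero fun y _ => h y] at h1
  have h2 : (Fintype.card α : ℝ) ≠ 0 := Nat.cast_ne_zero.2 Fintype.card_ne_zero
  exact (mul_eq_zero.1 h1.symm).resolve_left h2

theorem two_coord {α ι : Type} [Fintype α] [Fintype ι] (k i : ι) (hki : k ≠ i)
    (g : α → α → ℝ) :
    (Fintype.card α : ℝ) ^ 2 * ∑ y : ι → α, g (y k) (y i) =
      (Fintype.card α : ℝ) ^ (Fintype.card ι) * ∑ a, ∑ b, g a b := by
  have h1 := resample i (fun y : ι → α => g (y k) (y i))
  have h2 := resample k (fun y : ι → α => ∑ b : α, g (y k) b)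
  simp only [Function.update_self, Function.update_of_ne hki] at h1
  simp only [Function.update_self] at h2
  rw [h1] at h2
  rw [pow_two, mul_assoc, ← h2, Finset.sum_const, Finset.card_univ, Fintype.card_fun, nsmul_eq_mul]
  push_cast
  ring

/-- the sum over a star -/
noncomputable def DD {α ι : Type} (c : α → α → ℝ) (k : ι) (J : Finset ι) (y : ι → α) : ℝ :=
  ∑ i ∈ J, c (y k) (y i)

/-- the U-statistic -/
noncomputable def SS {α ι : Type} (c : α → α → ℝ) (I : Finset ι) (y : ι → α) : ℝ :=
  ∑ i ∈ I, ∑ l ∈ I, if i = l then 0 else c (y i) (y l)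

theorem DD_update {α ι : Type} (c : α → α → ℝ) (k i : ι) (J : Finset ι) (y : ι → α) (a : α)
    (hi : i ∉ J) (hk : k ≠ i) : DD c k J (Function.update y i a) = DD c k J y := by
  unfold DD
  rw [Function.update_of_ne hk]
  refine Finset.sum_congr rfl fun j hj => ?_
  rw [Function.update_of_ne (ne_of_mem_of_not_mem hj hi)]

theorem SS_update {α ι : Type} (c : α → α → ℝ) (k : ι) (I : Finset ι) (y : ι → α) (a : α)
    (hk : k ∉ I) : SS c I (Function.update y k a) = SS c I y := by
  unfold SS
  refine Finset.sum_congr rfl fun i hi => Finset.sum_congr rfl fun l hl => ?_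
  rw [Function.update_of_ne (ne_of_mem_of_not_mem hi hk),
    Function.update_of_ne (ne_of_mem_of_not_mem hl hk)]

theorem sum_DD {α : Type} [Fintype α] [Nonempty α] {ι : Type} [Fintype ι] (c : α → α → ℝ)
    (hc : Ker c) (k : ι) (J : Finset ι) (hk : k ∉ J) :
    (Fintype.card α : ℝ) ^ 2 * ∑ y : ι → α, DD c k J y ^ 2 =
      (J.card : ℝ) * ((Fintype.card α : ℝ) ^ (Fintype.card ι) * ∑ a, ∑ b, c a b ^ 2) := by
  induction J using Finset.induction_on with
  | empty => simp [DD]
  | insert i J hi ih =>
    have hki : k ≠ i := fun h => hk (h ▸ Finset.mem_insert_self _ _)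
    have hkJ : k ∉ J := fun h => hk (Finset.mem_insert_of_mem h)
    have h0 : ∑ y : ι → α, DD c k J y * c (y k) (y i) = 0 := by
      refine zero_of i _ fun y => ?_
      have : ∀ a : α, DD c k J (Function.update y i a) *
          c (Function.update y i a k) (Function.update y i a i) = DD c k J y * c (y k) a := by
        intro a
        rw [DD_update c k i J y a hi hki, Function.update_of_ne hki, Function.update_self]
      rw [Finset.sum_congr rfl fun a _ => this a, ← Finset.mul_sum, hc.2.1, mul_zero]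
    have h1 : ∀ y : ι → α, DD c k (insert i J) y ^ 2 = DD c k J y ^ 2 +
        2 * (DD c k J y * c (y k) (y i)) + c (y k) (y i) ^ 2 := by
      intro y
      unfold DD
      rw [Finset.sum_insert hi]
      ring
    have h2 := two_coord k i hki (fun a b => c a b ^ 2)
    rw [Finset.sum_congr rfl fun y _ => h1 y, Finset.sum_add_distrib, Finset.sum_add_distrib,
      ← Finset.mul_sum, h0, mul_add, mul_add, ih hkJ, h2, Finset.card_insert_of_notMem hi]
    push_cast
    ring

theorem sum_SS {α : Type} [Fintype α] [Nonempty α] {ι : Type} [Fintype ι] (c : α → α → ℝ)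
    (hc : Ker c) (I : Finset ι) :
    (Fintype.card α : ℝ) ^ 2 * ∑ y : ι → α, SS c I y ^ 2 =
      2 * (I.card : ℝ) * ((I.card : ℝ) - 1) *
        ((Fintype.card α : ℝ) ^ (Fintype.card ι) * ∑ a, ∑ b, c a b ^ 2) := by
  induction I using Finset.induction_on with
  | empty => simp [SS]
  | insert k I hk ih =>
    have h0 : ∑ y : ι → α, SS c I y * DD c k I y = 0 := by
      refine zero_of k _ fun y => ?_
      have : ∀ a : α, SS c I (Function.update y k a) * DD c k I (Function.update y k a) =
          SS c I y * ∑ i ∈ I, c a (y i) := by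
        intro a
        rw [SS_update c k I y a hk]
        unfold DD
        rw [Function.update_self]
        congr 1
        refine Finset.sum_congr rfl fun j hj => ?_
        rw [Function.update_of_ne (ne_of_mem_of_not_mem hj hk)]
      rw [Finset.sum_congr rfl fun a _ => this a, ← Finset.mul_sum, Finset.sum_comm]
      have h3 : ∑ i ∈ I, ∑ a : α, c a (y i) = 0 := by
        refine Finset.sum_eq_zero fun i _ => ?_
        rw [Finset.sum_congr rfl fun a _ => hc.1 a (y i)]
        exact hc.2.1 _
      rw [h3, mul_zero]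
    have h1 : ∀ y : ι → α, SS c (insert k I) y = SS c I y + 2 * DD c k I y := by
      intro y
      unfold SS DD
      rw [Finset.sum_insert hk, Finset.sum_insert hk]
      have e1 : ∀ i ∈ I, (∑ l ∈ insert k I, if i = l then 0 else c (y i) (y l)) =
          c (y k) (y i) + ∑ l ∈ I, if i = l then 0 else c (y i) (y l) := by
        intro i hi
        rw [Finset.sum_insert hk, if_neg (ne_of_mem_of_not_mem hi hk), hc.1]
      have e2 : ∑ l ∈ I, (if k = l then 0 else c (y k) (y l)) = ∑ l ∈ I, c (y k) (y l) := by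
        refine Finset.sum_congr rfl fun l hl => ?_
        rw [if_neg (ne_of_mem_of_not_mem hl hk).symm]
      rw [Finset.sum_congr rfl e1, Finset.sum_add_distrib, e2, if_pos rfl]
      ring
    have h2 : ∀ y : ι → α, SS c (insert k I) y ^ 2 = SS c I y ^ 2 +
        4 * (SS c I y * DD c k I y) + 4 * DD c k I y ^ 2 := by
      intro y
      rw [h1]
      ring
    have h3 := sum_DD c hc k I hk
    rw [Finset.sum_congr rfl fun y _ => h2 y, Finset.sum_add_distrib, Finset.sum_add_distrib,
      ← Finset.mul_sum, ← Finset.mul_sum, h0, mul_add, mul_add, ih,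
      show (Fintype.card α : ℝ) ^ 2 * (4 * ∑ y : ι → α, DD c k I y ^ 2) =
        4 * ((Fintype.card α : ℝ) ^ 2 * ∑ y : ι → α, DD c k I y ^ 2) by ring, h3,
      Finset.card_insert_of_notMem hk]
    push_cast
    ring

end ModVAR

open ModVAR

theorem tVAR : StmVAR := by
  intro α _ _ ι _ c hc I
  have h := sum_SS c hc I
  have hN : (0 : ℝ) < (Fintype.card α : ℝ) := Nat.cast_pos.2 Fintype.card_pos
  have hNn : (0 : ℝ) < (Fintype.card α : ℝ) ^ (Fintype.card ι) := pow_pos hN _
  have hN2 : (0 : ℝ) < (Fintype.card α : ℝ) ^ 2 := pow_pos hN _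
  have e : (∑ y : ι → α, (∑ i ∈ I, ∑ l ∈ I, if i = l then 0 else c (y i) (y l)) ^ 2) =
      ∑ y : ι → α, SS c I y ^ 2 := rfl
  rw [e, div_le_iff₀ hNn]
  unfold msq
  refine le_of_eq ?_
  refine mul_left_cancel₀ hN2.ne' ?_
  rw [h]
  field_simp

end Pool.Agent.T6.H1.CT
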