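import Mathlib

/-!
# Project CT (MP_e7e4ab_pr): no consistent estimator of `q` in unlabelled balanced community
recursive trees

Definitions and statements of all modules. The proofs are described in `paper_proofs`.
-/

set_option autoImplicit false

namespace Pool.Agent.T6.H1.CT

open Classical

/-! ## The model -/

/-- configurations of `m` steps: the node `(k + 1, τ)` (arrival time `k + 1`, type `τ`) is attached
to the node `ω k τ` of an earlier time `0, …, k` -/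
abbrev Cfg (m : ℕ) : Type := (k : Fin m) → Bool → Fin (k.val + 1) × Bool

/-- nodes: arrival time and type; the two nodes of time `0` are the ends of the root edge -/
abbrev Node (m : ℕ) : Type := Fin (m + 1) × Bool

/-- the node at which the node `(k + 1, τ)` is attached -/
def par {m : ℕ} (ω : Cfg m) (k : Fin m) (τ : Bool) : Node m :=
  (⟨(ω k τ).1.val, lt_of_lt_of_le (ω k τ).1.isLt (by omega)⟩, (ω k τ).2)

/-- the tree -/
def tree {m : ℕ} (ω : Cfg m) : SimpleGraph (Node m) :=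
  SimpleGraph.fromRel fun v w =>
    (v = (0, false) ∧ w = (0, true)) ∨ ∃ (k : Fin m) (τ : Bool), v = (k.succ, τ) ∧ w = par ω k τ

/-- the ends of the root edge -/
def rt (m : ℕ) : Set (Node m) := {v | v.1 = 0}

/-- the probability of a configuration for the parameter `q` -/
noncomputable def law (q : ℝ) {m : ℕ} (ω : Cfg m) : ℝ :=
  ∏ k : Fin m, ∏ τ : Bool, (if (ω k τ).2 = τ then 1 - q else q) / ((k.val : ℝ) + 1)

/-- the trees are isomorphic by an isomorphism which maps the root edge to the root edge -/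
def RIso {m : ℕ} (ω ω' : Cfg m) : Prop :=
  ∃ φ : tree ω ≃g tree ω', ∀ v, φ v ∈ rt m ↔ v ∈ rt m

/-- the trees are isomorphic -/
def UIso {m : ℕ} (ω ω' : Cfg m) : Prop := Nonempty (tree ω ≃g tree ω')

/-- the probability of an event -/
noncomputable def prob (q : ℝ) {m : ℕ} (S : Set (Cfg m)) : ℝ :=
  ∑ ω : Cfg m, if ω ∈ S then law q ω else 0

/-- `f` converges to the parameter in probability for all parameters in `[0, 1/2]` -/
def Cons (f : (m : ℕ) → Cfg m → ℝ) : Prop :=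
  ∀ q ∈ Set.Icc (0 : ℝ) (1 / 2), ∀ ε : ℝ, 0 < ε →
    Filter.Tendsto (fun m : ℕ => prob q {ω : Cfg m | ε < |f m ω - q|}) Filter.atTop (nhds 0)

/-- the final theorem -/
def StmMAIN : Prop :=
  (∃ C : ℝ, ∀ q ∈ Set.Icc (23 / 48 : ℝ) (1 / 2), ∀ (m : ℕ) (S : Set (Cfg m)),
    (∀ ω ω', RIso ω ω' → (ω ∈ S ↔ ω' ∈ S)) → |prob q S - prob (1 / 2) S| ≤ C * (1 - 2 * q) ^ 2) ∧
  (¬ ∃ f : (m : ℕ) → Cfg m → ℝ, (∀ (m : ℕ) (ω ω' : Cfg m), RIso ω ω' → f m ω = f m ω') ∧ Cons f) ∧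
  (¬ ∃ f : (m : ℕ) → Cfg m → ℝ, (∀ (m : ℕ) (ω ω' : Cfg m), UIso ω ω' → f m ω = f m ω') ∧ Cons f)

/-! ## Invariant functionals of rooted graphs -/

/-- `G` with new vertices `ι`: the new vertex `i` is joined to `z i` -/
def att {α ι : Type} (G : SimpleGraph α) (z : ι → α ⊕ ι) : SimpleGraph (α ⊕ ι) :=
  SimpleGraph.fromRel fun v w =>
    (∃ a b, G.Adj a b ∧ v = Sum.inl a ∧ w = Sum.inl b) ∨ ∃ i, v = Sum.inr i ∧ w = z i

/-- functionals of graphs with a marked set of vertices -/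
abbrev Func : Type 1 := (α : Type) → SimpleGraph α → Set α → ℝ

/-- values in `[0,1]`, invariant under isomorphisms -/
def Good (h : Func) : Prop :=
  (∀ (α : Type) (G : SimpleGraph α) (ρ : Set α), 0 ≤ h α G ρ ∧ h α G ρ ≤ 1) ∧
  ∀ (α β : Type) (G : SimpleGraph α) (H : SimpleGraph β) (ρ : Set α) (σ : Set β) (e : G ≃g H),
    (∀ a, e a ∈ σ ↔ a ∈ ρ) → h α G ρ = h β H σ

/-- mean over two new leaves attached at uniformly random vertices -/
noncomputable def step (h : Func) : Func := fun α G ρ =>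
  (∑ᶠ z : Bool → α, h (α ⊕ Bool) (att G fun τ => Sum.inl (z τ)) (Sum.inl '' ρ)) /
    (Nat.card α : ℝ) ^ 2

theorem step_apply (h : Func) (α : Type) [Fintype α] (G : SimpleGraph α) (ρ : Set α) :
    step h α G ρ = (∑ z : Bool → α, h (α ⊕ Bool) (att G fun τ => Sum.inl (z τ)) (Sum.inl '' ρ)) /
      (Fintype.card α : ℝ) ^ 2 := by
  unfold step
  rw [finsum_eq_sum_of_fintype, Nat.card_eq_fintype_card]

/-- the value at the tree of a configuration -/
noncomputable def ev (h : Func) {m : ℕ} (ω : Cfg m) : ℝ := h (Node m) (tree ω) (rt m)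

/-- the value at the tree of a configuration with two new leaves at `u true`, `u false` -/
noncomputable def ev2 (h : Func) {m : ℕ} (ω : Cfg m) (u : Bool → Node m) : ℝ :=
  h (Node m ⊕ Bool) (att (tree ω) fun τ => Sum.inl (u τ)) (Sum.inl '' rt m)

/-- sign of a type -/
noncomputable def sg (b : Bool) : ℝ := if b then 1 else -1

/-- the law with `θ = 1 - 2 q` -/
noncomputable def mu (θ : ℝ) {m : ℕ} (ω : Cfg m) : ℝ :=
  ∏ k : Fin m, ∏ τ : Bool, (1 + θ * sg τ * sg (ω k τ).2) / (2 * ((k.val : ℝ) + 1))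

/-- basic lemmas: isomorphisms of graphs with new vertices -/
def StmIA : Prop := ∀ (α β ι κ : Type) (G : SimpleGraph α) (H : SimpleGraph β) (e : G ≃g H)
  (f : ι ≃ κ) (z : ι → α ⊕ ι) (z' : κ → β ⊕ κ), (∀ i, z' (f i) = Sum.map e f (z i)) →
  ∃ φ : att G z ≃g att H z', (∀ a, φ (Sum.inl a) = Sum.inl (e a)) ∧ ∀ i, φ (Sum.inr i) = Sum.inr (f i)

/-- `step` preserves `Good` -/
def StmSTP : Prop := ∀ h : Func, Good h → Good (step h)

/-- the tree after one more step -/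
def StmSNO : Prop := ∀ (h : Func), Good h → ∀ (t : ℕ) (ω : Cfg t) (z : Bool → Node t),
  ev h (m := t + 1) (Fin.snoc (α := fun k : Fin (t + 1) => Bool → Fin (k.val + 1) × Bool) ω z) =
    ev2 h ω z

/-- telescoping sum over the step at which the parameter changes from `θ` to `0` -/
def StmTEL : Prop := ∀ (h : Func), Good h → ∀ (θ : ℝ) (m : ℕ),
  ∑ ω : Cfg m, mu θ ω * ev h ω - ∑ ω : Cfg m, mu 0 ω * ev h ω =
    ∑ t ∈ Finset.range m, (- θ ^ 2) * ∑ ω : Cfg t, mu θ ω *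
      ((∑ u : Bool → Node t, sg (u true).2 * sg (u false).2 * ev2 (step^[m - 1 - t] h) ω u) /
        (2 * ((t : ℝ) + 1)) ^ 2)

/-! ## Hidden types: the gauge symmetry -/

/-- the law of the configuration together with the set of open edges -/
noncomputable def nu (θ : ℝ) {t : ℕ} (ω : Cfg t) (b : Fin t → Bool → Bool) : ℝ :=
  ∏ k : Fin t, ∏ τ : Bool, (if b k τ = true then
    (if (ω k τ).2 = τ then θ / ((k.val : ℝ) + 1) else 0) else (1 - θ) / (2 * ((k.val : ℝ) + 1)))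

/-- the graph of the open edges on the times `0, …, t` -/
def og {t : ℕ} (ω : Cfg t) (b : Fin t → Bool → Bool) : SimpleGraph (Fin (t + 1)) :=
  SimpleGraph.fromRel fun s a =>
    ∃ (k : Fin t) (τ : Bool), b k τ = true ∧ s = k.succ ∧ a.val = (ω k τ).1.val

/-- the kernel: product of the signs of the types if the times are connected -/
noncomputable def ck {t : ℕ} (ω : Cfg t) (b : Fin t → Bool → Bool) (u v : Node t) : ℝ :=
  if (og ω b).Reachable u.1 v.1 then sg u.2 * sg v.2 else 0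

/-- `nu` is a probability -/
def StmNU : Prop := ∀ (θ : ℝ), 0 ≤ θ → θ ≤ 1 → ∀ t : ℕ,
  (∀ (ω : Cfg t) (b : Fin t → Bool → Bool), 0 ≤ nu θ ω b) ∧
  ∑ ω : Cfg t, ∑ b : Fin t → Bool → Bool, nu θ ω b = 1

/-- `mu` is the marginal of `nu` -/
def StmMN : Prop := ∀ (θ : ℝ) (t : ℕ) (ω : Cfg t),
  mu θ ω = ∑ b : Fin t → Bool → Bool, nu θ ω b

/-- the gauge symmetry -/
def StmGAU : Prop := ∀ (h : Func), Good h → ∀ (θ : ℝ) (t : ℕ),
  ∑ ω : Cfg t, mu θ ω * ∑ u : Bool → Node t, sg (u true).2 * sg (u false).2 * ev2 h ω u =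
    ∑ ω : Cfg t, ∑ b : Fin t → Bool → Bool, nu θ ω b *
      ∑ u : Bool → Node t, ck ω b (u true) (u false) * ev2 h ω u

/-! ## Connection probabilities -/

/-- bound for the probability of an open edge -/
noncomputable def kap (θ : ℝ) (s a : ℕ) : ℝ := 2 * θ / ((max s a : ℕ) : ℝ)

/-- probability of a given self-avoiding path -/
def StmPTH : Prop := ∀ (θ : ℝ), 0 ≤ θ → θ ≤ 1 → ∀ (t r : ℕ) (p : Fin (r + 1) → Fin (t + 1)),
  Function.Injective p →
  ∑ ω : Cfg t, ∑ b : Fin t → Bool → Bool, nu θ ω b *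
    (if ∀ i : Fin r, (og ω b).Adj (p i.castSucc) (p i.succ) then 1 else 0) ≤
  ∏ i : Fin r, kap θ (p i.castSucc).val (p i.succ).val

/-- Schur test with the weight `1 / √(s + 1)` -/
def StmSCH : Prop := ∀ (θ : ℝ), 0 ≤ θ → θ ≤ 1 / 24 → ∀ (t : ℕ) (s : Fin (t + 1)),
  ∑ a : Fin (t + 1), (if a = s then 0 else kap θ s.val a.val / Real.sqrt ((a.val : ℝ) + 1)) ≤
    (1 / 2) / Real.sqrt ((s.val : ℝ) + 1)

/-- sums over sequences -/
def StmSEQ : Prop := ∀ (V : Type) [Fintype V] (K : V → V → ℝ) (w : V → ℝ) (l : ℝ),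
  (∀ a b, 0 ≤ K a b) → (∀ a, 0 ≤ w a) → 0 ≤ l → (∀ a, ∑ b, K a b * w b ≤ l * w a) →
  ∀ (r : ℕ) (a : V), ∑ p : Fin (r + 1) → V, (if p 0 = a then
    (∏ i : Fin r, K (p i.castSucc) (p i.succ)) * w (p (Fin.last r)) else 0) ≤ l ^ r * w a

/-- expected number of connected pairs -/
def StmCON : Prop := ∀ (θ : ℝ), 0 ≤ θ → θ ≤ 1 / 24 → ∀ t : ℕ,
  ∑ ω : Cfg t, ∑ b : Fin t → Bool → Bool, nu θ ω b *
    ∑ a : Fin (t + 1), ∑ a' : Fin (t + 1), (if (og ω b).Reachable a a' then (1 : ℝ) else 0) ≤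
  4 * ((t : ℝ) + 1)

/-! ## The later steps -/

/-- the new leaves of `j + 1` steps -/
abbrev Lf (j : ℕ) : Type := Fin (j + 1) × Bool

/-- the law of the attachments of the new leaves; `N` is the number of the old vertices -/
noncomputable def wz {α : Type} (N : ℝ) (j : ℕ) (z : Lf j → α ⊕ Lf j) : ℝ :=
  ∏ i : Lf j, Sum.elim (fun _ : α => 1 / (N + 2 * (i.1.val : ℝ)))
    (fun i' : Lf j => if i'.1 < i.1 then 1 / (N + 2 * (i.1.val : ℝ)) else 0) (z i)

/-- the function `C` of the attachments of the first two new leaves -/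
noncomputable def cx {α : Type} [Fintype α] {j : ℕ} (C : (Bool → α) → ℝ) (z : Lf j → α ⊕ Lf j) :
    ℝ :=
  ∑ u : Bool → α, if ∀ τ, z (0, τ) = Sum.inl (u τ) then C u else 0

/-- all later steps together -/
def StmUNR : Prop := ∀ (h : Func), Good h → ∀ (α : Type) [Fintype α] (G : SimpleGraph α)
  (ρ : Set α) (C : (Bool → α) → ℝ) (j : ℕ),
  (∑ u : Bool → α, C u * (step^[j] h) (α ⊕ Bool) (att G fun τ => Sum.inl (u τ)) (Sum.inl '' ρ)) /
    (Fintype.card α : ℝ) ^ 2 =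
  ∑ z : Lf j → α ⊕ Lf j, wz (Fintype.card α : ℝ) j z * (cx C z * h (α ⊕ Lf j) (att G z) (Sum.inl '' ρ))

/-- the law of the pattern: `none` = attached to an old vertex -/
noncomputable def pw (N : ℝ) {j : ℕ} (π : Lf j → Option (Lf j)) : ℝ :=
  ∏ i : Lf j, (π i).elim (N / (N + 2 * (i.1.val : ℝ)))
    (fun i' => if i'.1 < i.1 then 1 / (N + 2 * (i.1.val : ℝ)) else 0)

/-- attachments from pattern and positions -/
def zof {α : Type} {j : ℕ} (π : Lf j → Option (Lf j)) (y : Lf j → α) (i : Lf j) : α ⊕ Lf j :=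
  (π i).elim (Sum.inl (y i)) Sum.inr

/-- splitting into pattern and positions -/
def StmSPL : Prop := ∀ (α : Type) [Fintype α] [Nonempty α] (j : ℕ)
  (F : (Lf j → α ⊕ Lf j) → ℝ),
  ∑ z : Lf j → α ⊕ Lf j, wz (Fintype.card α : ℝ) j z * F z =
    ∑ π : Lf j → Option (Lf j), pw (Fintype.card α : ℝ) π *
      ((∑ y : Lf j → α, F (zof π y)) / (Fintype.card α : ℝ) ^ (2 * (j + 1)))

/-- the leaves which are attached to old vertices and have no children -/
noncomputable def gd {j : ℕ} (π : Lf j → Option (Lf j)) : Finset (Lf j) :=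
  Finset.univ.filter fun i => π i = none ∧ ∀ i', π i' ≠ some i

/-- symmetry in the good leaves -/
def StmSYM : Prop := ∀ (h : Func), Good h → ∀ (α : Type) [Fintype α] (G : SimpleGraph α)
  (ρ : Set α) (c : α → α → ℝ) (j : ℕ) (π : Lf j → Option (Lf j)) (i₁ i₂ l₁ l₂ : Lf j),
  i₁ ∈ gd π → i₂ ∈ gd π → l₁ ∈ gd π → l₂ ∈ gd π → i₁ ≠ i₂ → l₁ ≠ l₂ →
  ∑ y : Lf j → α, c (y i₁) (y i₂) * h (α ⊕ Lf j) (att G (zof π y)) (Sum.inl '' ρ) =
    ∑ y : Lf j → α, c (y l₁) (y l₂) * h (α ⊕ Lf j) (att G (zof π y)) (Sum.inl '' ρ)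

/-- symmetric kernels with mean zero rows -/
def Ker {α : Type} [Fintype α] (c : α → α → ℝ) : Prop :=
  (∀ a b, c a b = c b a) ∧ (∀ a, ∑ b, c a b = 0) ∧ ∀ a b, |c a b| = c a b ^ 2 ∧ |c a b| ≤ 1

/-- mean square -/
noncomputable def msq {α : Type} [Fintype α] (c : α → α → ℝ) : ℝ :=
  (∑ a, ∑ b, c a b ^ 2) / (Fintype.card α : ℝ) ^ 2

/-- variance of the degenerate U-statistic -/
def StmVAR : Prop := ∀ (α : Type) [Fintype α] [Nonempty α] (ι : Type) [Fintype ι]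
  (c : α → α → ℝ), Ker c → ∀ (I : Finset ι),
  (∑ y : ι → α, (∑ i ∈ I, ∑ l ∈ I, if i = l then 0 else c (y i) (y l)) ^ 2) /
    (Fintype.card α : ℝ) ^ (Fintype.card ι) ≤
    2 * (I.card : ℝ) * ((I.card : ℝ) - 1) * msq c

/-- bad patterns are rare -/
def StmPAT : Prop := ∀ (N : ℝ), 1 ≤ N → ∀ j : ℕ, 1 ≤ j →
  (∀ π : Lf j → Option (Lf j), 0 ≤ pw N π) ∧ ∑ π : Lf j → Option (Lf j), pw N π = 1 ∧
  ∑ π : Lf j → Option (Lf j), pw N π *
    (if (0, true) ∈ gd π ∧ (0, false) ∈ gd π ∧ j + 1 ≤ (gd π).card then 0 else 1) ≤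
    12 * (j : ℝ) / N

/-- `j` later steps hide the kernel -/
def StmHID : Prop := ∀ (h : Func), Good h → ∀ (α : Type) [Fintype α] [Nonempty α]
  (G : SimpleGraph α) (ρ : Set α) (c : α → α → ℝ), Ker c → ∀ j : ℕ, 1 ≤ j →
  |(∑ u : Bool → α, c (u true) (u false) *
    (step^[j] h) (α ⊕ Bool) (att G fun τ => Sum.inl (u τ)) (Sum.inl '' ρ)) /
      (Fintype.card α : ℝ) ^ 2| ≤
  Real.sqrt (2 * msq c / ((j : ℝ) * ((j : ℝ) + 1))) + 12 * (j : ℝ) / (Fintype.card α : ℝ) * msq c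

/-! ## Assembly -/

/-- number of hiding steps -/
def js (t : ℕ) : ℕ := (Nat.sqrt (Nat.sqrt (t + 1))) ^ 3

/-- the bound for the step `t` -/
noncomputable def bd (m t : ℕ) : ℝ :=
  if js t + t + 1 ≤ m then
    Real.sqrt (8 / (((t : ℝ) + 1) * ((js t : ℝ) * ((js t : ℝ) + 1)))) +
      24 * (js t : ℝ) / ((t : ℝ) + 1) ^ 2
  else 4 / ((t : ℝ) + 1)

/-- the sum of the bounds -/
def StmNUM : Prop := ∃ C : ℝ, ∀ m : ℕ, ∑ t ∈ Finset.range m, bd m t ≤ C

/-- one step -/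
def StmONE : Prop := ∀ (h : Func), Good h → ∀ (θ : ℝ), 0 ≤ θ → θ ≤ 1 / 24 → ∀ (m t : ℕ), t < m →
  |∑ ω : Cfg t, mu θ ω *
      ((∑ u : Bool → Node t, sg (u true).2 * sg (u false).2 * ev2 (step^[m - 1 - t] h) ω u) /
        (2 * ((t : ℝ) + 1)) ^ 2)| ≤ bd m t

/-- total variation bound -/
def StmTV : Prop := ∃ C : ℝ, ∀ (θ : ℝ), 0 ≤ θ → θ ≤ 1 / 24 → ∀ (m : ℕ) (h : Func), Good h →
  |∑ ω : Cfg m, mu θ ω * ev h ω - ∑ ω : Cfg m, mu 0 ω * ev h ω| ≤ C * θ ^ 2

end Pool.Agent.T6.H1.CT
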