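import Pool.Agent.T6.H1.CT.Defs

set_option autoImplicit false

namespace Pool.Agent.T6.H1.CT.ModHID

open Classical

theorem sum_bool_fun {α : Type} [Fintype α] (F : α → α → ℝ) :
    ∑ u : Bool → α, F (u true) (u false) = ∑ a, ∑ b, F a b := by
  rw [← Fintype.sum_prod_type (f := fun p : α × α => F p.1 p.2)]
  let e : (Bool → α) ≃ α × α :=
    ⟨fun u => (u true, u false), fun p b => if b then p.1 else p.2, fun u => by
      funext b; cases b <;> simp, fun p => by simp⟩
  exact Fintype.sum_equiv e _ _ fun u => rfl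

theorem msq_nonneg {α : Type} [Fintype α] (c : α → α → ℝ) : 0 ≤ msq c := by
  unfold msq
  positivity

theorem card_Lf (j : ℕ) : Fintype.card (Lf j) = 2 * (j + 1) := by
  simp [Lf]; ring

/-- mean over two coordinates -/
theorem mean_two {α ι : Type} [Fintype α] [Nonempty α] [Fintype ι] [DecidableEq ι] (i l : ι) (hil : i ≠ l)
    (F : α → α → ℝ) :
    (∑ y : ι → α, F (y i) (y l)) / (Fintype.card α : ℝ) ^ (Fintype.card ι) =
      (∑ a, ∑ b, F a b) / (Fintype.card α : ℝ) ^ 2 := by
  have hN : (Fintype.card α : ℝ) ≠ 0 := by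
    exact_mod_cast Fintype.card_ne_zero
  -- count the functions with given values at i and l
  have h1 : ∑ y : ι → α, F (y i) (y l) = ∑ a, ∑ b, ∑ y : ι → α,
      (if y i = a then 1 else 0) * (if y l = b then 1 else 0) * F a b := by
    have : ∀ y : ι → α, F (y i) (y l) = ∑ a, ∑ b,
        (if y i = a then 1 else 0) * (if y l = b then 1 else 0) * F a b := by
      intro y
      simp
    rw [Finset.sum_congr rfl fun y _ => this y, Finset.sum_comm]
    refine Finset.sum_congr rfl fun a _ => ?_
    rw [Finset.sum_comm]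
  have h2 : ∀ a b : α, ∑ y : ι → α, ((if y i = a then (1 : ℝ) else 0) *
      (if y l = b then 1 else 0)) = (Fintype.card α : ℝ) ^ (Fintype.card ι - 2) := by
    intro a b
    have : ∀ y : ι → α, ((if y i = a then (1 : ℝ) else 0) * (if y l = b then 1 else 0)) =
        ∏ k : ι, (if k = i then (if y k = a then (1 : ℝ) else 0) else
          if k = l then (if y k = b then 1 else 0) else 1) := by
      intro y
      rw [← Finset.mul_prod_erase Finset.univ _ (Finset.mem_univ i)]
      rw [← Finset.mul_prod_erase (Finset.univ.erase i) _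
        (Finset.mem_erase.2 ⟨hil.symm, Finset.mem_univ l⟩)]
      rw [if_pos rfl, if_neg hil.symm, if_pos rfl, Finset.prod_eq_one, mul_one]
      intro k hk
      rw [Finset.mem_erase, Finset.mem_erase] at hk
      rw [if_neg hk.2.1, if_neg hk.1]
    rw [Finset.sum_congr rfl fun y _ => this y]
    have := Fintype.prod_sum (fun (k : ι) (x : α) => (if k = i then (if x = a then (1 : ℝ) else 0) else
          if k = l then (if x = b then 1 else 0) else 1))
    rw [← this]
    rw [← Finset.mul_prod_erase Finset.univ _ (Finset.mem_univ i)]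
    rw [← Finset.mul_prod_erase (Finset.univ.erase i) _
        (Finset.mem_erase.2 ⟨hil.symm, Finset.mem_univ l⟩)]
    have e1 : ∑ x : α, (if i = i then (if x = a then (1 : ℝ) else 0) else
          if i = l then (if x = b then 1 else 0) else 1) = 1 := by simp
    have e2 : ∑ x : α, (if l = i then (if x = a then (1 : ℝ) else 0) else
          if l = l then (if x = b then 1 else 0) else 1) = 1 := by simp [hil.symm]
    rw [e1, e2, one_mul, one_mul]
    rw [Finset.prod_congr rfl (g := fun _ => (Fintype.card α : ℝ))]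
    · rw [Finset.prod_const, Finset.card_erase_of_mem
        (Finset.mem_erase.2 ⟨hil.symm, Finset.mem_univ l⟩),
        Finset.card_erase_of_mem (Finset.mem_univ i), Finset.card_univ]
      rfl
    · intro k hk
      rw [Finset.mem_erase, Finset.mem_erase] at hk
      simp [hk.2.1, hk.1]
  have hcard : 2 ≤ Fintype.card ι := by
    have := Fintype.one_lt_card_iff.2 ⟨i, l, hil⟩
    omega
  rw [h1]
  have h3 : ∑ a, ∑ b, ∑ y : ι → α,
      (if y i = a then 1 else 0) * (if y l = b then 1 else 0) * F a b =
      (Fintype.card α : ℝ) ^ (Fintype.card ι - 2) * ∑ a, ∑ b, F a b := by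
    rw [Finset.mul_sum]
    refine Finset.sum_congr rfl fun a _ => ?_
    rw [Finset.mul_sum]
    refine Finset.sum_congr rfl fun b _ => ?_
    rw [← Finset.sum_mul, h2]
  rw [h3]
  obtain ⟨n, hn⟩ := Nat.exists_eq_add_of_le hcard
  rw [hn]
  have : 2 + n - 2 = n := by omega
  rw [this, pow_add]
  field_simp

/-- Jensen / Cauchy-Schwarz for the mean over all `y` -/
theorem mean_abs_le {α ι : Type} [Fintype α] [Nonempty α] [Fintype ι] [DecidableEq ι]
    (F : (ι → α) → ℝ) :
    (∑ y : ι → α, |F y|) / (Fintype.card α : ℝ) ^ (Fintype.card ι) ≤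
      Real.sqrt ((∑ y : ι → α, F y ^ 2) / (Fintype.card α : ℝ) ^ (Fintype.card ι)) := by
  set W : ℝ := (Fintype.card α : ℝ) ^ (Fintype.card ι) with hW
  have hWpos : 0 < W := by
    have : (0 : ℝ) < Fintype.card α := by exact_mod_cast Fintype.card_pos
    positivity
  apply Real.le_sqrt_of_sq_le
  have h := Finset.sum_mul_sq_le_sq_mul_sq (Finset.univ : Finset (ι → α)) (fun _ => (1 : ℝ))
    (fun y => |F y|)
  have h1 : ∑ y : ι → α, (1 : ℝ) ^ 2 = W := by
    simp [hW]
  rw [h1] at h
  simp only [one_mul, sq_abs] at h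
  rw [div_pow, div_le_div_iff₀ (by positivity) hWpos]
  nlinarith [h, hWpos]

end Pool.Agent.T6.H1.CT.ModHID

namespace Pool.Agent.T6.H1.CT

open Classical ModHID

theorem tHID (hUNR : StmUNR) (hSPL : StmSPL) (hSYM : StmSYM) (hVAR : StmVAR) (hPAT : StmPAT) :
    StmHID := by
  intro h hh α _ _ G ρ c hc j hj
  set N : ℝ := (Fintype.card α : ℝ) with hN
  have hN1 : (1 : ℝ) ≤ N := by
    rw [hN]
    exact_mod_cast Fintype.card_pos
  have hNpos : 0 < N := by linarith
  set κ : ℝ := msq c with hκ
  have hκ0 : 0 ≤ κ := msq_nonneg c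
  obtain ⟨hp0, hp1, hpb⟩ := hPAT N hN1 j hj
  set C : (Bool → α) → ℝ := fun u => c (u true) (u false) with hC
  set X : (Lf j → Option (Lf j)) → ℝ := fun π =>
    (∑ y : Lf j → α, cx C (zof π y) * h (α ⊕ Lf j) (att G (zof π y)) (Sum.inl '' ρ)) /
      N ^ (2 * (j + 1)) with hX
  set R : ℝ := Real.sqrt (2 * κ / ((j : ℝ) * ((j : ℝ) + 1))) with hR
  have hR0 : 0 ≤ R := Real.sqrt_nonneg _
  have hLf : Fintype.card (Lf j) = 2 * (j + 1) := card_Lf j
  have hmain : (∑ u : Bool → α, c (u true) (u false) *
    (step^[j] h) (α ⊕ Bool) (att G fun τ => Sum.inl (u τ)) (Sum.inl '' ρ)) / N ^ 2 =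
      ∑ π : Lf j → Option (Lf j), pw N π * X π := by
    have h1 := hUNR h hh α G ρ C j
    rw [← hN] at h1
    rw [h1]
    have h2 := hSPL α j (fun z => cx C z * h (α ⊕ Lf j) (att G z) (Sum.inl '' ρ))
    rw [← hN] at h2
    exact h2
  rw [hmain]
  -- cx at a pattern
  have hcx : ∀ (π : Lf j → Option (Lf j)) (y : Lf j → α),
      π (0, true) = none → π (0, false) = none →
      cx C (zof π y) = c (y (0, true)) (y (0, false)) := by
    intro π y h1 h2
    unfold cx
    rw [Finset.sum_eq_single (fun τ => y (0, τ))]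
    · rw [if_pos]
      intro τ
      cases τ
      · simp [zof, h2]
      · simp [zof, h1]
    · intro u _ hu
      rw [if_neg]
      intro hall
      apply hu
      funext τ
      have := hall τ
      cases τ
      · simp [zof, h2] at this; exact this.symm
      · simp [zof, h1] at this; exact this.symm
    · intro hne
      exact absurd (Finset.mem_univ _) hne
  have hcx0 : ∀ (π : Lf j → Option (Lf j)) (y : Lf j → α),
      ¬ (π (0, true) = none ∧ π (0, false) = none) → cx C (zof π y) = 0 := by
    intro π y hne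
    unfold cx
    refine Finset.sum_eq_zero fun u _ => ?_
    rw [if_neg]
    intro hall
    apply hne
    constructor
    · have := hall true
      unfold zof at this
      cases hπ : π (0, true) with
      | none => rfl
      | some i => rw [hπ] at this; simp at this
    · have := hall false
      unfold zof at this
      cases hπ : π (0, false) with
      | none => rfl
      | some i => rw [hπ] at this; simp at this
  have h01 : ((0 : Fin (j + 1)), true) ≠ ((0 : Fin (j + 1)), false) := by simp
  have hh01 : ∀ (π : Lf j → Option (Lf j)) (y : Lf j → α),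
      0 ≤ h (α ⊕ Lf j) (att G (zof π y)) (Sum.inl '' ρ) ∧
      h (α ⊕ Lf j) (att G (zof π y)) (Sum.inl '' ρ) ≤ 1 := fun π y => hh.1 _ _ _
  have hW : 0 < N ^ (2 * (j + 1)) := by positivity
  -- trivial bound
  have htriv : ∀ π : Lf j → Option (Lf j), |X π| ≤ κ := by
    intro π
    by_cases hn : π (0, true) = none ∧ π (0, false) = none
    · have hm := mean_two (α := α) (ι := Lf j) (0, true) (0, false) h01 (fun a b => c a b ^ 2)
      rw [hLf, ← hN] at hm
      rw [hX, hκ]
      simp only
      rw [abs_div, abs_of_pos hW]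
      unfold msq
      rw [← hN, ← hm]
      apply div_le_div_of_nonneg_right _ hW.le
      refine (Finset.abs_sum_le_sum_abs _ _).trans (Finset.sum_le_sum fun y _ => ?_)
      rw [hcx π y hn.1 hn.2, abs_mul, (hc.2.2 _ _).1, abs_of_nonneg (hh01 π y).1]
      exact mul_le_of_le_one_right (sq_nonneg _) (hh01 π y).2
    · rw [hX]
      simp only
      rw [Finset.sum_eq_zero, zero_div, abs_zero]
      · exact hκ0
      · intro y _
        rw [hcx0 π y hn, zero_mul]
  -- good patterns
  have hgood : ∀ π : Lf j → Option (Lf j),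
      ((0, true) ∈ gd π ∧ (0, false) ∈ gd π ∧ j + 1 ≤ (gd π).card) → |X π| ≤ R := by
    rintro π ⟨g1, g2, g3⟩
    have n1 : π (0, true) = none := by
      unfold gd at g1
      exact (Finset.mem_filter.1 g1).2.1
    have n2 : π (0, false) = none := by
      unfold gd at g2
      exact (Finset.mem_filter.1 g2).2.1
    set M : ℝ := ((gd π).card : ℝ) with hM
    have hMj : (j : ℝ) + 1 ≤ M := by
      rw [hM]; exact_mod_cast g3
    have hj1 : (1 : ℝ) ≤ (j : ℝ) := by exact_mod_cast hj
    have hMM : 0 < M * (M - 1) := mul_pos (by linarith) (by linarith)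
    set H : (Lf j → α) → ℝ := fun y => h (α ⊕ Lf j) (att G (zof π y)) (Sum.inl '' ρ) with hH
    set U : (Lf j → α) → ℝ := fun y => ∑ i ∈ gd π, ∑ l ∈ gd π,
      if i = l then 0 else c (y i) (y l) with hU
    set S0 : ℝ := ∑ y : Lf j → α, c (y (0, true)) (y (0, false)) * H y with hS0
    have hsymm : ∀ i ∈ gd π, ∀ l ∈ gd π, i ≠ l →
        ∑ y : Lf j → α, c (y i) (y l) * H y = S0 := by
      intro i hi l hl hil
      exact hSYM h hh α G ρ c j π i l (0, true) (0, false) hi hl g1 g2 hil h01
    have hUS : ∑ y : Lf j → α, U y * H y = M * (M - 1) * S0 := by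
      have e1 : ∑ y : Lf j → α, U y * H y = ∑ i ∈ gd π, ∑ l ∈ gd π,
          ∑ y : Lf j → α, (if i = l then 0 else c (y i) (y l)) * H y := by
        rw [hU]
        simp only [Finset.sum_mul]
        rw [Finset.sum_comm]
        refine Finset.sum_congr rfl fun i _ => ?_
        rw [Finset.sum_comm]
      rw [e1]
      have e2 : ∀ i ∈ gd π, ∑ l ∈ gd π,
          ∑ y : Lf j → α, (if i = l then 0 else c (y i) (y l)) * H y = (M - 1) * S0 := by
        intro i hi
        rw [← Finset.add_sum_erase _ _ hi]
        have z1 : ∑ y : Lf j → α, (if i = i then 0 else c (y i) (y i)) * H y = 0 := by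
          refine Finset.sum_eq_zero fun y _ => ?_
          rw [if_pos rfl, zero_mul]
        rw [z1, zero_add]
        rw [Finset.sum_congr rfl (g := fun _ => S0)]
        · rw [Finset.sum_const, Finset.card_erase_of_mem hi, nsmul_eq_mul]
          congr 1
          rw [hM]
          have : 1 ≤ (gd π).card := by omega
          push_cast [Nat.cast_sub this]
          ring
        · intro l hl
          have hl2 := Finset.mem_erase.1 hl
          rw [← hsymm i hi l hl2.2 hl2.1.symm]
          refine Finset.sum_congr rfl fun y _ => ?_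
          rw [if_neg hl2.1.symm]
      rw [Finset.sum_congr rfl e2, Finset.sum_const, nsmul_eq_mul, ← hM]
      ring
    have hXS : X π = S0 / N ^ (2 * (j + 1)) := by
      rw [hX]
      simp only
      congr 1
      exact Finset.sum_congr rfl fun y _ => by rw [hcx π y n1 n2]
    have hSU : S0 = (∑ y : Lf j → α, U y * H y) / (M * (M - 1)) := by
      rw [hUS, mul_div_cancel_left₀ _ hMM.ne']
    rw [hXS, hSU]
    have hvar : (∑ y : Lf j → α, U y ^ 2) / N ^ (2 * (j + 1)) ≤ 2 * M * (M - 1) * κ := by
      have hv := hVAR α (Lf j) c hc (gd π)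
      rw [hLf, ← hN, ← hM, ← hκ] at hv
      convert hv using 2
      refine Finset.sum_congr (by ext y; simp) fun y _ => ?_
      have hUy : U y = ∑ i ∈ gd π, ∑ l ∈ gd π, if i = l then 0 else c (y i) (y l) := rfl
      rw [hUy]
      congr!
    have hcs := mean_abs_le (α := α) (ι := Lf j) U
    rw [hLf, ← hN] at hcs
    have hcs2 : (∑ y : Lf j → α, |U y|) / N ^ (2 * (j + 1)) ≤
        Real.sqrt (2 * M * (M - 1) * κ) := hcs.trans (Real.sqrt_le_sqrt hvar)
    have habs : |∑ y : Lf j → α, U y * H y| ≤ ∑ y : Lf j → α, |U y| := by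
      refine (Finset.abs_sum_le_sum_abs _ _).trans (Finset.sum_le_sum fun y _ => ?_)
      rw [abs_mul, abs_of_nonneg (hh01 π y).1]
      exact mul_le_of_le_one_right (abs_nonneg _) (hh01 π y).2
    rw [abs_div, abs_div, abs_of_pos hMM, abs_of_pos hW]
    have hfin : Real.sqrt (2 * M * (M - 1) * κ) / (M * (M - 1)) ≤ R := by
      rw [hR]
      apply Real.le_sqrt_of_sq_le
      rw [div_pow, Real.sq_sqrt (mul_nonneg (by nlinarith) hκ0)]
      have hjj : (j : ℝ) * ((j : ℝ) + 1) ≤ M * (M - 1) := by nlinarith
      have hjpos : 0 < (j : ℝ) * ((j : ℝ) + 1) := by positivity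
      rw [show 2 * M * (M - 1) * κ / (M * (M - 1)) ^ 2 = 2 * κ / (M * (M - 1)) by
        field_simp]
      exact div_le_div_of_nonneg_left (by linarith) hjpos hjj
    calc |∑ y : Lf j → α, U y * H y| / (M * (M - 1)) / N ^ (2 * (j + 1))
        ≤ (∑ y : Lf j → α, |U y|) / (M * (M - 1)) / N ^ (2 * (j + 1)) := by
          apply div_le_div_of_nonneg_right _ hW.le
          exact div_le_div_of_nonneg_right habs hMM.le
      _ = (∑ y : Lf j → α, |U y|) / N ^ (2 * (j + 1)) / (M * (M - 1)) := by
          rw [div_right_comm]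
      _ ≤ Real.sqrt (2 * M * (M - 1) * κ) / (M * (M - 1)) :=
          div_le_div_of_nonneg_right hcs2 hMM.le
      _ ≤ R := hfin
  -- summation over the patterns
  refine (Finset.abs_sum_le_sum_abs _ _).trans ?_
  calc ∑ π : Lf j → Option (Lf j), |pw N π * X π|
      ≤ ∑ π : Lf j → Option (Lf j), (R * pw N π + κ * (pw N π *
        (if (0, true) ∈ gd π ∧ (0, false) ∈ gd π ∧ j + 1 ≤ (gd π).card then 0 else 1))) := by
        refine Finset.sum_le_sum fun π _ => ?_
        rw [abs_mul, abs_of_nonneg (hp0 π)]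
        split_ifs with hg
        · have := mul_le_mul_of_nonneg_left (hgood π hg) (hp0 π)
          linarith
        · have h1 := mul_le_mul_of_nonneg_left (htriv π) (hp0 π)
          have h2 := mul_nonneg hR0 (hp0 π)
          linarith
    _ = R * ∑ π : Lf j → Option (Lf j), pw N π + κ * ∑ π : Lf j → Option (Lf j), (pw N π *
        (if (0, true) ∈ gd π ∧ (0, false) ∈ gd π ∧ j + 1 ≤ (gd π).card then 0 else 1)) := by
        rw [Finset.sum_add_distrib, Finset.mul_sum, Finset.mul_sum]
    _ ≤ R * 1 + κ * (12 * (j : ℝ) / N) := by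
        rw [hp1]
        exact add_le_add le_rfl (mul_le_mul_of_nonneg_left hpb hκ0)
    _ = R + 12 * (j : ℝ) / N * κ := by ring

end Pool.Agent.T6.H1.CT
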